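import Pool.Agent.H37AC.HB
import Pool.Agent.Y882.Fin

/-! The numbers of the roots of quadratic polynomials modulo the primes of a short range, for all but few of the constant
terms. -/

set_option autoImplicit false

namespace Pool.Agent.H37AC

open Finset Polynomial Filter
open Pool.Agent.W23.DC
open Pool.Agent.Y882.PX
open Pool.Agent.H306R2.RZ

/-- the quadratic polynomial `a X ^ 2 + b X + c` -/
noncomputable def fq (a b c : ℤ) : ℤ[X] := C a * X ^ 2 + C b * X + C c

theorem fq_eval (a b c x : ℤ) : (fq a b c).eval x = a * x ^ 2 + b * x + c := by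
  unfold fq
  simp

theorem fq_deg (a b c : ℤ) (ha : a ≠ 0) : (fq a b c).natDegree = 2 := by
  unfold fq
  compute_degree!

theorem fq_lc (a b c : ℤ) (ha : a ≠ 0) : (fq a b c).leadingCoeff = a := by
  unfold Polynomial.leadingCoeff
  rw [fq_deg a b c ha]
  unfold fq
  simp only [coeff_add, coeff_C_mul, coeff_X_pow, coeff_X, coeff_C]
  norm_num

theorem fq_KF (a b c : ℤ) (ha : a ≠ 0) : KF (fq a b c) = max 2 a.natAbs := by
  unfold KF
  rw [fq_deg a b c ha, fq_lc a b c ha]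

/-- the number of the roots -/
theorem ro_fq (a b c k : ℤ) (p : ℕ) (hp : p.Prime) (hp2 : p ≠ 2) (hpa : ¬ (p : ℤ) ∣ a) :
    (ro (fq a b c) k p : ℤ) = 1 + jacobiSym (b ^ 2 - 4 * a * (c + k)) p := by
  classical
  have : Fact p.Prime := ⟨hp⟩
  have h := legendreSym.card_sqrts p hp2 (b ^ 2 - 4 * a * (c + k))
  rw [jacobiSym.legendreSym.to_jacobiSym] at h
  rw [add_comm (1 : ℤ), ← h, ro_eq]
  congr 1
  have ha0 : (a : ZMod p) ≠ 0 := by
    intro h0
    exact hpa ((ZMod.intCast_zmod_eq_zero_iff_dvd a p).1 h0)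
  have h20 : (2 : ZMod p) ≠ 0 := by
    intro h0
    have h1 : ((2 : ℕ) : ZMod p) = 0 := by exact_mod_cast h0
    rw [ZMod.natCast_eq_zero_iff] at h1
    exact hp2 ((Nat.prime_dvd_prime_iff_eq hp Nat.prime_two).1 h1)
  have h2a : (2 * a : ZMod p) ≠ 0 := mul_ne_zero h20 ha0
  have hdv : ∀ n : ℕ, ((p : ℤ) ∣ (fq a b c).eval (n : ℤ) + k) ↔
      ((a : ZMod p) * (n : ZMod p) ^ 2 + b * n + c + k = 0) := by
    intro n
    rw [fq_eval, ← ZMod.intCast_zmod_eq_zero_iff_dvd]
    push_cast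
    rfl
  apply card_nbij' (i := fun n : ℕ => (2 * a * n + b : ZMod p))
    (j := fun y : ZMod p => ((y - b) / (2 * a)).val)
  · intro n hn
    rw [mem_coe, mem_filter, mem_range, hdv] at hn
    rw [mem_coe, Set.mem_toFinset, Set.mem_ofPred_eq]
    push_cast
    linear_combination (4 * a : ZMod p) * hn.2
  · intro y hy
    rw [mem_coe, Set.mem_toFinset, Set.mem_ofPred_eq] at hy
    rw [mem_coe, mem_filter, mem_range, hdv]
    refine ⟨ZMod.val_lt _, ?_⟩
    rw [ZMod.natCast_zmod_val]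
    push_cast at hy
    have h4 : (4 * a : ZMod p) ≠ 0 := by
      have : (4 * a : ZMod p) = 2 * (2 * a) := by ring
      rw [this]
      exact mul_ne_zero h20 h2a
    apply mul_left_cancel₀ h4
    rw [mul_zero]
    have e : (2 * a : ZMod p) * ((y - b) / (2 * a)) = y - b := mul_div_cancel₀ _ h2a
    generalize (y - b) / (2 * a : ZMod p) = w at e
    linear_combination (2 * a * w + y + b) * e + hy
  · intro n hn
    rw [mem_coe, mem_filter, mem_range] at hn
    show ((2 * a * n + b - b) / (2 * a) : ZMod p).val = n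
    rw [add_sub_cancel_right, mul_div_cancel_left₀ _ h2a, ZMod.val_natCast, Nat.mod_eq_of_lt hn.1]
  · intro y _
    show (2 * a * (((y - b) / (2 * a)).val : ZMod p) + b : ZMod p) = y
    rw [ZMod.natCast_zmod_val, mul_div_cancel₀ _ h2a]
    ring

theorem close_count {S : Finset ℤ} (s : ℤ → ℕ) (hs : Set.InjOn s S) (B : ℝ)
    (hB : ∀ k ∈ S, ∀ k' ∈ S, s k ≤ s k' → ((s k' : ℝ) - s k) ^ 2 ≤ B) : (S.card : ℝ) ≤ √B + 1 := by
  classical
  rcases S.eq_empty_or_nonempty with h0 | h0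
  · rw [h0]
    simp only [card_empty, Nat.cast_zero]
    positivity
  rw [← card_image_of_injOn hs]
  set T := S.image s with hT
  have hT0 : T.Nonempty := h0.image s
  obtain ⟨k0, hk0, e0⟩ := mem_image.1 (T.min'_mem hT0)
  obtain ⟨k1, hk1, e1⟩ := mem_image.1 (T.max'_mem hT0)
  have hle : s k0 ≤ s k1 := by
    rw [e0, e1]
    exact T.min'_le_max' hT0
  have hsub : T ⊆ Icc (s k0) (s k1) := by
    intro t ht
    rw [mem_Icc, e0, e1]
    exact ⟨T.min'_le t ht, T.le_max' t ht⟩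
  have h1 : (T.card : ℝ) ≤ (s k1 : ℝ) - s k0 + 1 := by
    have h2 := card_le_card hsub
    rw [Nat.card_Icc] at h2
    have h3 : T.card ≤ (s k1 - s k0) + 1 := by omega
    have h4 : (T.card : ℝ) ≤ (((s k1 - s k0) + 1 : ℕ) : ℝ) := by exact_mod_cast h3
    rw [Nat.cast_add, Nat.cast_sub hle, Nat.cast_one] at h4
    exact h4
  have h2 : (s k1 : ℝ) - s k0 ≤ √B := by
    apply Real.le_sqrt_of_sq_le
    exact hB k0 hk0 k1 hk1 hle
  linarith

/-- the number of the constant terms with a given squarefree part of the discriminant -/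
theorem disc_count (a b c : ℤ) (ha : a ≠ 0) (H : ℕ) (σ : ℤ) (hσ : σ = 1 ∨ σ = -1) (m : ℕ)
    (hm : 1 ≤ m) (S : Finset ℤ) (hS : S ⊆ Icc (-(H : ℤ)) H)
    (hS2 : ∀ k ∈ S, ∃ s : ℕ, b ^ 2 - 4 * a * (c + k) = σ * (m * (s : ℤ) ^ 2)) :
    (S.card : ℝ) ≤ √(8 * |(a : ℝ)| * H) + 1 := by
  classical
  choose! s hs using hS2
  have hσ0 : σ * σ = 1 := by rcases hσ with h | h <;> rw [h] <;> norm_num
  apply close_count s
  · intro k hk k' hk' hkk
    have h1 := hs k hk
    have h2 := hs k' hk'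
    rw [hkk, ← h2] at h1
    have h3 : 4 * a * (k - k') = 0 := by linarith
    have h4 : k - k' = 0 := by
      rcases mul_eq_zero.1 h3 with h5 | h5
      · exact absurd h5 (mul_ne_zero (by norm_num) ha)
      · exact h5
    linarith
  · intro k hk k' hk' hle
    have h1 := hs k hk
    have h2 := hs k' hk'
    have h3 : (m : ℤ) * ((s k' : ℤ) ^ 2 - (s k : ℤ) ^ 2) = σ * (4 * a * (k - k')) := by
      have h4 : σ * (m * ((s k' : ℤ) ^ 2 - (s k : ℤ) ^ 2)) = 4 * a * (k - k') := by linarith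
      calc (m : ℤ) * ((s k' : ℤ) ^ 2 - (s k : ℤ) ^ 2) =
          (σ * σ) * (m * ((s k' : ℤ) ^ 2 - (s k : ℤ) ^ 2)) := by rw [hσ0, one_mul]
        _ = σ * (σ * (m * ((s k' : ℤ) ^ 2 - (s k : ℤ) ^ 2))) := by ring
        _ = _ := by rw [h4]
    have h4 : |((k : ℤ) : ℝ) - ((k' : ℤ) : ℝ)| ≤ 2 * H := by
      have g1 := mem_Icc.1 (hS hk)
      have g2 := mem_Icc.1 (hS hk')
      have g3 : |k - k'| ≤ 2 * H := by
        rw [abs_le]
        constructor <;> linarith
      exact_mod_cast g3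
    have h5 : (m : ℝ) * ((s k' : ℝ) ^ 2 - (s k : ℝ) ^ 2) = σ * (4 * a * ((k : ℝ) - k')) := by
      exact_mod_cast h3
    have hσr : |(σ : ℝ)| = 1 := by
      rcases hσ with h | h <;> rw [h] <;> norm_num
    have h6 : (m : ℝ) * ((s k' : ℝ) ^ 2 - (s k : ℝ) ^ 2) ≤ 8 * |(a : ℝ)| * H := by
      rw [h5]
      refine (le_abs_self _).trans ?_
      rw [abs_mul, abs_mul, abs_mul, hσr, one_mul, abs_of_pos (show (0 : ℝ) < 4 by norm_num)]
      calc 4 * |(a : ℝ)| * |(k : ℝ) - k'| ≤ 4 * |(a : ℝ)| * (2 * H) := by gcongr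
        _ = _ := by ring
    have hmr : (1 : ℝ) ≤ m := by exact_mod_cast hm
    have hle' : (s k : ℝ) ≤ s k' := by exact_mod_cast hle
    have h0 : (0 : ℝ) ≤ s k := Nat.cast_nonneg _
    have h7 : ((s k' : ℝ) - s k) ^ 2 ≤ (s k' : ℝ) ^ 2 - (s k : ℝ) ^ 2 := by nlinarith
    have h8 : (s k' : ℝ) ^ 2 - (s k : ℝ) ^ 2 ≤ m * ((s k' : ℝ) ^ 2 - (s k : ℝ) ^ 2) := by
      have : 0 ≤ (s k' : ℝ) ^ 2 - (s k : ℝ) ^ 2 := (sq_nonneg _).trans h7
      nlinarith
    linarith

open Classical in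
/-- regularity in a cell, for all but few constant terms -/
theorem cell_hb (a b : ℤ) (ha : a ≠ 0) (u δ η h ε : ℝ) (hu : 0 < u) (hu1 : u ≤ 1) (hh : 0 < h)
    (hh1 : h ≤ 1) (hδ : 0 < δ) (hδ2 : δ ≤ u * ε / 16) (hδ3 : u + δ ≤ 1) (hη : 0 < η)
    (hε : 0 < ε) (hε1 : ε ≤ 8) : ∃ Y0 : ℕ, ∀ Y : ℕ, Y0 ≤ Y → ∀ (c : ℤ) (H : ℕ), |c| ≤ Y →
      (H : ℝ) ≤ (Y : ℝ) ^ h →
      (((Icc (-(H : ℤ)) H).filter (fun k => η < |∑ p ∈ pr Y u (u + δ), gd (fq a b c) k p|)).card :
        ℝ) ≤ (Y : ℝ) ^ (h / 2 + ε) := by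
  set CM : ℕ := (b ^ 2).natAbs + 8 * a.natAbs with hCM
  obtain ⟨Y1, HB⟩ := bad_hb u δ (η / 2) ε CM hu hu1 hδ hδ2 hδ3 (by linarith) hε hε1
  set A1 : ℝ := √(8 * |(a : ℝ)|) + 1 with hA1
  have hA10 : 0 < A1 := by positivity
  have ev1 : ∀ᶠ Y : ℕ in atTop, max (a.natAbs : ℝ) 3 + 1 ≤ (Y : ℝ) ^ u :=
    tendsto_natCast_atTop_atTop.eventually ((tendsto_rpow_atTop hu).eventually_ge_atTop _)
  have ev2 : ∀ᶠ Y : ℕ in atTop, 1 + 2 * A1 ≤ (Y : ℝ) ^ (ε / 2) :=
    tendsto_natCast_atTop_atTop.eventually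
      ((tendsto_rpow_atTop (by linarith)).eventually_ge_atTop _)
  have ev3 := Pool.Agent.Y882.polylog (16 / η) 1 u hu
  obtain ⟨N1, hN1⟩ := eventually_atTop.1 (ev1.and (ev2.and (ev3.and (eventually_ge_atTop (CM + 2)))))
  refine ⟨max Y1 N1, fun Y hY c H hc hH => ?_⟩
  obtain ⟨e1, e2, e3, e4⟩ := hN1 Y ((le_max_right _ _).trans hY)
  have hHB := HB Y ((le_max_left _ _).trans hY)
  have hY2 : 2 ≤ Y := by omega
  have hYr : (2 : ℝ) ≤ Y := by exact_mod_cast hY2
  have hY1 : (1 : ℝ) ≤ Y := by linarith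
  have hY0 : (0 : ℝ) < Y := by linarith
  have hL0 : 0 ≤ Real.log Y := Real.log_natCast_nonneg Y
  set P := pr Y u (u + δ) with hP
  have hPp : ∀ p ∈ P, p.Prime := fun p hp => (pr_mem Y p u _ hY2 hp).1
  have hYu : (0 : ℝ) < (Y : ℝ) ^ u := by positivity
  have hPlow : ∀ p ∈ P, (Y : ℝ) ^ u ≤ p := fun p hp => (pr_mem Y p u _ hY2 hp).2.1
  have hP2 : ∀ p ∈ P, p ≠ 2 := by
    rintro p hp rfl
    have h1 := hPlow 2 hp
    have h2 : (3 : ℝ) ≤ max (a.natAbs : ℝ) 3 := le_max_right _ _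
    push_cast at h1
    linarith
  have hPa : ∀ p ∈ P, ¬ (p : ℤ) ∣ a := by
    intro p hp hd
    have h1 := hPlow p hp
    have h2 : (a.natAbs : ℝ) ≤ max (a.natAbs : ℝ) 3 := le_max_left _ _
    have h3 : p ≤ a.natAbs := Nat.le_of_dvd (Int.natAbs_pos.2 ha) (Int.natCast_dvd.1 hd)
    have h4 : (p : ℝ) ≤ a.natAbs := by exact_mod_cast h3
    linarith
  set D : ℤ → ℤ := fun k => b ^ 2 - 4 * a * (c + k) with hD
  have hgd : ∀ k : ℤ, ∀ p ∈ P, gd (fq a b c) k p = js (D k) p / p := by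
    intro k p hp
    have h1 := ro_fq a b c k p (hPp p hp) (hP2 p hp) (hPa p hp)
    have h2 : (ro (fq a b c) k p : ℝ) = 1 + js (D k) p := by
      unfold js
      simp only [hD]
      exact_mod_cast h1
    unfold gd
    rw [h2]
    congr 1
    ring
  set A0 := (Icc (-(H : ℤ)) H).filter (fun k => D k = 0) with hA0
  set Bd : ℤ → Finset ℕ := fun σ => (sqf (CM * Y)).filter (fun m : ℕ =>
        η / 2 < |∑ p ∈ P, js (σ * m) p / p|) with hBd
  set Kk : ℤ → ℕ → Finset ℤ := fun σ m => (Icc (-(H : ℤ)) H).filter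
    (fun k => ∃ s : ℕ, D k = σ * (m * (s : ℤ) ^ 2)) with hKk
  have hsub : (Icc (-(H : ℤ)) H).filter (fun k => η < |∑ p ∈ P, gd (fq a b c) k p|) ⊆
      A0 ∪ (((Bd 1).biUnion (Kk 1)) ∪ ((Bd (-1)).biUnion (Kk (-1)))) := by
    intro k hk
    rw [mem_filter] at hk
    obtain ⟨hk1, hk2⟩ := hk
    by_cases hD0 : D k = 0
    · apply mem_union_left
      rw [hA0, mem_filter]
      exact ⟨hk1, hD0⟩
    apply mem_union_right
    obtain ⟨σ, hσ, hDσ⟩ : ∃ σ : ℤ, (σ = 1 ∨ σ = -1) ∧ D k = σ * ((D k).natAbs : ℤ) := by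
      rcases le_or_gt 0 (D k) with h1 | h1
      · exact ⟨1, Or.inl rfl, by rw [one_mul]; omega⟩
      · exact ⟨-1, Or.inr rfl, by omega⟩
    obtain ⟨m, s, hms, hsq⟩ := Nat.sq_mul_squarefree (D k).natAbs
    have hs0 : s ≠ 0 := by
      rintro rfl
      apply hD0
      rw [hDσ, ← hms]
      simp
    have hm0 : m ≠ 0 := by
      rintro rfl
      apply hD0
      rw [hDσ, ← hms]
      simp
    have hDk : D k = σ * (m * (s : ℤ) ^ 2) := by
      rw [hDσ, ← hms]
      push_cast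
      ring
    have hbound : (D k).natAbs ≤ CM * Y := by
      have h1 : |D k| ≤ |b ^ 2| + 4 * |a| * (|c| + |k|) := by
        simp only [hD]
        refine (abs_sub _ _).trans ?_
        rw [abs_mul, abs_mul, abs_of_pos (show (0 : ℤ) < 4 by norm_num)]
        have h2 : 4 * |a| * |c + k| ≤ 4 * |a| * (|c| + |k|) :=
          mul_le_mul_of_nonneg_left (abs_add_le _ _) (by positivity)
        linarith
      have h2 : |k| ≤ Y := by
        have h3 : H ≤ Y := by
          have h4 : (Y : ℝ) ^ h ≤ Y := by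
            calc (Y : ℝ) ^ h ≤ (Y : ℝ) ^ (1 : ℝ) := Real.rpow_le_rpow_of_exponent_le hY1 hh1
              _ = Y := Real.rpow_one _
          exact_mod_cast hH.trans h4
        rw [mem_Icc] at hk1
        rw [abs_le]
        constructor <;> omega
      have h3 : |D k| ≤ (|b ^ 2| + 8 * |a|) * Y := by
        have h4 : |b ^ 2| ≤ |b ^ 2| * Y := by
          have : (1 : ℤ) ≤ Y := by exact_mod_cast (by omega : 1 ≤ Y)
          exact le_mul_of_one_le_right (abs_nonneg _) this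
        have h5 : 4 * |a| * (|c| + |k|) ≤ 4 * |a| * (Y + Y) :=
          mul_le_mul_of_nonneg_left (by linarith) (by positivity)
        linarith
      rw [Int.abs_eq_natAbs, Int.abs_eq_natAbs, Int.abs_eq_natAbs] at h3
      rw [hCM]
      exact_mod_cast h3
    have hmD : m ≤ (D k).natAbs := by
      rw [← hms]
      have : 1 ≤ s ^ 2 := Nat.one_le_pow _ _ (Nat.pos_of_ne_zero hs0)
      nlinarith
    have hsD : s ≤ (D k).natAbs := by
      rw [← hms]
      have h1 : s ≤ s ^ 2 := by nlinarith [Nat.pos_of_ne_zero hs0]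
      have h2 : 1 ≤ m := Nat.pos_of_ne_zero hm0
      nlinarith
    have hlarge : η / 2 < |∑ p ∈ P, js (σ * m) p / p| := by
      have h1 : ∑ p ∈ P, gd (fq a b c) k p = ∑ p ∈ P, js (D k) p / p :=
        sum_congr rfl fun p hp => hgd k p hp
      rw [h1] at hk2
      have h2 : |∑ p ∈ P, js (D k) p / p - ∑ p ∈ P, js (σ * m) p / p| ≤ η / 2 := by
        rw [← sum_sub_distrib]
        refine (abs_sum_le_sum_abs _ _).trans ?_
        have h3 : ∀ p ∈ P, |js (D k) p / p - js (σ * m) p / p| ≤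
            if p ∣ s then 1 / (Y : ℝ) ^ u else 0 := by
          intro p hp
          have hp0 : (0 : ℝ) < p := by exact_mod_cast (hPp p hp).pos
          have hprime := Nat.prime_iff_prime_int.1 (hPp p hp)
          have : Fact p.Prime := ⟨hPp p hp⟩
          have e : js (D k) p = js (σ * m) p * js ((s : ℤ)) p ^ 2 := by
            rw [hDk, show σ * ((m : ℤ) * (s : ℤ) ^ 2) = (σ * m) * (s * s) by ring, js_left,
              js_left (s : ℤ) s]
            ring
          by_cases hps : p ∣ s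
          · rw [if_pos hps]
            have h0 : js ((s : ℤ)) p = 0 := by
              unfold js
              rw [Int.cast_eq_zero, ← jacobiSym.legendreSym.to_jacobiSym, legendreSym.eq_zero_iff]
              rw [ZMod.intCast_zmod_eq_zero_iff_dvd]
              exact_mod_cast hps
            rw [e, h0, zero_pow two_ne_zero, mul_zero, zero_div, zero_sub, abs_neg, abs_div,
              abs_of_pos hp0]
            exact div_le_div₀ (by norm_num) (Pool.Agent.H355R3.RZ4HE.js_abs _ _) hYu (hPlow p hp)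
          · rw [if_neg hps]
            have h0 : js ((s : ℤ)) p ^ 2 = 1 := by
              unfold js
              have h4 : jacobiSym (s : ℤ) p ^ 2 = 1 := by
                rw [← jacobiSym.legendreSym.to_jacobiSym]
                apply legendreSym.sq_one
                rw [Ne, ZMod.intCast_zmod_eq_zero_iff_dvd]
                exact_mod_cast hps
              exact_mod_cast h4
            rw [e, h0, mul_one, sub_self, abs_zero]
        refine (sum_le_sum h3).trans ?_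
        rw [← sum_filter, sum_const, nsmul_eq_mul]
        have h4 : ((P.filter (fun p => p ∣ s)).card : ℝ) ≤ 2 * Real.log s := by
          have h5 : (P.filter (fun p => p ∣ s)).card ≤ s.primeFactors.card := by
            apply card_le_card
            intro p hp
            rw [mem_filter] at hp
            rw [Nat.mem_primeFactors]
            exact ⟨hPp p hp.1, hp.2, hs0⟩
          have h6 := Pool.Agent.H732R2.B2.omega_log s hs0
          have h7 : ((P.filter (fun p => p ∣ s)).card : ℝ) ≤ s.primeFactors.card := by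
            exact_mod_cast h5
          linarith
        have h5 : Real.log s ≤ 2 * Real.log Y := by
          have h6 : s ≤ Y ^ 2 := by
            have h7 : s ≤ CM * Y := hsD.trans hbound
            have h8 : CM ≤ Y := by omega
            nlinarith
          have h7 := Real.log_le_log (show (0 : ℝ) < s by exact_mod_cast Nat.pos_of_ne_zero hs0)
            (show (s : ℝ) ≤ (Y : ℝ) ^ 2 by exact_mod_cast h6)
          rw [Real.log_pow] at h7
          push_cast at h7
          exact h7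
        rw [pow_one, div_mul_eq_mul_div, div_le_iff₀ hη] at e3
        calc ((P.filter (fun p => p ∣ s)).card : ℝ) * (1 / (Y : ℝ) ^ u) ≤
            (4 * Real.log Y) * (1 / (Y : ℝ) ^ u) := by
              apply mul_le_mul_of_nonneg_right _ (by positivity)
              linarith
          _ ≤ η / 2 := by
              rw [mul_one_div, div_le_iff₀ hYu]
              linarith
      have h3 := abs_sub_abs_le_abs_sub (∑ p ∈ P, js (D k) p / p) (∑ p ∈ P, js (σ * m) p / p)
      linarith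
    have hmB : m ∈ Bd σ := by
      simp only [hBd]
      rw [mem_filter]
      refine ⟨?_, hlarge⟩
      unfold sqf
      rw [mem_filter, mem_Icc]
      exact ⟨⟨Nat.pos_of_ne_zero hm0, hmD.trans hbound⟩, hsq⟩
    have hkK : k ∈ Kk σ m := by
      simp only [hKk]
      rw [mem_filter]
      exact ⟨hk1, s, hDk⟩
    rw [mem_union, mem_biUnion, mem_biUnion]
    rcases hσ with h1 | h1
    · left
      rw [h1] at hmB hkK
      exact ⟨m, hmB, hkK⟩
    · right
      rw [h1] at hmB hkK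
      exact ⟨m, hmB, hkK⟩
  have hA0c : (A0.card : ℝ) ≤ 1 := by
    have h1 : A0.card ≤ 1 := by
      rw [card_le_one]
      intro k hk k' hk'
      rw [hA0, mem_filter] at hk hk'
      have h2 := hk.2
      have h3 := hk'.2
      simp only [hD] at h2 h3
      have h4 : 4 * a * (k - k') = 0 := by linarith
      rcases mul_eq_zero.1 h4 with h5 | h5
      · exact absurd h5 (mul_ne_zero (by norm_num) ha)
      · linarith
    exact_mod_cast h1
  have hKc : ∀ σ : ℤ, (σ = 1 ∨ σ = -1) → ∀ m ∈ Bd σ, ((Kk σ m).card : ℝ) ≤ A1 * (Y : ℝ) ^ (h / 2) := by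
    intro σ hσ m hm
    simp only [hBd] at hm
    rw [mem_filter] at hm
    have hm1 : 1 ≤ m := by
      have := hm.1
      unfold sqf at this
      rw [mem_filter, mem_Icc] at this
      exact this.1.1
    have h1 := disc_count a b c ha H σ hσ m hm1 (Kk σ m) (filter_subset _ _) (by
      intro k hk
      simp only [hKk] at hk
      rw [mem_filter] at hk
      exact hk.2)
    refine h1.trans ?_
    have h2 : √(8 * |(a : ℝ)| * H) ≤ √(8 * |(a : ℝ)|) * (Y : ℝ) ^ (h / 2) := by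
      rw [Real.sqrt_mul (by positivity)]
      apply mul_le_mul_of_nonneg_left _ (Real.sqrt_nonneg _)
      rw [Real.sqrt_le_left (by positivity), ← Real.rpow_natCast, ← Real.rpow_mul hY0.le]
      refine hH.trans (le_of_eq ?_)
      congr 1
      push_cast
      ring
    have h3 : (1 : ℝ) ≤ (Y : ℝ) ^ (h / 2) := Real.one_le_rpow hY1 (by positivity)
    rw [hA1, add_mul, one_mul]
    linarith
  have hUc : ∀ σ : ℤ, (σ = 1 ∨ σ = -1) → ((((Bd σ).biUnion (Kk σ)).card : ℕ) : ℝ) ≤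
      (Y : ℝ) ^ (ε / 2) * (A1 * (Y : ℝ) ^ (h / 2)) := by
    intro σ hσ
    calc ((((Bd σ).biUnion (Kk σ)).card : ℕ) : ℝ) ≤ ∑ m ∈ Bd σ, ((Kk σ m).card : ℝ) := by
          exact_mod_cast card_biUnion_le
      _ ≤ ∑ m ∈ Bd σ, A1 * (Y : ℝ) ^ (h / 2) := sum_le_sum (hKc σ hσ)
      _ = ((Bd σ).card : ℝ) * (A1 * (Y : ℝ) ^ (h / 2)) := by rw [sum_const, nsmul_eq_mul]
      _ ≤ _ := mul_le_mul_of_nonneg_right (hHB σ) (by positivity)
  have h1 : ((((Icc (-(H : ℤ)) H).filter (fun k => η < |∑ p ∈ P, gd (fq a b c) k p|)).card : ℕ) : ℝ)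
      ≤ A0.card + (((((Bd 1).biUnion (Kk 1)).card : ℕ) : ℝ) +
        ((((Bd (-1)).biUnion (Kk (-1))).card : ℕ) : ℝ)) := by
    have h2 := (card_le_card hsub).trans (card_union_le _ _)
    have h3 := card_union_le ((Bd 1).biUnion (Kk 1)) ((Bd (-1)).biUnion (Kk (-1)))
    exact_mod_cast h2.trans (Nat.add_le_add_left h3 _)
  have h2 := hUc 1 (Or.inl rfl)
  have h3 := hUc (-1) (Or.inr rfl)
  have h4 : (1 : ℝ) ≤ (Y : ℝ) ^ (ε / 2) * (Y : ℝ) ^ (h / 2) := by
    have g1 : (1 : ℝ) ≤ (Y : ℝ) ^ (h / 2) := Real.one_le_rpow hY1 (by positivity)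
    have g2 : (1 : ℝ) ≤ (Y : ℝ) ^ (ε / 2) := Real.one_le_rpow hY1 (by positivity)
    nlinarith
  calc ((((Icc (-(H : ℤ)) H).filter (fun k => η < |∑ p ∈ P, gd (fq a b c) k p|)).card : ℕ) : ℝ) ≤
      (1 + 2 * A1) * ((Y : ℝ) ^ (ε / 2) * (Y : ℝ) ^ (h / 2)) := by linarith
    _ ≤ (Y : ℝ) ^ (ε / 2) * ((Y : ℝ) ^ (ε / 2) * (Y : ℝ) ^ (h / 2)) :=
        mul_le_mul_of_nonneg_right e2 (by positivity)
    _ = (Y : ℝ) ^ (h / 2 + ε) := by
        rw [← Real.rpow_add hY0, ← Real.rpow_add hY0]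
        congr 1
        ring

end Pool.Agent.H37AC
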