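import Pool.Agent.H37AC.Main
import Pool.Agent.Y882.GP.Gen

/-! Almost prime values of quadratic polynomials at primes: the theorem in terms of the size of the primes, the local product,
and the numerical values. -/

set_option autoImplicit false

open Finset Polynomial Filter Topology

namespace Pool.Agent.H37AC

open Pool.Agent.Y882
open Pool.Agent.Y882.GP hiding WW fq fq_eval fq_deg fq_KF
open Pool.Agent.Y882.KW
open Pool.Agent.Y882.PX (ro KF)
open Pool.Agent.T6.H57 (Lam)

theorem locP_nonneg (F : ℤ[X]) (k : ℤ) (x : ℝ) : 0 ≤ locP F k x := by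
  unfold locP
  apply prod_nonneg
  intro q hq
  have := (rs_ratio F k q (mem_filter.1 hq).2).2
  linarith

theorem gr_mono (F : ℤ[X]) (k : ℤ) (r : ℕ) (x w w' : ℝ) (hw : w ≤ w') :
    (gr F k r x w').card ≤ (gr F k r x w).card := by
  classical
  apply card_le_card
  intro p hp
  unfold gr at hp ⊢
  rw [mem_filter] at hp ⊢
  obtain ⟨g1, g2, g3, g4, g5, g6, g7⟩ := hp
  exact ⟨g1, g2, g3, g4, g5, g6, fun q hq hqd => hw.trans (g7 q hq hqd)⟩

theorem Lam_ge (r : ℕ) (hr : 1 ≤ r) : 1 ≤ Lam r := by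
  unfold Lam
  have h1 : (3 : ℝ) ≤ 3 ^ r := by
    calc (3 : ℝ) = 3 ^ 1 := (pow_one _).symm
      _ ≤ 3 ^ r := pow_le_pow_right₀ (by norm_num) hr
  have h2 : 0 ≤ Real.log ((1 + 3 ^ r) / 4) := Real.log_nonneg (by linarith)
  have h3 : 0 ≤ Real.log 3 := Real.log_nonneg (by norm_num)
  have : 0 ≤ Real.log ((1 + 3 ^ r) / 4) / Real.log 3 := div_nonneg h2 h3
  linarith

open Classical in
theorem main_x (a b : ℤ) (ha : 1 ≤ a) (r : ℕ) (hr : 1 ≤ r) (h τ ε : ℝ) (hh : 0 < h) (hh2 : h ≤ 2)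
    (hL : 2 < τ * Lam r) (hτh : 2 * τ - 1 ≤ h) (hε : 0 < ε) :
    ∃ δ : ℝ, 0 < δ ∧ ∃ x0 : ℝ, 2 ≤ x0 ∧ ∀ x : ℝ, x0 ≤ x → ∀ K : ℤ, |(K : ℝ)| ≤ x ^ 2 →
      (((Icc (-(⌊x ^ h⌋₊ : ℤ)) (⌊x ^ h⌋₊ : ℤ)).filter (fun k : ℤ =>
        ((gr (fq a b K) k r x (x ^ (τ / 4))).card : ℝ) <
          δ * (x / Real.log x) * locP (fq a b K) k x)).card : ℝ) ≤
      x ^ (max (h / 2) (2 * τ - 1) + ε) := by
  have hτ0 : 0 < τ := by
    by_contra hcon
    push Not at hcon
    have h1 := Lam_ge r hr
    nlinarith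
  set ε' : ℝ := min (ε / 4) 1 with hε'
  have hε'0 : 0 < ε' := lt_min (by linarith) one_pos
  have hε'1 : ε' ≤ 1 := min_le_right _ _
  have hε'2 : ε' ≤ ε / 4 := min_le_left _ _
  obtain ⟨s, hs0, hs8, δ, hδ, Y0, HY⟩ := main_Y a b ha r hr (h / 2) (τ / 2) ε' (by linarith)
    (by linarith) (by linarith) (by linarith) (by linarith) hε'0 hε'1
  have ev1 : ∀ᶠ x : ℝ in atTop, (2 : ℝ) ≤ x ^ (2 * s) :=
    (tendsto_rpow_atTop (by linarith)).eventually_ge_atTop _
  have ev2 : ∀ᶠ x : ℝ in atTop, (4 : ℝ) ≤ x ^ (ε / 2) :=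
    (tendsto_rpow_atTop (by linarith)).eventually_ge_atTop _
  obtain ⟨X1, HX⟩ := eventually_atTop.1 (ev1.and (ev2.and (eventually_ge_atTop ((Y0 : ℝ) + 2))))
  refine ⟨δ / 3, by positivity, max X1 2, le_max_right _ _, fun x hx K hK => ?_⟩
  obtain ⟨e1, e2, e3⟩ := HX x ((le_max_left _ _).trans hx)
  have hx2 : 2 ≤ x := (le_max_right _ _).trans hx
  have hx0 : 0 < x := by linarith
  have hx1 : 1 ≤ x := by linarith
  have hlx : 0 < Real.log x := Real.log_pos (by linarith)
  set Y : ℕ := ⌈x ^ 2⌉₊ with hY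
  have hYx2 : x ^ 2 ≤ Y := Nat.le_ceil _
  have hYx2' : (Y : ℝ) ≤ 2 * x ^ 2 := by
    have := Nat.ceil_lt_add_one (show 0 ≤ x ^ 2 by positivity)
    nlinarith
  have hY0 : Y0 ≤ Y := by
    have h1 : (Y0 : ℝ) ≤ Y := by nlinarith
    exact_mod_cast h1
  have hYr0 : (0 : ℝ) < Y := by nlinarith
  have hYx : (Y : ℝ) ^ (1 / 2 - s) ≤ x := by
    calc (Y : ℝ) ^ (1 / 2 - s) ≤ (2 * x ^ 2) ^ (1 / 2 - s) :=
          Real.rpow_le_rpow hYr0.le hYx2' (by linarith)
      _ = 2 ^ (1 / 2 - s) * x ^ (1 - 2 * s) := by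
          rw [Real.mul_rpow (by norm_num) (by positivity), ← Real.rpow_natCast x 2,
            ← Real.rpow_mul hx0.le]
          congr 2
          push_cast
          ring
      _ ≤ 2 * x ^ (1 - 2 * s) := by
          apply mul_le_mul_of_nonneg_right _ (by positivity)
          calc (2 : ℝ) ^ (1 / 2 - s) ≤ 2 ^ (1 : ℝ) :=
                Real.rpow_le_rpow_of_exponent_le (by norm_num) (by linarith)
            _ = 2 := Real.rpow_one _
      _ ≤ x ^ (2 * s) * x ^ (1 - 2 * s) := mul_le_mul_of_nonneg_right e1 (by positivity)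
      _ = x := by
          rw [← Real.rpow_add hx0, show 2 * s + (1 - 2 * s) = (1 : ℝ) by ring, Real.rpow_one]
  have hKY : |K| ≤ (Y : ℤ) := by
    have h1 : ((|K| : ℤ) : ℝ) ≤ ((Y : ℤ) : ℝ) := by
      rw [Int.cast_abs]
      push_cast
      exact hK.trans hYx2
    exact_mod_cast h1
  set H : ℕ := ⌊x ^ h⌋₊ with hH
  have hHY : (H : ℝ) ≤ (Y : ℝ) ^ (h / 2) := by
    calc (H : ℝ) ≤ x ^ h := Nat.floor_le (by positivity)
      _ = (x ^ 2) ^ (h / 2) := by
          rw [← Real.rpow_natCast x 2, ← Real.rpow_mul hx0.le]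
          congr 1
          push_cast
          ring
      _ ≤ (Y : ℝ) ^ (h / 2) := Real.rpow_le_rpow (by positivity) hYx2 (by positivity)
  have hmain := HY Y hY0 x hYx hYx2 K hKY H hHY
  have hlY : Real.log Y ≤ 3 * Real.log x := by
    have h1 := Real.log_le_log hYr0 hYx2'
    rw [Real.log_mul (by norm_num) (by positivity), Real.log_pow] at h1
    have h2 := Real.log_le_log (show (0 : ℝ) < 2 by norm_num) hx2
    push_cast at h1
    linarith
  have hlY0 : 0 < Real.log Y := Real.log_pos (by nlinarith)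
  have hw : x ^ (τ / 4) ≤ (Y : ℝ) ^ (τ / 2 / 4) := by
    calc x ^ (τ / 4) = (x ^ 2) ^ (τ / 2 / 4) := by
          rw [← Real.rpow_natCast x 2, ← Real.rpow_mul hx0.le]
          congr 1
          push_cast
          ring
      _ ≤ _ := Real.rpow_le_rpow (by positivity) hYx2 (by positivity)
  have hsub : (Icc (-(H : ℤ)) (H : ℤ)).filter (fun k : ℤ =>
        ((gr (fq a b K) k r x (x ^ (τ / 4))).card : ℝ) <
          δ / 3 * (x / Real.log x) * locP (fq a b K) k x) ⊆
      (Icc (-(H : ℤ)) H).filter (fun k =>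
        ((gr (fq a b K) k r x ((Y : ℝ) ^ (τ / 2 / 4))).card : ℝ) <
          δ * x / Real.log Y * locP (fq a b K) k x) := by
    intro k hk
    rw [mem_filter] at hk ⊢
    refine ⟨hk.1, ?_⟩
    have h1 : ((gr (fq a b K) k r x ((Y : ℝ) ^ (τ / 2 / 4))).card : ℝ) ≤
        (gr (fq a b K) k r x (x ^ (τ / 4))).card := by
      exact_mod_cast gr_mono (fq a b K) k r x _ _ hw
    refine (h1.trans_lt hk.2).trans_le ?_
    apply mul_le_mul_of_nonneg_right _ (locP_nonneg _ _ _)
    rw [mul_div_assoc', div_le_div_iff₀ hlx hlY0]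
    calc δ / 3 * x * Real.log Y ≤ δ / 3 * x * (3 * Real.log x) := by gcongr
      _ = δ * x * Real.log x := by ring
  have h1 : (((Icc (-(H : ℤ)) (H : ℤ)).filter (fun k : ℤ =>
        ((gr (fq a b K) k r x (x ^ (τ / 4))).card : ℝ) <
          δ / 3 * (x / Real.log x) * locP (fq a b K) k x)).card : ℝ) ≤
      (Y : ℝ) ^ (max (h / 2 / 2) (2 * (τ / 2) - 1 / 2) + ε') := by
    refine le_trans ?_ hmain
    exact_mod_cast card_le_card hsub
  refine h1.trans ?_
  set E' : ℝ := max (h / 2 / 2) (2 * (τ / 2) - 1 / 2) with hE'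
  have hE2 : max (h / 2) (2 * τ - 1) = 2 * E' := by
    rw [hE', mul_max_of_nonneg _ _ (by norm_num : (0 : ℝ) ≤ 2)]
    congr 1 <;> ring
  have hE0 : 0 ≤ E' := le_trans (by positivity) (le_max_left _ _)
  have hE1 : E' ≤ 1 := max_le (by linarith) (by linarith)
  rw [hE2]
  calc (Y : ℝ) ^ (E' + ε') ≤ (2 * x ^ 2) ^ (E' + ε') :=
        Real.rpow_le_rpow hYr0.le hYx2' (by positivity)
    _ = 2 ^ (E' + ε') * x ^ (2 * E' + 2 * ε') := by
        rw [Real.mul_rpow (by norm_num) (by positivity), ← Real.rpow_natCast x 2,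
          ← Real.rpow_mul hx0.le]
        congr 2
        push_cast
        ring
    _ ≤ 4 * x ^ (2 * E' + 2 * ε') := by
        apply mul_le_mul_of_nonneg_right _ (by positivity)
        calc (2 : ℝ) ^ (E' + ε') ≤ 2 ^ (2 : ℝ) :=
              Real.rpow_le_rpow_of_exponent_le (by norm_num) (by linarith)
          _ = 4 := by norm_num
    _ ≤ x ^ (ε / 2) * x ^ (2 * E' + 2 * ε') := mul_le_mul_of_nonneg_right e2 (by positivity)
    _ ≤ x ^ (2 * E' + ε) := by
        rw [← Real.rpow_add hx0]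
        apply Real.rpow_le_rpow_of_exponent_le hx1
        linarith

/-- lower bound for the product of the local densities -/
theorem loc_low (K : ℕ) : ∃ c0 : ℝ, 0 < c0 ∧ ∀ (F : ℤ[X]) (n : ℤ),
    (∀ q : ℕ, q.Prime → rs F n q ≤ K) → (∀ q : ℕ, q.Prime → rs F n q + 2 ≤ q) →
    ∀ z : ℝ, 3 ≤ z → c0 / Real.log z ^ K ≤ locP F n z := by
  obtain ⟨C, hC⟩ := Pool.Agent.Erdos456.Mert.mertens_inv
  set A : ℝ := (K : ℝ) * (K + 1) ^ 2 with hA
  have hA0 : 0 ≤ A := by positivity
  set B : ℝ := (1 / ((K : ℝ) + 1)) ^ (K + 2) with hB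
  have hB0 : 0 < B := by positivity
  refine ⟨B * Real.exp (-(K * C + A)), by positivity, fun F n h1' h2' z hz => ?_⟩
  set Zn : ℕ := ⌊z⌋₊ with hZn
  have hZ3 : 3 ≤ Zn := Nat.le_floor (by exact_mod_cast hz)
  have hZr : (3 : ℝ) ≤ Zn := by exact_mod_cast hZ3
  have h1 := hC Zn hZ3
  have hlZ : 0 < Real.log Zn := Real.log_pos (by linarith)
  have hlz : Real.log Zn ≤ Real.log z := Real.log_le_log (by linarith) (Nat.floor_le (by linarith))
  set PR := (Icc 1 Zn).filter Nat.Prime with hPR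
  have hone : (1 / ((K : ℝ) + 1)) ≤ 1 := by
    rw [div_le_one (by positivity)]
    have : (0 : ℝ) ≤ K := Nat.cast_nonneg K
    linarith
  have hone0 : 0 < (1 / ((K : ℝ) + 1)) := by positivity
  have hBp : B ≤ ∏ q ∈ PR, (if q < K + 2 then (1 / ((K : ℝ) + 1)) else 1) := by
    rw [prod_ite, prod_const_one, mul_one, prod_const, hB]
    apply pow_le_pow_of_le_one hone0.le hone
    calc (PR.filter (fun q => q < K + 2)).card ≤ (range (K + 2)).card := by
          apply card_le_card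
          intro q hq
          rw [mem_filter] at hq
          exact mem_range.2 hq.2
      _ = K + 2 := card_range _
  have hlow : B * Real.exp (-(K * (Real.log (Real.log Zn) + C) + A)) ≤ locP F n z := by
    unfold locP
    rw [← hZn, ← hPR]
    calc B * Real.exp (-(K * (Real.log (Real.log Zn) + C) + A)) ≤
        B * Real.exp (-(∑ q ∈ PR, ((K : ℝ) / q + A / ((q : ℝ) * ((q : ℝ) - 1))))) := by
          apply mul_le_mul_of_nonneg_left _ hB0.le
          apply Real.exp_le_exp.2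
          have h4 := (abs_le.1 h1).2
          have h5 : ∑ q ∈ PR, ((K : ℝ) / q + A / ((q : ℝ) * ((q : ℝ) - 1))) ≤
              K * ∑ q ∈ PR, 1 / (q : ℝ) + A := by
            rw [sum_add_distrib, mul_sum]
            apply add_le_add
            · apply le_of_eq
              apply sum_congr rfl
              intro q _
              ring
            · exact sum_tel A hA0 Zn (by omega)
          have h6 : (K : ℝ) * ∑ q ∈ PR, 1 / (q : ℝ) ≤ K * (Real.log (Real.log Zn) + C) := by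
            apply mul_le_mul_of_nonneg_left _ (Nat.cast_nonneg K)
            linarith
          linarith
      _ ≤ (∏ q ∈ PR, (if q < K + 2 then (1 / ((K : ℝ) + 1)) else 1)) *
          ∏ q ∈ PR, Real.exp (-((K : ℝ) / q + A / ((q : ℝ) * ((q : ℝ) - 1)))) := by
          rw [← sum_neg_distrib, Real.exp_sum]
          apply mul_le_mul_of_nonneg_right hBp
          exact prod_nonneg fun _ _ => (Real.exp_pos _).le
      _ = ∏ q ∈ PR, ((if q < K + 2 then (1 / ((K : ℝ) + 1)) else 1) *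
          Real.exp (-((K : ℝ) / q + A / ((q : ℝ) * ((q : ℝ) - 1))))) := by
          rw [prod_mul_distrib]
      _ ≤ _ := by
          apply Finset.prod_le_prod
          · intro q _
            apply mul_nonneg _ (Real.exp_pos _).le
            split_ifs
            · exact hone0.le
            · norm_num
          · intro q hq
            have hqp := (mem_filter.1 hq).2
            exact Pool.Agent.Y882.GP.fac_low K q _ hqp.two_le (h1' q hqp) (h2' q hqp)
  have h2 : B * Real.exp (-(K * (Real.log (Real.log Zn) + C) + A)) =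
      B * Real.exp (-(K * C + A)) / Real.log Zn ^ K := by
    rw [show -((K : ℝ) * (Real.log (Real.log Zn) + C) + A) = -(K * C + A) -
      K * Real.log (Real.log Zn) by ring, Real.exp_sub, Real.exp_nat_mul, Real.exp_log hlZ]
    ring
  rw [h2] at hlow
  refine le_trans ?_ hlow
  apply div_le_div_of_nonneg_left (by positivity) (by positivity)
  exact pow_le_pow_left₀ hlZ.le hlz K

/-- the case of `p ^ 2 + p + k`, `k` odd -/
theorem loc_odd : ∃ c0 : ℝ, 0 < c0 ∧ ∀ k : ℤ, Odd k → ∀ z : ℝ, 3 ≤ z →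
    c0 / Real.log z ^ 2 ≤ locP (fq 1 1 0) k z := by
  obtain ⟨c0, hc0, H⟩ := loc_low 2
  refine ⟨c0, hc0, fun k hk z hz => H (fq 1 1 0) k ?_ ?_ z hz⟩
  · intro q hq
    refine (rs_le_ro _ _ _).trans ?_
    have h1 := PX.ro_le (fq 1 1 0) (by rw [fq_deg 1 1 0 one_ne_zero]; norm_num) k q hq
    rw [fq_KF 1 1 0 one_ne_zero] at h1
    simpa using h1
  · intro q hq
    have hro : rs (fq 1 1 0) k q ≤ 2 := by
      refine (rs_le_ro _ _ _).trans ?_
      have h1 := PX.ro_le (fq 1 1 0) (by rw [fq_deg 1 1 0 one_ne_zero]; norm_num) k q hq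
      rw [fq_KF 1 1 0 one_ne_zero] at h1
      simpa using h1
    by_cases h2 : q = 2
    · subst h2
      have h3 : rs (fq 1 1 0) k 2 = 0 := by
        classical
        unfold rs Rt
        rw [card_eq_zero, filter_eq_empty_iff]
        rintro a ha ⟨h1, h2⟩
        rw [mem_range] at ha
        have ha1 : a = 1 := by
          interval_cases a
          · simp at h2
          · rfl
        subst ha1
        rw [fq_eval] at h1
        obtain ⟨m, hm⟩ := hk
        subst hm
        push_cast at h1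
        obtain ⟨j, hj⟩ := h1
        omega
      omega
    by_cases h3 : q = 3
    · subst h3
      have h4 : rs (fq 1 1 0) k 3 ≤ 1 := by
        classical
        unfold rs Rt
        rw [card_le_one]
        intro x hx y hy
        rw [mem_filter, mem_range] at hx hy
        obtain ⟨hx1, hx2, hx3⟩ := hx
        obtain ⟨hy1, hy2, hy3⟩ := hy
        rw [fq_eval] at hx2 hy2
        by_contra hne
        have hx0 : x ≠ 0 := by rintro rfl; simp at hx3
        have hy0 : y ≠ 0 := by rintro rfl; simp at hy3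
        have h : (x = 1 ∧ y = 2) ∨ (x = 2 ∧ y = 1) := by omega
        rcases h with ⟨rfl, rfl⟩ | ⟨rfl, rfl⟩
        · push_cast at hx2 hy2
          omega
        · push_cast at hx2 hy2
          omega
      omega
    · have h4 : 4 ≤ q := by
        have := hq.two_le
        omega
      omega

theorem num2 : 2 < (1.0906 : ℝ) * Lam 2 := by
  unfold Lam
  obtain ⟨h3, h3'⟩ := log3
  obtain ⟨h5, h5'⟩ := log5
  have h2' := Real.log_two_lt_d9
  have e1 : Real.log (5 / 2) = Real.log 5 - Real.log 2 :=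
    Real.log_div (by norm_num) (by norm_num)
  have e3 : ((1 + 3 ^ 2) / 4 : ℝ) = 5 / 2 := by norm_num
  rw [e3]
  have e4 : (0.83386 : ℝ) ≤ Real.log (5 / 2) / Real.log 3 := by
    rw [le_div_iff₀ (by linarith), e1]
    linarith
  linarith

theorem num3 : 2 < (0.7218 : ℝ) * Lam 3 := by
  unfold Lam
  obtain ⟨h3, h3'⟩ := log3
  have h2 := Real.log_two_gt_d9
  have e1 : (2 : ℝ) * Real.log 7 = Real.log (49 / 48) + 4 * Real.log 2 + Real.log 3 := by
    rw [Real.log_div (by norm_num) (by norm_num), show (49 : ℝ) = 7 ^ 2 by norm_num,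
      show (48 : ℝ) = 2 ^ 4 * 3 by norm_num, Real.log_mul (by norm_num) (by norm_num),
      Real.log_pow, Real.log_pow]
    push_cast
    ring
  have e2 : 1 - (49 / 48 : ℝ)⁻¹ ≤ Real.log (49 / 48 : ℝ) :=
    Real.one_sub_inv_le_log_of_pos (by norm_num)
  norm_num at e2
  have e3 : ((1 + 3 ^ 3) / 4 : ℝ) = 7 := by norm_num
  rw [e3]
  have e4 : (1.7709 : ℝ) ≤ Real.log 7 / Real.log 3 := by
    rw [le_div_iff₀ (by linarith)]
    linarith
  linarith

theorem num4 : 2 < (0.5336 : ℝ) * Lam 4 := by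
  unfold Lam
  obtain ⟨h3, h3'⟩ := log3
  obtain ⟨h5, h5'⟩ := log5
  have h2 := Real.log_two_gt_d9
  have e1 : Real.log (41 / 2) = Real.log (41 / 40) + 2 * Real.log 2 + Real.log 5 := by
    rw [Real.log_div (by norm_num) (by norm_num), Real.log_div (by norm_num) (by norm_num),
      show (40 : ℝ) = 2 ^ 3 * 5 by norm_num, Real.log_mul (by norm_num) (by norm_num),
      Real.log_pow]
    push_cast
    ring
  have e2 : 1 - (41 / 40 : ℝ)⁻¹ ≤ Real.log (41 / 40 : ℝ) :=
    Real.one_sub_inv_le_log_of_pos (by norm_num)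
  norm_num at e2
  have e3 : ((1 + 3 ^ 4) / 4 : ℝ) = 41 / 2 := by norm_num
  rw [e3]
  have e4 : (2.7482 : ℝ) ≤ Real.log (41 / 2) / Real.log 3 := by
    rw [le_div_iff₀ (by linarith)]
    linarith
  linarith

theorem num5 : 2 < (0.422 : ℝ) * Lam 5 := by
  unfold Lam
  obtain ⟨h3, h3'⟩ := log3
  obtain ⟨h5, h5'⟩ := log5
  have h2 := Real.log_two_gt_d9
  have e1 : Real.log 61 = Real.log (61 / 60) + 2 * Real.log 2 + Real.log 3 + Real.log 5 := by
    rw [Real.log_div (by norm_num) (by norm_num), show (60 : ℝ) = 2 ^ 2 * 3 * 5 by norm_num,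
      Real.log_mul (by norm_num) (by norm_num), Real.log_mul (by norm_num) (by norm_num),
      Real.log_pow]
    push_cast
    ring
  have e2 : 1 - (61 / 60 : ℝ)⁻¹ ≤ Real.log (61 / 60 : ℝ) :=
    Real.one_sub_inv_le_log_of_pos (by norm_num)
  norm_num at e2
  have e3 : ((1 + 3 ^ 5) / 4 : ℝ) = 61 := by norm_num
  rw [e3]
  have e4 : (3.74 : ℝ) ≤ Real.log 61 / Real.log 3 := by
    rw [le_div_iff₀ (by linarith)]
    linarith
  linarith

end Pool.Agent.H37AC
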