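import Pool.Agent.H423R2.RZL.HBLS
import Pool.Agent.Y882.GP.Mer

/-! Sums of real characters over the primes of a short range, for all but few of the moduli: from the large sieve for real
characters (`Pool.Agent.H423R2.RZL.HBLSn.HBLS`, starting files). -/

set_option autoImplicit false

namespace Pool.Agent.H37AC

open Finset Polynomial Filter
open Pool.Agent.W23.DC
open Pool.Agent.Y882.PX
open Pool.Agent.H306R2.RZ

theorem js_prod (k : ℤ) (T : Finset ℕ) (hT : ∀ p ∈ T, p.Prime) :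
    js k (∏ p ∈ T, p) = ∏ p ∈ T, js k p := by
  classical
  induction T using Finset.induction_on with
  | empty => simp [js]
  | insert q T hq ih =>
    have hT' : ∀ p ∈ T, p.Prime := fun p hp => hT p (mem_insert_of_mem hp)
    have hqp : q.Prime := hT q (mem_insert_self q T)
    rw [prod_insert hq, prod_insert hq, Pool.Agent.H355R3.RZ4HE.js_mul k _ _ hqp.ne_zero
      (prod_ne_zero_iff.2 fun p hp => (hT' p hp).ne_zero), ih hT']

theorem js_left (a b : ℤ) (n : ℕ) : js (a * b) n = js a n * js b n := by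
  unfold js
  rw [jacobiSym.mul_left]
  push_cast
  ring

theorem tail_sq (Q N : ℕ) (hQ : 1 ≤ Q) : ∑ n ∈ Icc Q N, 1 / (n : ℝ) ^ 2 ≤ 2 / (Q : ℝ) := by
  have h := sum_Ioo_inv_sq_le (α := ℝ) (Q - 1) (N + 1)
  have e : Ioo (Q - 1) (N + 1) = Icc Q N := by
    ext n
    rw [mem_Ioo, mem_Icc]
    omega
  rw [e] at h
  have e2 : (((Q - 1 : ℕ) : ℝ) + 1) = Q := by
    rw [Nat.cast_sub hQ]
    push_cast
    ring
  rw [e2] at h
  simp_rw [one_div]
  exact h

open Classical in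
theorem bad_hb (u δ η ε : ℝ) (CM : ℕ) (hu : 0 < u) (hu1 : u ≤ 1) (hδ : 0 < δ) (hδ2 : δ ≤ u * ε / 16)
    (hδ3 : u + δ ≤ 1) (hη : 0 < η) (hε : 0 < ε) (hε1 : ε ≤ 8) : ∃ Y0 : ℕ, ∀ Y : ℕ, Y0 ≤ Y → ∀ σ : ℤ,
      (((sqf (CM * Y)).filter (fun m : ℕ =>
        η < |∑ p ∈ pr Y u (u + δ), js (σ * m) p / p|)).card : ℝ) ≤ (Y : ℝ) ^ (ε / 2) := by
  obtain ⟨j, hj0, hj1, hj2⟩ : ∃ j : ℕ, 1 ≤ j ∧ 1 ≤ (j : ℝ) * u ∧ (j : ℝ) * u ≤ 2 := by
    refine ⟨⌈1 / u⌉₊, Nat.ceil_pos.2 (by positivity), ?_, ?_⟩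
    · have h1 := Nat.le_ceil (1 / u)
      calc (1 : ℝ) = 1 / u * u := by field_simp
        _ ≤ _ := mul_le_mul_of_nonneg_right h1 hu.le
    · have h1 := Nat.ceil_lt_add_one (show 0 ≤ 1 / u by positivity)
      calc (⌈1 / u⌉₊ : ℝ) * u ≤ (1 / u + 1) * u := mul_le_mul_of_nonneg_right h1.le hu.le
        _ = 1 + u := by field_simp
        _ ≤ 2 := by linarith
  have hjδ : (j : ℝ) * δ ≤ ε / 8 := by
    have h1 : (j : ℝ) * δ ≤ j * (u * ε / 16) := mul_le_mul_of_nonneg_left hδ2 (by positivity)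
    have h2 : (j : ℝ) * (u * ε / 16) = (j * u) * ε / 16 := by ring
    have h3 : (j : ℝ) * u * ε ≤ 2 * ε := mul_le_mul_of_nonneg_right hj2 hε.le
    linarith
  set ε' : ℝ := ε / 32 with hε'
  obtain ⟨CH, hCH, HH⟩ := Pool.Agent.H423R2.RZL.HBLSn.HBLS ε' (by positivity)
  set G0 : ℝ := Real.log ((u + δ) / u) + 1 with hG0
  obtain ⟨C, hC, HC⟩ := esym_pow G0 j
  obtain ⟨N0, HM⟩ := Pool.Agent.W378.DC.MP u 1 hu one_pos
  set Z : ℝ := η ^ j / (2 * j.factorial) with hZ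
  have hfac : (0 : ℝ) < j.factorial := by exact_mod_cast j.factorial_pos
  have hZ0 : 0 < Z := by positivity
  set CM' : ℝ := (CM : ℝ) + 1 with hCM'
  have hCM1 : 1 ≤ CM' := by
    have : (0 : ℝ) ≤ CM := Nat.cast_nonneg _
    linarith
  set C2 : ℝ := CH * CM' ^ ε' * (CM' + 1) * 2 with hC2
  have hC20 : 0 < C2 := by positivity
  have ev1 : ∀ᶠ Y : ℕ in atTop, max (2 * C / η ^ j) 3 ≤ (Y : ℝ) ^ u :=
    tendsto_natCast_atTop_atTop.eventually ((tendsto_rpow_atTop hu).eventually_ge_atTop _)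
  have ev2 : ∀ᶠ Y : ℕ in atTop, C2 / Z ^ 2 ≤ (Y : ℝ) ^ (ε / 4) :=
    tendsto_natCast_atTop_atTop.eventually
      ((tendsto_rpow_atTop (by linarith)).eventually_ge_atTop _)
  obtain ⟨N1, hN1⟩ := eventually_atTop.1 (ev1.and (ev2.and (eventually_ge_atTop 2)))
  refine ⟨max N0 N1, fun Y hY σ => ?_⟩
  obtain ⟨e1, e2, e3⟩ := hN1 Y ((le_max_right _ _).trans hY)
  have e1a : 2 * C / η ^ j ≤ (Y : ℝ) ^ u := (le_max_left _ _).trans e1
  have e1b : (3 : ℝ) ≤ (Y : ℝ) ^ u := (le_max_right _ _).trans e1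
  have hYr : (2 : ℝ) ≤ Y := by exact_mod_cast e3
  have hY1 : (1 : ℝ) ≤ Y := by linarith
  have hY0 : (0 : ℝ) < Y := by linarith
  set P := pr Y u (u + δ) with hP
  have hPp : ∀ p ∈ P, p.Prime := fun p hp => (pr_mem Y p u _ e3 hp).1
  have hYu : (0 : ℝ) < (Y : ℝ) ^ u := by positivity
  have hPlow : ∀ p ∈ P, (Y : ℝ) ^ u ≤ p := fun p hp => (pr_mem Y p u _ e3 hp).2.1
  have hPup : ∀ p ∈ P, (p : ℝ) ≤ (Y : ℝ) ^ (u + δ) := fun p hp => (pr_mem Y p u _ e3 hp).2.2.le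
  have hPodd : ∀ p ∈ P, Odd p := by
    intro p hp
    refine (hPp p hp).odd_of_ne_two ?_
    rintro rfl
    have h1 := hPlow 2 hp
    push_cast at h1
    linarith
  have hM := HM Y ((le_max_left _ _).trans hY) u (u + δ) le_rfl (by linarith) hδ3
  have hgp : ∀ (m : ℤ), ∀ p ∈ P, |js m p / p| ≤ 1 / (p : ℝ) := by
    intro m p hp
    have hp0 : (0 : ℝ) < p := by exact_mod_cast (hPp p hp).pos
    rw [abs_div, abs_of_pos hp0]
    exact div_le_div_of_nonneg_right (Pool.Agent.H355R3.RZ4HE.js_abs m p) hp0.le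
  have hG : ∀ m : ℤ, ∑ p ∈ P, |js m p / p| ≤ G0 := by
    intro m
    calc ∑ p ∈ P, |js m p / p| ≤ ∑ p ∈ P, (1 / ((p : ℝ) - 1)) := by
          apply sum_le_sum
          intro p hp
          refine (hgp m p hp).trans ?_
          have hp2 : (2 : ℝ) ≤ p := by exact_mod_cast (hPp p hp).two_le
          exact one_div_le_one_div_of_le (by linarith) (by linarith)
      _ ≤ G0 := by
          rw [abs_le] at hM
          linarith [hM.2]
  have hgd : ∀ m : ℤ, ∀ p ∈ P, |js m p / p| ≤ 1 / (Y : ℝ) ^ u := by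
    intro m p hp
    exact (hgp m p hp).trans (one_div_le_one_div_of_le hYu (hPlow p hp))
  set N : ℕ := ⌊(Y : ℝ) ^ (j * (u + δ))⌋₊ with hN
  set Q : ℕ := ⌈(Y : ℝ) ^ (j * u)⌉₊ with hQ
  have hYmu : (0 : ℝ) < (Y : ℝ) ^ (j * u) := by positivity
  have hQ1 : 1 ≤ Q := Nat.ceil_pos.2 hYmu
  set A : ℕ → ℂ := fun n => if n.primeFactors ⊆ P ∧ n.primeFactors.card = j then
    ((js σ n / n : ℝ) : ℂ) else 0 with hA
  -- the elementary symmetric function
  have hTN : ∀ T ∈ P.powersetCard j, ∏ p ∈ T, p ≤ N := by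
    intro T hT
    rw [mem_powersetCard] at hT
    rw [hN]
    apply Nat.le_floor
    push_cast
    calc ∏ p ∈ T, (p : ℝ) ≤ ∏ p ∈ T, (Y : ℝ) ^ (u + δ) := by
          apply Finset.prod_le_prod
          · intro _ _; positivity
          · intro p hp
            exact hPup p (hT.1 hp)
      _ = (Y : ℝ) ^ (j * (u + δ)) := by
          rw [prod_const, hT.2, ← Real.rpow_natCast, ← Real.rpow_mul hY0.le, mul_comm]
  have hodd : ∀ T ⊆ P, Odd (∏ p ∈ T, p) := by
    intro T hT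
    exact Finset.prod_induction _ Odd (fun _ _ => Odd.mul) odd_one (fun p hp => hPodd p (hT hp))
  have hEE : ∀ m : ℕ, ((∑ T ∈ P.powersetCard j, ∏ p ∈ T, (js (σ * m) p / p) : ℝ) : ℂ) =
      ∑ n ∈ osf N, A n * (js m n : ℂ) := by
    intro m
    have h1 : ∑ n ∈ osf N, A n * (js m n : ℂ) = ∑ n ∈ (osf N).filter
        (fun n => n.primeFactors ⊆ P ∧ n.primeFactors.card = j), ((js (σ * m) n / n : ℝ) : ℂ) := by
      rw [sum_filter]
      apply sum_congr rfl
      intro n _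
      simp only [hA]
      split_ifs
      · rw [js_left]
        push_cast
        ring
      · rw [zero_mul]
    rw [h1]
    push_cast
    apply sum_nbij' (i := fun T : Finset ℕ => ∏ p ∈ T, p) (j := fun d : ℕ => d.primeFactors)
    · intro T hT
      have hT' := hT
      rw [mem_powersetCard] at hT
      have hTp : ∀ p ∈ T, p.Prime := fun p hp => hPp p (hT.1 hp)
      rw [mem_filter, Nat.primeFactors_prod hTp]
      refine ⟨?_, hT⟩
      unfold osf
      rw [mem_filter, mem_Icc]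
      exact ⟨⟨Nat.pos_of_ne_zero (prod_ne_zero_iff.2 fun p hp => (hTp p hp).ne_zero), hTN T hT'⟩,
        hodd T hT.1, sqf_prod T hTp⟩
    · intro d hd
      rw [mem_filter] at hd
      rw [mem_powersetCard]
      exact hd.2
    · intro T hT
      rw [mem_powersetCard] at hT
      exact Nat.primeFactors_prod (fun p hp => hPp p (hT.1 hp))
    · intro d hd
      rw [mem_filter] at hd
      exact Nat.prod_primeFactors_of_squarefree (Pool.Agent.H355R3.RZ4HE.mem_osf hd.1).2.2.2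
    · intro T hT
      rw [mem_powersetCard] at hT
      have hTp : ∀ p ∈ T, p.Prime := fun p hp => hPp p (hT.1 hp)
      rw [js_prod _ T hTp, prod_div_distrib]
      push_cast
      rfl
  -- large values
  have hbig : ∀ m ∈ (sqf (CM * Y)).filter (fun m : ℕ => η < |∑ p ∈ P, js (σ * m) p / p|),
      Z ^ 2 ≤ ‖∑ n ∈ osf N, A n * (js m n : ℂ)‖ ^ 2 := by
    intro m hm
    rw [mem_filter] at hm
    have h1 := HC P (fun p => js (σ * m) p / p) (1 / (Y : ℝ) ^ u) (by positivity) (hgd (σ * m))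
      (hG (σ * m))
    have h2 : η ^ j ≤ |(∑ p ∈ P, js (σ * m) p / p) ^ j| := by
      rw [abs_pow]
      exact pow_le_pow_left₀ hη.le hm.2.le j
    have h3 : C * (1 / (Y : ℝ) ^ u) ≤ η ^ j / 2 := by
      rw [mul_one_div, div_le_iff₀ hYu]
      rw [div_le_iff₀ (by positivity)] at e1a
      linarith
    set E := ∑ T ∈ P.powersetCard j, ∏ p ∈ T, (js (σ * m) p / p) with hE
    have h4 : η ^ j / 2 ≤ |(j.factorial : ℝ) * E| := by
      have h5 : |(∑ p ∈ P, js (σ * m) p / p) ^ j| ≤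
          |(∑ p ∈ P, js (σ * m) p / p) ^ j - j.factorial * E| + |(j.factorial : ℝ) * E| := by
        have := abs_add_le ((∑ p ∈ P, js (σ * m) p / p) ^ j - j.factorial * E)
          ((j.factorial : ℝ) * E)
        rwa [sub_add_cancel] at this
      have h6 : |(∑ p ∈ P, js (σ * m) p / p) ^ j - j.factorial * E| ≤ C * (1 / (Y : ℝ) ^ u) := h1
      linarith
    rw [abs_mul, Nat.abs_cast] at h4
    have h5 : Z ≤ |E| := by
      rw [hZ, div_le_iff₀ (by positivity)]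
      linarith
    rw [← hEE m, Complex.norm_real, Real.norm_eq_abs]
    exact pow_le_pow_left₀ hZ0.le h5 2
  -- the coefficients
  have hA2 : ∑ n ∈ osf N, ‖A n‖ ^ 2 ≤ 2 / (Y : ℝ) ^ (j * u) := by
    have h1 : ∑ n ∈ osf N, ‖A n‖ ^ 2 ≤ ∑ n ∈ Icc Q N, 1 / (n : ℝ) ^ 2 := by
      have h2 : ∀ n ∈ osf N, ‖A n‖ ^ 2 ≤ if n ∈ Icc Q N then 1 / (n : ℝ) ^ 2 else 0 := by
        intro n hn
        obtain ⟨n1, n2, n3, n4⟩ := Pool.Agent.H355R3.RZ4HE.mem_osf hn
        have hn0 : (0 : ℝ) < n := by exact_mod_cast n1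
        simp only [hA]
        by_cases hc : n.primeFactors ⊆ P ∧ n.primeFactors.card = j
        · rw [if_pos hc, if_pos]
          · rw [Complex.norm_real, Real.norm_eq_abs, abs_div, abs_of_pos hn0, div_pow]
            apply div_le_div_of_nonneg_right _ (by positivity)
            have := Pool.Agent.H355R3.RZ4HE.js_abs σ n
            exact pow_le_one₀ (abs_nonneg _) this
          · rw [mem_Icc]
            refine ⟨?_, n2⟩
            rw [hQ]
            apply Nat.ceil_le.2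
            have h3 : ((∏ p ∈ n.primeFactors, p : ℕ) : ℝ) = n := by
              exact_mod_cast congrArg (Nat.cast (R := ℝ)) (Nat.prod_primeFactors_of_squarefree n4)
            rw [← h3]
            push_cast
            calc (Y : ℝ) ^ (j * u) = ∏ p ∈ n.primeFactors, (Y : ℝ) ^ u := by
                  rw [prod_const, hc.2, ← Real.rpow_natCast, ← Real.rpow_mul hY0.le, mul_comm]
              _ ≤ ∏ p ∈ n.primeFactors, (p : ℝ) := by
                  apply Finset.prod_le_prod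
                  · intro _ _; positivity
                  · intro p hp
                    exact hPlow p (hc.1 hp)
        · rw [if_neg hc]
          split_ifs
          · rw [norm_zero, zero_pow two_ne_zero]; positivity
          · rw [norm_zero]; norm_num
      refine (sum_le_sum h2).trans ?_
      rw [← sum_filter]
      apply sum_le_sum_of_subset_of_nonneg
      · intro n hn
        exact (mem_filter.1 hn).2
      · intro _ _ _
        positivity
    refine h1.trans ((tail_sq Q N hQ1).trans ?_)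
    exact div_le_div_of_nonneg_left (by norm_num) hYmu (Nat.le_ceil _)
  set Bd := (sqf (CM * Y)).filter (fun m : ℕ => η < |∑ p ∈ P, js (σ * m) p / p|) with hBd
  rcases Nat.eq_zero_or_pos Bd.card with h0 | h0
  · rw [h0]
    push_cast
    positivity
  have hCMY : 1 ≤ CM * Y := by
    obtain ⟨m, hm⟩ := card_pos.1 h0
    rw [hBd, mem_filter] at hm
    unfold sqf at hm
    rw [mem_filter, mem_Icc] at hm
    omega
  have hYj : (1 : ℝ) ≤ (Y : ℝ) ^ (j * (u + δ)) := Real.one_le_rpow hY1 (by positivity)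
  have hN1' : 1 ≤ N := Nat.le_floor (by exact_mod_cast hYj)
  have hLS := HH (CM * Y) N hCMY hN1' A
  have hcount : (Bd.card : ℝ) * Z ^ 2 ≤
      (CH * (((CM * Y : ℕ) : ℝ) * N) ^ ε' * (((CM * Y : ℕ) : ℝ) + N)) *
        (2 / (Y : ℝ) ^ (j * u)) := by
    calc (Bd.card : ℝ) * Z ^ 2 = ∑ m ∈ Bd, Z ^ 2 := by rw [sum_const, nsmul_eq_mul]
      _ ≤ ∑ m ∈ Bd, ‖∑ n ∈ osf N, A n * (js m n : ℂ)‖ ^ 2 := sum_le_sum hbig
      _ ≤ ∑ m ∈ sqf (CM * Y), ‖∑ n ∈ osf N, A n * (js m n : ℂ)‖ ^ 2 :=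
          sum_le_sum_of_subset_of_nonneg (filter_subset _ _) (fun _ _ _ => by positivity)
      _ ≤ _ := hLS
      _ ≤ _ := mul_le_mul_of_nonneg_left hA2 (by positivity)
  have hCMr : ((CM * Y : ℕ) : ℝ) ≤ CM' * Y := by
    push_cast
    apply mul_le_mul_of_nonneg_right _ hY0.le
    linarith
  have hNr : (N : ℝ) ≤ (Y : ℝ) ^ (j * u) * (Y : ℝ) ^ (ε / 8) := by
    have h1 : (N : ℝ) ≤ (Y : ℝ) ^ (j * (u + δ)) := Nat.floor_le (by positivity)
    refine h1.trans ?_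
    rw [← Real.rpow_add hY0]
    apply Real.rpow_le_rpow_of_exponent_le hY1
    linarith
  have hYle : (Y : ℝ) ≤ (Y : ℝ) ^ (j * u) := by
    calc (Y : ℝ) = (Y : ℝ) ^ (1 : ℝ) := (Real.rpow_one _).symm
      _ ≤ _ := Real.rpow_le_rpow_of_exponent_le hY1 hj1
  have hYe : (1 : ℝ) ≤ (Y : ℝ) ^ (ε / 8) := Real.one_le_rpow hY1 (by positivity)
  have hb1 : ((CM * Y : ℕ) : ℝ) + N ≤ (CM' + 1) * ((Y : ℝ) ^ (j * u) * (Y : ℝ) ^ (ε / 8)) := by
    have h1 : CM' * (Y : ℝ) ≤ CM' * ((Y : ℝ) ^ (j * u) * (Y : ℝ) ^ (ε / 8)) := by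
      apply mul_le_mul_of_nonneg_left _ (by linarith)
      calc (Y : ℝ) ≤ (Y : ℝ) ^ (j * u) := hYle
        _ = (Y : ℝ) ^ (j * u) * 1 := (mul_one _).symm
        _ ≤ _ := mul_le_mul_of_nonneg_left hYe hYmu.le
    linarith
  have hb2 : (((CM * Y : ℕ) : ℝ) * N) ^ ε' ≤ CM' ^ ε' * (Y : ℝ) ^ (ε / 8) := by
    have h1 : ((CM * Y : ℕ) : ℝ) * N ≤ CM' * (Y : ℝ) ^ (4 : ℝ) := by
      have h2 : (N : ℝ) ≤ (Y : ℝ) ^ (3 : ℝ) := by
        have h3 : (N : ℝ) ≤ (Y : ℝ) ^ (j * (u + δ)) := Nat.floor_le (by positivity)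
        refine h3.trans (Real.rpow_le_rpow_of_exponent_le hY1 ?_)
        linarith
      calc ((CM * Y : ℕ) : ℝ) * N ≤ (CM' * Y) * (Y : ℝ) ^ (3 : ℝ) :=
            mul_le_mul hCMr h2 (Nat.cast_nonneg _) (by positivity)
        _ = CM' * (Y : ℝ) ^ (4 : ℝ) := by
            rw [show (4 : ℝ) = 1 + 3 by norm_num, Real.rpow_add hY0, Real.rpow_one]
            ring
    calc (((CM * Y : ℕ) : ℝ) * N) ^ ε' ≤ (CM' * (Y : ℝ) ^ (4 : ℝ)) ^ ε' :=
          Real.rpow_le_rpow (by positivity) h1 (by positivity)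
      _ = CM' ^ ε' * (Y : ℝ) ^ (ε / 8) := by
          rw [Real.mul_rpow (by linarith) (by positivity), ← Real.rpow_mul hY0.le]
          congr 2
          rw [hε']
          ring
  have hfin : (CH * (((CM * Y : ℕ) : ℝ) * N) ^ ε' * (((CM * Y : ℕ) : ℝ) + N)) *
        (2 / (Y : ℝ) ^ (j * u)) ≤ C2 * (Y : ℝ) ^ (ε / 4) := by
    calc (CH * (((CM * Y : ℕ) : ℝ) * N) ^ ε' * (((CM * Y : ℕ) : ℝ) + N)) *
        (2 / (Y : ℝ) ^ (j * u)) ≤ (CH * (CM' ^ ε' * (Y : ℝ) ^ (ε / 8)) *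
          ((CM' + 1) * ((Y : ℝ) ^ (j * u) * (Y : ℝ) ^ (ε / 8)))) * (2 / (Y : ℝ) ^ (j * u)) := by
          gcongr
      _ = C2 * ((Y : ℝ) ^ (ε / 8) * (Y : ℝ) ^ (ε / 8)) := by
          rw [hC2]
          field_simp
      _ = C2 * (Y : ℝ) ^ (ε / 4) := by
          rw [← Real.rpow_add hY0]
          congr 2
          ring
  have h1 := hcount.trans hfin
  have h2 : C2 * (Y : ℝ) ^ (ε / 4) ≤ (Y : ℝ) ^ (ε / 2) * Z ^ 2 := by
    rw [div_le_iff₀ (by positivity)] at e2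
    calc C2 * (Y : ℝ) ^ (ε / 4) ≤ ((Y : ℝ) ^ (ε / 4) * Z ^ 2) * (Y : ℝ) ^ (ε / 4) :=
          mul_le_mul_of_nonneg_right e2 (by positivity)
      _ = ((Y : ℝ) ^ (ε / 4) * (Y : ℝ) ^ (ε / 4)) * Z ^ 2 := by ring
      _ = (Y : ℝ) ^ (ε / 2) * Z ^ 2 := by
          rw [← Real.rpow_add hY0]
          congr 2
          ring
  exact le_of_mul_le_mul_right (h1.trans h2) (by positivity)

end Pool.Agent.H37AC
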