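import Pool.Agent.Y882.GP.Few
import Pool.Agent.Y882.KW.Alm

/-! The pointwise lower bound for sums over the primes `p` such that the set of the small prime factors of `F(p) + k` has a
given property (adapted from `Pool.Agent.Y882.GP.Low`). -/

set_option autoImplicit false

namespace Pool.Agent.H37AC

open Finset Polynomial Filter
open Pool.Agent.Y882
open Pool.Agent.Y882.GP
open Pool.Agent.W23.DC
open Pool.Agent.H410R2
open Pool.Agent.Helper112 Pool.Agent.Helper112.BLB
open Pool.Agent.H732R2.B2 (Sc)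
open Pool.Agent.Y882.PX (ro KF)

open Classical in
/-- the sifted sum -/
noncomputable def TGp (F : ℤ[X]) (x : ℝ) (G : ℕ → Prop) (k : ℤ) : ℝ :=
  ∑ m ∈ Icc 1 ⌊x⌋₊, al x m * (if G (F.eval (m : ℤ) + k).natAbs then 1 else 0)

theorem lowGp (hTW : St_TW) (F : ℤ[X]) (hF : 1 ≤ F.natDegree) (x : ℝ) (k : ℤ) (P : Finset ℕ)
    (hP : ∀ p ∈ P, p.Prime) (c : Finset ℕ → ℝ) (D : ℕ) (K R R' : ℝ) (hx1 : 1 ≤ x)
    (hK0 : 0 ≤ K) (hK : ∀ T, |c T| ≤ K) (hc : ∀ T ⊆ P, c T ≠ 0 → ∏ p ∈ T, p ≤ D)
    (G : ℕ → Prop) (hG : ∀ N N' : ℕ, (∀ p ∈ P, (p ∣ N ↔ p ∣ N')) → G N → G N')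
    (hN : ∀ N : ℕ, VV P c (fun p => if p ∣ N then 1 else 0) ≤
      (open Classical in if G N then 1 else 0))
    (hR : ∀ g : ℕ, 1 ≤ g → g ≤ D →
      ∑ b ∈ (Icc 1 ⌊x⌋₊).filter (fun b => ¬ b.Coprime g), |al x b| ≤ R) (hR0 : 0 ≤ R)
    (hR' : ∑ b ∈ (Icc 1 ⌊x⌋₊).filter (fun b => ¬ b.Coprime (F.eval 0 + k).natAbs), |al x b| ≤ R') :
    ∑ T ∈ P.powerset, c T * Eg F ⌊x⌋₊ (al x) k (∏ p ∈ T, p) +
      (∑ m ∈ Icc 1 ⌊x⌋₊, al x m) * VV P c (fun p => (rs F k p : ℝ) / ((p : ℝ) - 1)) -
        (K * R * Sc (KF F) D + R') ≤ TGp F x G k := by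
  classical
  set X := ⌊x⌋₊ with hX
  have hx0 : 0 < x := by linarith
  have hal0 : ∀ m ∈ Icc 1 X, 0 ≤ al x m := fun m hm => al_nonneg x hx0 m (mem_Icc.1 hm).1
  have hpos : ∀ T ⊆ P, 0 < ∏ p ∈ T, p := fun T hT => Nat.pos_of_ne_zero
      (prod_ne_zero_iff.2 fun p hp => (hP p (hT hp)).ne_zero)
  -- the condition for a set of primes
  have hcond : ∀ (m : ℕ) (T : Finset ℕ), T ⊆ P →
      ((m.Coprime (∏ p ∈ T, p) ∧ (((∏ p ∈ T, p : ℕ) : ℤ) ∣ F.eval (m : ℤ) + k)) ↔
        ∀ p ∈ T, p ∣ (F.eval (m : ℤ) + k).natAbs ∧ ¬ p ∣ m) := by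
    intro m T hT
    constructor
    · rintro ⟨h1, h2⟩ p hp
      refine ⟨(dvd_prod_of_mem _ hp).trans (Int.natCast_dvd.1 h2), fun h3 => ?_⟩
      have h4 := Nat.dvd_gcd h3 (dvd_prod_of_mem (fun p => p) hp)
      rw [h1] at h4
      exact (hP p (hT hp)).one_lt.ne' (Nat.dvd_one.1 h4)
    · intro h
      constructor
      · apply Nat.Coprime.prod_right
        intro p hp
        exact ((hP p (hT hp)).coprime_iff_not_dvd.2 (h p hp).2).symm
      · apply Int.natCast_dvd.2
        apply Finset.prod_primes_dvd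
        · intro p hp
          exact (hP p (hT hp)).prime
        · intro p hp
          exact (h p hp).1
  -- step 1
  have s1 : ∑ m ∈ Icc 1 X, al x m * ∑ T ∈ P.powerset, c T *
      (if m.Coprime (∏ p ∈ T, p) ∧ (((∏ p ∈ T, p : ℕ) : ℤ) ∣ F.eval (m : ℤ) + k) then 1 else 0) ≤
      TGp F x G k + R' := by
    have e1 : ∀ m ∈ Icc 1 X, al x m * ∑ T ∈ P.powerset, c T *
      (if m.Coprime (∏ p ∈ T, p) ∧ (((∏ p ∈ T, p : ℕ) : ℤ) ∣ F.eval (m : ℤ) + k) then 1 else 0) ≤
        al x m * (if G (F.eval (m : ℤ) + k).natAbs then 1 else 0) +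
        (if ¬ m.Coprime (F.eval 0 + k).natAbs then |al x m| else 0) := by
      intro m hm
      set Q : Finset ℕ := P.filter (fun p => p ∣ (F.eval (m : ℤ) + k).natAbs ∧ ¬ p ∣ m) with hQ
      have hQp : ∀ p ∈ Q, p.Prime := fun p hp => hP p (mem_filter.1 hp).1
      have hmem : ∀ p ∈ P, (p ∣ ∏ q ∈ Q, q ↔ p ∈ Q) := by
        intro p hp
        constructor
        · intro h
          obtain ⟨q, hq, hpq⟩ := ((hP p hp).prime.dvd_finsetProd_iff _).1 h
          rw [(Nat.prime_dvd_prime_iff_eq (hP p hp) (hQp q hq)).1 hpq]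
          exact hq
        · intro h
          exact dvd_prod_of_mem _ h
      have h1 := hN (∏ q ∈ Q, q)
      have h2 : ∑ T ∈ P.powerset, c T *
          (if m.Coprime (∏ p ∈ T, p) ∧ (((∏ p ∈ T, p : ℕ) : ℤ) ∣ F.eval (m : ℤ) + k) then (1 : ℝ)
            else 0) = VV P c (fun p => if p ∣ ∏ q ∈ Q, q then 1 else 0) := by
        unfold VV
        apply sum_congr rfl
        intro T hT
        rw [mem_powerset] at hT
        congr 1
        rw [if_congr (hcond m T hT) rfl rfl]
        by_cases h : ∀ p ∈ T, p ∣ (F.eval (m : ℤ) + k).natAbs ∧ ¬ p ∣ m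
        · rw [if_pos h]
          symm
          apply prod_eq_one
          intro p hp
          rw [if_pos]
          rw [hmem p (hT hp), hQ, mem_filter]
          exact ⟨hT hp, h p hp⟩
        · rw [if_neg h]
          push Not at h
          obtain ⟨p, hp, hp2⟩ := h
          symm
          apply prod_eq_zero hp
          rw [if_neg]
          rw [hmem p (hT hp), hQ, mem_filter]
          rintro ⟨_, h5, h6⟩
          exact h6 (hp2 h5)
      rw [h2]
      have h3 : VV P c (fun p => if p ∣ ∏ q ∈ Q, q then 1 else 0) ≤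
          (if G (F.eval (m : ℤ) + k).natAbs then 1 else 0) +
          (if ¬ m.Coprime (F.eval 0 + k).natAbs then 1 else 0) := by
        refine h1.trans ?_
        by_cases hcop : m.Coprime (F.eval 0 + k).natAbs
        · rw [if_neg (not_not.2 hcop), add_zero]
          have h4 : ∀ p ∈ P, (p ∣ ∏ q ∈ Q, q ↔ p ∣ (F.eval (m : ℤ) + k).natAbs) := by
            intro p hp
            rw [hmem p hp]
            constructor
            · intro h5
              rw [hQ, mem_filter] at h5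
              exact h5.2.1
            · intro hpd
              rw [hQ, mem_filter]
              refine ⟨hp, hpd, fun hpm => ?_⟩
              have h7 : (p : ℤ) ∣ F.eval 0 + k := by
                have h8 : (m : ℤ) - 0 ∣ F.eval (m : ℤ) - F.eval 0 :=
                  Polynomial.sub_dvd_eval_sub _ _ _
                rw [sub_zero] at h8
                have h9 : (p : ℤ) ∣ F.eval (m : ℤ) - F.eval 0 :=
                  (Int.natCast_dvd_natCast.2 hpm).trans h8
                have h10 : (p : ℤ) ∣ F.eval (m : ℤ) + k := Int.natCast_dvd.2 hpd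
                have h11 : F.eval 0 + k = (F.eval (m : ℤ) + k) - (F.eval (m : ℤ) - F.eval 0) := by
                  ring
                rw [h11]
                exact dvd_sub h10 h9
              have h8 := Nat.dvd_gcd hpm (Int.natCast_dvd.1 h7)
              rw [hcop] at h8
              exact (hP p hp).one_lt.ne' (Nat.dvd_one.1 h8)
          have h5 := hG _ _ h4
          by_cases h6 : G (∏ q ∈ Q, q)
          · rw [if_pos h6, if_pos (h5 h6)]
          · rw [if_neg h6]
            split_ifs <;> norm_num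
        · rw [if_pos hcop]
          have h5 : (0 : ℝ) ≤ (if G (F.eval (m : ℤ) + k).natAbs then 1 else 0) := by
            split_ifs <;> norm_num
          have h6 : (if G (∏ q ∈ Q, q) then (1 : ℝ) else 0) ≤ 1 := by
            split_ifs <;> norm_num
          linarith
      calc al x m * VV P c (fun p => if p ∣ ∏ q ∈ Q, q then 1 else 0) ≤
          al x m * ((if G (F.eval (m : ℤ) + k).natAbs then 1 else 0) +
          (if ¬ m.Coprime (F.eval 0 + k).natAbs then 1 else 0)) :=
            mul_le_mul_of_nonneg_left h3 (hal0 m hm)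
        _ = _ := by
            rw [mul_add]
            congr 1
            by_cases h6 : m.Coprime (F.eval 0 + k).natAbs
            · rw [if_neg (not_not.2 h6), if_neg (not_not.2 h6), mul_zero]
            · rw [if_pos h6, if_pos h6, mul_one, abs_of_nonneg (hal0 m hm)]
    refine (sum_le_sum e1).trans ?_
    rw [sum_add_distrib, ← sum_filter]
    unfold TGp
    linarith
  -- step 2: exchange the sums
  have s2 : ∑ m ∈ Icc 1 X, al x m * ∑ T ∈ P.powerset, c T *
      (if m.Coprime (∏ p ∈ T, p) ∧ (((∏ p ∈ T, p : ℕ) : ℤ) ∣ F.eval (m : ℤ) + k) then 1 else 0) =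
      ∑ T ∈ P.powerset, c T * ∑ b ∈ (Icc 1 X).filter (fun b : ℕ => b.Coprime (∏ p ∈ T, p) ∧
        (((∏ p ∈ T, p : ℕ) : ℤ) ∣ F.eval (b : ℤ) + k)), al x b := by
    simp_rw [mul_sum]
    rw [sum_comm]
    apply sum_congr rfl
    intro T _
    rw [sum_filter]
    apply sum_congr rfl
    intro m _
    split_ifs <;> ring
  -- step 3: the main term
  set M := ∑ m ∈ Icc 1 X, al x m with hM
  have s3 : ∀ T ∈ P.powerset, c T * Eg F X (al x) k (∏ p ∈ T, p) +
      M * (c T * ∏ p ∈ T, ((rs F k p : ℝ) / ((p : ℝ) - 1))) -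
        K * R * (if c T ≠ 0 then (KF F : ℝ) ^ T.card / (Nat.totient (∏ p ∈ T, p) : ℝ) else 0) ≤
      c T * ∑ b ∈ (Icc 1 X).filter (fun b : ℕ => b.Coprime (∏ p ∈ T, p) ∧
        (((∏ p ∈ T, p : ℕ) : ℤ) ∣ F.eval (b : ℤ) + k)), al x b := by
    intro T hT
    rw [mem_powerset] at hT
    have hTp : ∀ p ∈ T, p.Prime := fun p hp => hP p (hT hp)
    by_cases hcT : c T = 0
    · rw [hcT]
      simp
    rw [if_pos hcT]
    have hdD := hc T hT hcT
    set d := ∏ p ∈ T, p with hd
    have hd1 : 1 ≤ d := hpos T hT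
    have hφ : (0 : ℝ) < Nat.totient d := by exact_mod_cast Nat.totient_pos.2 hd1
    have hg : ∏ p ∈ T, ((rs F k p : ℝ) / ((p : ℝ) - 1)) = (rs F k d : ℝ) / Nat.totient d := by
      rw [prod_div_distrib, hd, rs_prod hTW F k T hTp, tot_prod T hTp]
      push_cast
      rfl
    have hrs : (rs F k d : ℝ) ≤ (KF F : ℝ) ^ T.card := by
      have := PX.ro_le_pow F hF k T hTp
      rw [← hd] at this
      exact le_trans (by exact_mod_cast rs_le_ro F k d) this
    have e2 : M = ∑ m ∈ (Icc 1 X).filter (fun m => m.Coprime d), al x m +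
          ∑ m ∈ (Icc 1 X).filter (fun m => ¬ m.Coprime d), al x m := by
      rw [hM, sum_filter_add_sum_filter_not]
    have e3 : 0 ≤ ∑ m ∈ (Icc 1 X).filter (fun m => ¬ m.Coprime d), al x m :=
      sum_nonneg fun m hm => hal0 m (mem_filter.1 hm).1
    have e4 : ∑ m ∈ (Icc 1 X).filter (fun m => ¬ m.Coprime d), al x m ≤ R := by
      refine le_trans (sum_le_sum fun m _ => le_abs_self _) (hR d hd1 hdD)
    rw [hg]
    set Q := ∑ m ∈ (Icc 1 X).filter (fun m => ¬ m.Coprime d), al x m with hQ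
    have e1 : ∑ b ∈ (Icc 1 X).filter (fun b : ℕ => b.Coprime d ∧
        ((d : ℤ) ∣ F.eval (b : ℤ) + k)), al x b = Eg F X (al x) k d +
        (rs F k d : ℝ) / (Nat.totient d : ℝ) * (M - Q) := by
      rw [e2]
      unfold Eg
      ring
    have e5 : c T * ((rs F k d : ℝ) / (Nat.totient d : ℝ)) * Q ≤
        K * R * ((KF F : ℝ) ^ T.card / (Nat.totient d : ℝ)) := by
      have e6 : c T ≤ K := (le_abs_self _).trans (hK T)
      calc c T * ((rs F k d : ℝ) / (Nat.totient d : ℝ)) * Q ≤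
          K * ((rs F k d : ℝ) / (Nat.totient d : ℝ)) * Q := by gcongr
        _ ≤ K * ((KF F : ℝ) ^ T.card / (Nat.totient d : ℝ)) * R := by gcongr
        _ = _ := by ring
    have e7 : c T * (Eg F X (al x) k d + (rs F k d : ℝ) / (Nat.totient d : ℝ) * (M - Q)) =
        c T * Eg F X (al x) k d + M * (c T * ((rs F k d : ℝ) / (Nat.totient d : ℝ))) -
        c T * ((rs F k d : ℝ) / (Nat.totient d : ℝ)) * Q := by ring
    rw [e1, e7]
    linarith
  have s6 := sum_le_sum s3
  rw [sum_sub_distrib, sum_add_distrib, ← mul_sum, ← mul_sum] at s6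
  have s7 : ∑ T ∈ P.powerset, (if c T ≠ 0 then (KF F : ℝ) ^ T.card /
      (Nat.totient (∏ p ∈ T, p) : ℝ) else 0) ≤ Sc (KF F) D := by
    have h1 := conv P hP (fun T => if c T ≠ 0 then 1 else 0) D (by
      intro T hT h
      apply hc T hT
      by_contra h2
      simp [h2] at h) (fun d => (KF F : ℝ) ^ d.primeFactors.card / (Nat.totient d : ℝ))
    have h2 : ∑ T ∈ P.powerset, (if c T ≠ 0 then (KF F : ℝ) ^ T.card /
        (Nat.totient (∏ p ∈ T, p) : ℝ) else 0) = ∑ T ∈ P.powerset, (if c T ≠ 0 then (1 : ℝ) else 0) *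
        ((KF F : ℝ) ^ (∏ p ∈ T, p).primeFactors.card / (Nat.totient (∏ p ∈ T, p) : ℝ)) := by
      apply sum_congr rfl
      intro T hT
      rw [mem_powerset] at hT
      rw [Nat.primeFactors_prod (fun p hp => hP p (hT hp))]
      split_ifs <;> simp
    rw [h2, ← h1]
    unfold Sc
    rw [sum_filter]
    apply sum_le_sum
    intro d _
    unfold cN
    by_cases hs : Squarefree d
    · rw [if_pos hs]
      have h3 : 0 ≤ (KF F : ℝ) ^ d.primeFactors.card / (Nat.totient d : ℝ) := by positivity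
      by_cases h4 : Squarefree d ∧ d.primeFactors ⊆ P
      · rw [if_pos h4]
        by_cases h5 : c d.primeFactors ≠ 0
        · simp only [if_pos h5, one_mul, le_refl]
        · simp only [if_neg h5, zero_mul]
          exact h3
      · rw [if_neg h4, zero_mul]
        exact h3
    · rw [if_neg hs, if_neg (fun h => hs h.1), zero_mul]
  have s8 : K * R * ∑ T ∈ P.powerset, (if c T ≠ 0 then (KF F : ℝ) ^ T.card /
      (Nat.totient (∏ p ∈ T, p) : ℝ) else 0) ≤ K * R * Sc (KF F) D :=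
    mul_le_mul_of_nonneg_left s7 (mul_nonneg hK0 hR0)
  rw [s2] at s1
  unfold VV
  linarith

end Pool.Agent.H37AC
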