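import Pool.Agent.Y882.PY.Mer2
import Pool.Agent.H37AC.Cell

/-! Regularity of the numbers of the roots at all the primes below `Y ^ ζ`, `ζ < 1`, with few exceptions (adapted from
`Pool.Agent.Y882.PY.Mer3` and `Pool.Agent.Y882.GP.Mer`). -/

set_option autoImplicit false

namespace Pool.Agent.H37AC

open Finset Polynomial Filter
open Pool.Agent.W23.DC
open Pool.Agent.Y882.PX
open Pool.Agent.Y882.PY

open Classical in
/-- regularity, for all but few constant terms -/
theorem mer_ro3 (a0 b0 : ℤ) (ha0 : a0 ≠ 0) (ε₁ ζ η h ε : ℝ) (hε₁ : 0 < ε₁) (hζ : ζ < 1) (hh : 0 < h)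
    (hh2 : h ≤ 1) (hη : 0 < η) (hε : 0 < ε) (hε8 : ε ≤ 8) : ∃ Y0 : ℕ, ∀ Y : ℕ, Y0 ≤ Y →
    ∀ (c0 : ℤ) (H : ℕ), |c0| ≤ Y → (H : ℝ) ≤ (Y : ℝ) ^ h →
      (((Icc (-(H : ℤ)) H).filter (fun k => ¬ Mer (pr Y ε₁ ζ) (tt Y)
        (fun p => (ro (fq a0 b0 c0) k p : ℝ) / p) ε₁ ζ η)).card : ℝ) ≤ (Y : ℝ) ^ (h / 2 + ε) := by
  rcases lt_or_ge ζ ε₁ with hεζ | hεζ
  · refine ⟨0, fun Y _ c0 H _ _ => ?_⟩
    set F := fq a0 b0 c0 with hF'
    have : (Icc (-(H : ℤ)) H).filter (fun k => ¬ Mer (pr Y ε₁ ζ) (tt Y)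
        (fun p => (ro F k p : ℝ) / p) ε₁ ζ η) = ∅ := by
      rw [filter_eq_empty_iff]
      intro k _ h
      apply h
      intro a b ha hab hb
      exfalso
      linarith
    rw [this]
    simp only [card_empty, Nat.cast_zero]
    positivity
  have hε2 : ε₁ ≤ 1 := hεζ.trans hζ.le
  set K0 : ℕ := max 2 a0.natAbs with hK0
  have hF : ∀ c0 : ℤ, ∀ p : ℕ, p.Prime → ∀ k : ℤ, ro (fq a0 b0 c0) k p ≤ K0 := by
    intro c0 p hp k
    rw [hK0, ← fq_KF a0 b0 c0 ha0]
    exact ro_le _ (by rw [fq_deg a0 b0 c0 ha0]; norm_num) k p hp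
  set K : ℝ := (K0 : ℝ) + 1 with hK
  have hK1 : 1 ≤ K := by
    have : (0 : ℝ) ≤ K0 := Nat.cast_nonneg _
    linarith
  -- the number of the cells
  obtain ⟨J, hJ1, hJ2, hJ3, hJ4⟩ : ∃ J : ℕ, 1 ≤ J ∧ 32 / (ε₁ * ε) ≤ J ∧
      16 * K / (ε₁ * η) ≤ J ∧ 1 / (1 - ζ) ≤ J := by
    obtain ⟨J, hJ⟩ := exists_nat_ge (max (32 / (ε₁ * ε)) (max (16 * K / (ε₁ * η)) (1 / (1 - ζ))))
    have h1 := (le_max_left _ _).trans hJ
    have h2 := ((le_max_left _ _).trans (le_max_right _ _)).trans hJ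
    have h3 := ((le_max_right _ _).trans (le_max_right _ _)).trans hJ
    have h5 : 0 < 1 / (1 - ζ) := div_pos one_pos (by linarith)
    have h4 : (0 : ℝ) < J := h5.trans_le h3
    have h6 : 0 < J := by exact_mod_cast h4
    exact ⟨J, by omega, h1, h2, h3⟩
  have hJ0 : (0 : ℝ) < J := by exact_mod_cast hJ1
  set δ : ℝ := 1 / J with hδ
  have hδ0 : 0 < δ := by positivity
  have hδa : δ ≤ ε₁ * (ε / 2) / 16 := by
    rw [hδ, div_le_iff₀ hJ0]
    rw [div_le_iff₀ (by positivity)] at hJ2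
    linarith
  have hδb : K * (δ / ε₁) ≤ η / 16 := by
    have h1 : K * (δ / ε₁) = K / (ε₁ * J) := by rw [hδ]; field_simp
    rw [h1, div_le_iff₀ (by positivity)]
    rw [div_le_iff₀ (by positivity)] at hJ3
    linarith
  have hδc : δ ≤ 1 - ζ := by
    rw [hδ, div_le_iff₀ hJ0]
    rw [div_le_iff₀ (by linarith)] at hJ4
    linarith
  have hJδ : (J : ℝ) * δ = 1 := by rw [hδ]; field_simp
  -- the cells
  have hcell : ∀ i : ℕ, ∃ Y0 : ℕ, ∀ Y : ℕ, Y0 ≤ Y → ∀ (c0 : ℤ) (H : ℕ),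
      |c0| ≤ Y → (H : ℝ) ≤ (Y : ℝ) ^ h → ε₁ + i * δ ≤ ζ →
      (((Icc (-(H : ℤ)) H).filter (fun k => η / (16 * J) <
        |∑ p ∈ pr Y (ε₁ + i * δ) (ε₁ + i * δ + δ), gd (fq a0 b0 c0) k p|)).card : ℝ) ≤
        (Y : ℝ) ^ (h / 2 + ε / 2) := by
    intro i
    by_cases h' : ε₁ + i * δ ≤ ζ
    · have h0 : (0 : ℝ) ≤ i * δ := by positivity
      obtain ⟨Y0, HY0⟩ := cell_hb a0 b0 ha0 (ε₁ + i * δ) δ (η / (16 * J)) h (ε / 2) (by linarith)
        (by linarith) hh hh2 hδ0 (hδa.trans (by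
          apply div_le_div_of_nonneg_right _ (by norm_num)
          apply mul_le_mul_of_nonneg_right _ (by linarith)
          linarith)) (by linarith) (by positivity) (by linarith) (by linarith)
      exact ⟨Y0, fun Y hY c0 H hc hH _ => HY0 Y hY c0 H hc hH⟩
    · exact ⟨0, fun Y _ c0 H _ _ h'' => absurd h'' h'⟩
  choose Y0 HY0 using hcell
  set η' : ℝ := η / (16 * K) with hη'
  have hη'0 : 0 < η' := by positivity
  obtain ⟨N0, HM⟩ := Pool.Agent.W378.DC.MP ε₁ η' hε₁ hη'0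
  have ev1 : ∀ᶠ Y : ℕ in atTop, (J : ℝ) ≤ (Y : ℝ) ^ (ε / 2) :=
    tendsto_natCast_atTop_atTop.eventually
      ((tendsto_rpow_atTop (by linarith)).eventually_ge_atTop _)
  have ev2 : ∀ᶠ Y : ℕ in atTop, (Real.log (1 / ε₁) + η') / (η / 8) ≤ (Y : ℝ) ^ ε₁ :=
    tendsto_natCast_atTop_atTop.eventually ((tendsto_rpow_atTop hε₁).eventually_ge_atTop _)
  obtain ⟨N1, hN1⟩ := eventually_atTop.1 (ev1.and (ev2.and (eventually_ge_atTop 2)))
  refine ⟨max (max N0 N1) ((range J).sup Y0), fun Y hY c0 H hcY hHY => ?_⟩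
  set F := fq a0 b0 c0 with hF'
  obtain ⟨e1, e2, e3⟩ := hN1 Y (((le_max_right _ _).trans (le_max_left _ _)).trans hY)
  have hYN0 : N0 ≤ Y := ((le_max_left _ _).trans (le_max_left _ _)).trans hY
  have hYr : (2 : ℝ) ≤ Y := by exact_mod_cast e3
  have hY1 : (1 : ℝ) ≤ Y := by linarith
  have hY0 : (0 : ℝ) < Y := by linarith
  set A : ℕ → Finset ℤ := fun i => if ε₁ + i * δ ≤ ζ then (Icc (-(H : ℤ)) H).filter
    (fun k => η / (16 * J) < |∑ p ∈ pr Y (ε₁ + i * δ) (ε₁ + i * δ + δ), gd F k p|) else ∅ with hA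
  have hAc : ∀ i ∈ range J, ((A i).card : ℝ) ≤ (Y : ℝ) ^ (h / 2 + ε / 2) := by
    intro i hi
    simp only [hA]
    split_ifs with h'
    · apply HY0 i Y _ c0 H hcY hHY h'
      exact ((Finset.le_sup hi).trans (le_max_right _ _)).trans hY
    · simp only [card_empty, Nat.cast_zero]
      positivity
  have hsub : (Icc (-(H : ℤ)) H).filter (fun k => ¬ Mer (pr Y ε₁ ζ) (tt Y)
      (fun p => (ro F k p : ℝ) / p) ε₁ ζ η) ⊆ (range J).biUnion A := by
    intro k hk
    rw [mem_filter] at hk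
    by_contra hcon
    apply hk.2
    have hgood : ∀ i ∈ range J, ε₁ + i * δ ≤ ζ →
        |∑ p ∈ pr Y (ε₁ + i * δ) (ε₁ + i * δ + δ), gd F k p| ≤ η / (16 * J) := by
      intro i hi hi2
      by_contra h
      push Not at h
      apply hcon
      rw [mem_biUnion]
      refine ⟨i, hi, ?_⟩
      simp only [hA]
      rw [if_pos hi2, mem_filter]
      exact ⟨hk.1, h⟩
    -- partial sums
    have hS : ∀ x : ℝ, ε₁ ≤ x → x ≤ ζ → |∑ p ∈ pr Y ε₁ x, gd F k p| ≤ 3 * η / 16 := by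
      intro x hx1 hx2
      set j : ℕ := ⌊(x - ε₁) / δ⌋₊ with hj
      have hj1 : (j : ℝ) * δ ≤ x - ε₁ := by
        rw [← le_div_iff₀ hδ0]
        exact Nat.floor_le (div_nonneg (by linarith) hδ0.le)
      have hj2 : x - ε₁ < ((j : ℝ) + 1) * δ := by
        rw [← div_lt_iff₀ hδ0]
        exact Nat.lt_floor_add_one _
      have hjJ : j ≤ J := by
        have h1 : (j : ℝ) * δ ≤ J * δ := by linarith
        exact_mod_cast le_of_mul_le_mul_right h1 hδ0
      have hj0 : (0 : ℝ) ≤ j * δ := by positivity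
      rw [pr_split Y ε₁ (ε₁ + j * δ) x (by linarith) (by linarith), cells_sum Y ε₁ δ hδ0.le]
      have h1 : |∑ i ∈ range j, ∑ p ∈ pr Y (ε₁ + i * δ) (ε₁ + i * δ + δ), gd F k p| ≤ η / 16 := by
        calc |∑ i ∈ range j, ∑ p ∈ pr Y (ε₁ + i * δ) (ε₁ + i * δ + δ), gd F k p|
            ≤ ∑ i ∈ range j, |∑ p ∈ pr Y (ε₁ + i * δ) (ε₁ + i * δ + δ), gd F k p| :=
              abs_sum_le_sum_abs _ _
          _ ≤ ∑ i ∈ range j, η / (16 * J) := by
              apply sum_le_sum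
              intro i hi
              rw [mem_range] at hi
              have hi2 : (i : ℝ) * δ ≤ j * δ := by
                apply mul_le_mul_of_nonneg_right _ hδ0.le
                exact_mod_cast hi.le
              exact hgood i (mem_range.2 (by omega)) (by linarith)
          _ = j * (η / (16 * J)) := by rw [sum_const, card_range, nsmul_eq_mul]
          _ ≤ J * (η / (16 * J)) := by
              apply mul_le_mul_of_nonneg_right _ (by positivity)
              exact_mod_cast hjJ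
          _ = η / 16 := by field_simp
      have h2 : |∑ p ∈ pr Y (ε₁ + j * δ) x, gd F k p| ≤ η / 8 := by
        have hM := HM Y hYN0 (ε₁ + j * δ) x (by linarith) (by linarith) (by linarith)
        rw [abs_le] at hM
        have h3 : Real.log (x / (ε₁ + j * δ)) ≤ δ / ε₁ := by
          have h4 : 0 < ε₁ + j * δ := by linarith
          have h5 : 0 < x / (ε₁ + j * δ) := div_pos (by linarith) h4
          refine (Real.log_le_sub_one_of_pos h5).trans ?_
          rw [div_sub_one h4.ne', div_le_div_iff₀ h4 hε₁]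
          have h6 : x - (ε₁ + j * δ) ≤ δ := by linarith
          calc (x - (ε₁ + j * δ)) * ε₁ ≤ δ * ε₁ := mul_le_mul_of_nonneg_right h6 hε₁.le
            _ ≤ δ * (ε₁ + j * δ) := mul_le_mul_of_nonneg_left (by linarith) hδ0.le
        calc |∑ p ∈ pr Y (ε₁ + j * δ) x, gd F k p| ≤ ∑ p ∈ pr Y (ε₁ + j * δ) x, |gd F k p| :=
              abs_sum_le_sum_abs _ _
          _ ≤ ∑ p ∈ pr Y (ε₁ + j * δ) x, K * (1 / ((p : ℝ) - 1)) :=
              sum_le_sum fun p hp => gd_abs2 F K0 k p (pr_mem Y p _ _ e3 hp).1 (hF c0 p (pr_mem Y p _ _ e3 hp).1 k)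
          _ = K * ∑ p ∈ pr Y (ε₁ + j * δ) x, (1 / ((p : ℝ) - 1)) := by rw [mul_sum]
          _ ≤ K * (δ / ε₁ + η') := by
              apply mul_le_mul_of_nonneg_left _ (by linarith)
              linarith [hM.2]
          _ = K * (δ / ε₁) + η / 16 := by rw [hη']; field_simp
          _ ≤ η / 8 := by linarith
      refine (abs_add_le _ _).trans ?_
      linarith
    intro a b ha hab hb
    have hset : (pr Y ε₁ ζ).filter (fun p => a ≤ tt Y p ∧ tt Y p < b) = pr Y a b := by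
      unfold pr
      rw [filter_filter]
      apply filter_congr
      intro p _
      constructor
      · rintro ⟨⟨h6, h7, h8⟩, h9, h10⟩
        exact ⟨h6, h9, h10⟩
      · rintro ⟨h6, h9, h10⟩
        exact ⟨⟨h6, ha.trans h9, h10.trans_le hb⟩, h9, h10⟩
    rw [hset]
    have h1 : |∑ p ∈ pr Y a b, gd F k p| ≤ 3 * η / 8 := by
      have h2 := pr_split Y ε₁ a b ha hab (gd F k)
      have h3 := hS b (ha.trans hab) hb
      have h4 := hS a ha (hab.trans hb)
      have h5 : ∑ p ∈ pr Y a b, gd F k p =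
          ∑ p ∈ pr Y ε₁ b, gd F k p - ∑ p ∈ pr Y ε₁ a, gd F k p := by linarith
      rw [h5]
      refine (abs_sub _ _).trans ?_
      linarith
    have hM := HM Y hYN0 a b ha hab (by linarith)
    have h6 : ∑ p ∈ pr Y a b, (ro F k p : ℝ) / p = ∑ p ∈ pr Y a b, gd F k p +
        ∑ p ∈ pr Y a b, 1 / ((p : ℝ) - 1) -
        ∑ p ∈ pr Y a b, (1 / ((p : ℝ) - 1) - 1 / p) := by
      rw [← sum_add_distrib, ← sum_sub_distrib]
      apply sum_congr rfl
      intro p _
      unfold gd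
      rw [sub_div]
      ring
    have hYε : (0 : ℝ) < (Y : ℝ) ^ ε₁ := by positivity
    have h7 : 0 ≤ ∑ p ∈ pr Y a b, (1 / ((p : ℝ) - 1) - 1 / p) := by
      apply sum_nonneg
      intro p hp
      have h8 : (2 : ℝ) ≤ p := by exact_mod_cast (pr_mem Y p _ _ e3 hp).1.two_le
      have := one_div_le_one_div_of_le (show (0 : ℝ) < p - 1 by linarith)
        (show (p : ℝ) - 1 ≤ p by linarith)
      linarith
    have h8 : ∑ p ∈ pr Y a b, (1 / ((p : ℝ) - 1) - 1 / p) ≤ η / 8 := by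
      have h9 : ∑ p ∈ pr Y a b, (1 / ((p : ℝ) - 1) - 1 / p) ≤
          1 / (Y : ℝ) ^ ε₁ * ∑ p ∈ pr Y a b, 1 / ((p : ℝ) - 1) := by
        rw [mul_sum]
        apply sum_le_sum
        intro p hp
        have h10 : (2 : ℝ) ≤ p := by exact_mod_cast (pr_mem Y p _ _ e3 hp).1.two_le
        have h11 : (Y : ℝ) ^ ε₁ ≤ p :=
          (Real.rpow_le_rpow_of_exponent_le hY1 ha).trans (pr_mem Y p _ _ e3 hp).2.1
        have h12 : 1 / ((p : ℝ) - 1) - 1 / p = 1 / p * (1 / ((p : ℝ) - 1)) := by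
          have : (p : ℝ) - 1 ≠ 0 := by linarith
          have : (p : ℝ) ≠ 0 := by linarith
          field_simp
          ring
        rw [h12]
        apply mul_le_mul_of_nonneg_right _ (by
          have : 0 < (p : ℝ) - 1 := by linarith
          positivity)
        exact one_div_le_one_div_of_le hYε h11
      have h10 : ∑ p ∈ pr Y a b, 1 / ((p : ℝ) - 1) ≤ Real.log (1 / ε₁) + η' := by
        rw [abs_le] at hM
        have h11 : Real.log (b / a) ≤ Real.log (1 / ε₁) := by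
          apply Real.log_le_log (div_pos (by linarith) (by linarith))
          apply div_le_div₀ (by norm_num) (by linarith) hε₁ ha
        linarith [hM.2]
      have h11 : 1 / (Y : ℝ) ^ ε₁ * ∑ p ∈ pr Y a b, 1 / ((p : ℝ) - 1) ≤
          1 / (Y : ℝ) ^ ε₁ * (Real.log (1 / ε₁) + η') :=
        mul_le_mul_of_nonneg_left h10 (by positivity)
      have h12 : 1 / (Y : ℝ) ^ ε₁ * (Real.log (1 / ε₁) + η') ≤ η / 8 := by
        rw [div_le_iff₀ (by positivity)] at e2
        rw [one_div, inv_mul_le_iff₀ hYε]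
        exact e2
      linarith
    have hη'2 : η' ≤ η / 16 := by
      rw [hη']
      apply div_le_div_of_nonneg_left hη.le (by norm_num)
      linarith
    rw [h6]
    rw [abs_le] at h1 hM ⊢
    constructor <;> linarith [h1.1, h1.2, hM.1, hM.2]
  calc (((Icc (-(H : ℤ)) H).filter (fun k => ¬ Mer (pr Y ε₁ ζ) (tt Y)
      (fun p => (ro F k p : ℝ) / p) ε₁ ζ η)).card : ℝ) ≤ (((range J).biUnion A).card : ℝ) := by
        exact_mod_cast card_le_card hsub
    _ ≤ ∑ i ∈ range J, ((A i).card : ℝ) := by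
        exact_mod_cast card_biUnion_le
    _ ≤ ∑ i ∈ range J, (Y : ℝ) ^ (h / 2 + ε / 2) := sum_le_sum hAc
    _ = J * (Y : ℝ) ^ (h / 2 + ε / 2) := by rw [sum_const, card_range, nsmul_eq_mul]
    _ ≤ (Y : ℝ) ^ (ε / 2) * (Y : ℝ) ^ (h / 2 + ε / 2) :=
        mul_le_mul_of_nonneg_right e1 (by positivity)
    _ = (Y : ℝ) ^ (h / 2 + ε) := by
        rw [← Real.rpow_add hY0]
        congr 1
        ring

open Pool.Agent.Y882
open Pool.Agent.Y882.GP

open Classical in
theorem mer_rs3 (a0 b0 : ℤ) (ha0 : a0 ≠ 0) (ε₁ ζ η h ε : ℝ) (hε₁ : 0 < ε₁) (hζ : ζ < 1) (hh : 0 < h)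
    (hh2 : h ≤ 1) (hη : 0 < η) (hε : 0 < ε) (hε8 : ε ≤ 8) : ∃ Y0 : ℕ, ∀ Y : ℕ, Y0 ≤ Y →
    ∀ (c0 : ℤ) (H : ℕ), |c0| ≤ Y → (H : ℝ) ≤ (Y : ℝ) ^ h →
      (((Icc (-(H : ℤ)) H).filter (fun k => c0 + k ≠ 0 ∧ ¬ Mer (pr Y ε₁ ζ) (tt Y)
        (fun p => (rs (fq a0 b0 c0) k p : ℝ) / ((p : ℝ) - 1)) ε₁ ζ η)).card : ℝ) ≤
        (Y : ℝ) ^ (h / 2 + ε) := by
  obtain ⟨Y1, H1⟩ := mer_ro3 a0 b0 ha0 ε₁ ζ (η / 2) h ε hε₁ hζ hh hh2 (by linarith) hε hε8
  set K0 : ℕ := max 2 a0.natAbs with hK0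
  have ev1 : ∀ᶠ Y : ℕ in atTop, (2 * K0 + 8) * (1 + Real.log Y) ≤ η / 2 * (Y : ℝ) ^ ε₁ := by
    have h1 : Tendsto (fun x : ℝ => Real.log x / x ^ ε₁) atTop (nhds 0) := by
      have := isLittleO_log_rpow_atTop hε₁
      exact this.tendsto_div_nhds_zero
    have h2 := h1.eventually_le_const
      (show (0 : ℝ) < η / (4 * (2 * K0 + 8)) by positivity)
    have h3 := (tendsto_rpow_atTop hε₁).eventually_ge_atTop (4 * (2 * K0 + 8) / η)
    have h4 := tendsto_natCast_atTop_atTop.eventually (h2.and (h3.and (eventually_gt_atTop (0 : ℝ))))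
    filter_upwards [h4] with Y hY
    obtain ⟨h5, h6, h7⟩ := hY
    have h8 : (0 : ℝ) < (Y : ℝ) ^ ε₁ := by positivity
    rw [div_le_div_iff₀ h8 (by positivity)] at h5
    rw [div_le_iff₀ hη] at h6
    nlinarith
  obtain ⟨Y2, H2⟩ := eventually_atTop.1 (ev1.and (eventually_ge_atTop 3))
  refine ⟨max Y1 Y2, fun Y hY c0 H hcY hHY => ?_⟩
  set F := fq a0 b0 c0 with hF'
  have hF : 1 ≤ F.natDegree := by rw [hF', fq_deg a0 b0 c0 ha0]; norm_num
  have hKF : KF F = K0 := by rw [hF', fq_KF a0 b0 c0 ha0]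
  have hF0 : F.eval 0 = c0 := by rw [hF', fq_eval]; ring
  obtain ⟨e1, e2⟩ := H2 Y ((le_max_right _ _).trans hY)
  refine le_trans ?_ (H1 Y ((le_max_left _ _).trans hY) c0 H hcY hHY)
  have hY2 : 2 ≤ Y := by omega
  have hYr : (3 : ℝ) ≤ Y := by
    have : 3 ≤ Y := by omega
    exact_mod_cast this
  have hY0 : (0 : ℝ) < Y := by linarith
  have hl1 : 0 ≤ Real.log Y := Real.log_natCast_nonneg Y
  apply Nat.cast_le.2
  apply card_le_card
  intro k hk
  rw [mem_filter] at hk ⊢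
  obtain ⟨hk1, hk0, hk2⟩ := hk
  rw [← hF0] at hk0
  refine ⟨hk1, fun hM => hk2 ?_⟩
  intro a b ha hab hb
  have h1 := hM a b ha hab hb
  set Q := (pr Y ε₁ ζ).filter (fun p => a ≤ tt Y p ∧ tt Y p < b) with hQ
  have hQp : ∀ p ∈ Q, p.Prime ∧ p ≤ Y ∧ (Y : ℝ) ^ ε₁ ≤ p := by
    intro p hp
    have := PX.pr_mem Y p ε₁ ζ hY2 (mem_filter.1 hp).1
    refine ⟨this.1, ?_, this.2.1⟩
    have h9 := (mem_filter.1 hp).1
    unfold pr at h9
    exact (mem_Icc.1 (mem_filter.1 h9).1).2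
  have hdiff : |∑ p ∈ Q, (rs F k p : ℝ) / ((p : ℝ) - 1) - ∑ p ∈ Q, (ro F k p : ℝ) / p| ≤ η / 2 := by
    rw [← sum_sub_distrib]
    refine (abs_sum_le_sum_abs _ _).trans ?_
    refine (sum_le_sum fun p hp => diff_abs F hF k p (hQp p hp).1).trans ?_
    rw [sum_add_distrib, hKF]
    have hYε : (0 : ℝ) < (Y : ℝ) ^ ε₁ := by positivity
    have b1 : ∑ p ∈ Q, (K0 : ℝ) / ((p : ℝ) * ((p : ℝ) - 1)) ≤
        2 * K0 * (1 + Real.log Y) / (Y : ℝ) ^ ε₁ := by
      calc ∑ p ∈ Q, (K0 : ℝ) / ((p : ℝ) * ((p : ℝ) - 1)) ≤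
          ∑ p ∈ Q, (2 * K0 / (Y : ℝ) ^ ε₁) * (1 / (p : ℝ)) := by
            apply sum_le_sum
            intro p hp
            obtain ⟨h3, h4, h5⟩ := hQp p hp
            have hp2 : (2 : ℝ) ≤ p := by exact_mod_cast h3.two_le
            rw [div_mul_div_comm, mul_one, div_le_div_iff₀ (by nlinarith) (by positivity)]
            have h6 : (Y : ℝ) ^ ε₁ ≤ 2 * ((p : ℝ) - 1) := by linarith
            have h7 : (0 : ℝ) ≤ K0 * p := by positivity
            nlinarith [mul_le_mul_of_nonneg_left h6 h7]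
        _ = (2 * K0 / (Y : ℝ) ^ ε₁) * ∑ p ∈ Q, 1 / (p : ℝ) := by rw [mul_sum]
        _ ≤ (2 * K0 / (Y : ℝ) ^ ε₁) * (1 + Real.log Y) := by
            apply mul_le_mul_of_nonneg_left _ (by positivity)
            have h3 := harmonic_le_one_add_log Y
            rw [harmonic_eq_sum_Icc] at h3
            push_cast at h3
            refine le_trans ?_ h3
            simp_rw [one_div]
            apply sum_le_sum_of_subset_of_nonneg
            · intro p hp
              rw [mem_Icc]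
              exact ⟨(hQp p hp).1.one_le, (hQp p hp).2.1⟩
            · intro _ _ _
              positivity
        _ = _ := by ring
    have b2 : ∑ p ∈ Q, (if p ∣ (F.eval 0 + k).natAbs then 1 / ((p : ℝ) - 1) else 0) ≤
        8 * (1 + Real.log Y) / (Y : ℝ) ^ ε₁ := by
      rw [← sum_filter]
      have hm0 : (F.eval 0 + k).natAbs ≠ 0 := Int.natAbs_ne_zero.2 hk0
      calc ∑ p ∈ Q.filter (fun p => p ∣ (F.eval 0 + k).natAbs), 1 / ((p : ℝ) - 1) ≤
          ∑ p ∈ Q.filter (fun p => p ∣ (F.eval 0 + k).natAbs), 2 / (Y : ℝ) ^ ε₁ := by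
            apply sum_le_sum
            intro p hp
            obtain ⟨h3, h4, h5⟩ := hQp p (mem_filter.1 hp).1
            have hp2 : (2 : ℝ) ≤ p := by exact_mod_cast h3.two_le
            rw [div_le_div_iff₀ (by linarith) hYε]
            linarith
        _ = ((Q.filter (fun p => p ∣ (F.eval 0 + k).natAbs)).card : ℝ) * (2 / (Y : ℝ) ^ ε₁) := by
            rw [sum_const, nsmul_eq_mul]
        _ ≤ (4 * (1 + Real.log Y)) * (2 / (Y : ℝ) ^ ε₁) := by
            apply mul_le_mul_of_nonneg_right _ (by positivity)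
            have h3 : (Q.filter (fun p => p ∣ (F.eval 0 + k).natAbs)).card ≤
                (F.eval 0 + k).natAbs.primeFactors.card := by
              apply card_le_card
              intro p hp
              rw [mem_filter] at hp
              rw [Nat.mem_primeFactors]
              exact ⟨(hQp p hp.1).1, hp.2, hm0⟩
            have h4 := Pool.Agent.H732R2.B2.omega_log _ hm0
            have h5 : Real.log ((F.eval 0 + k).natAbs : ℝ) ≤ 2 * Real.log Y := by
              have h6 : (F.eval 0 + k).natAbs ≤ Y ^ 2 := by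
                have h7 : (F.eval 0 + k).natAbs ≤ (F.eval 0).natAbs + k.natAbs :=
                  Int.natAbs_add_le _ _
                have h8 : k.natAbs ≤ Y := by
                  rw [mem_Icc] at hk1
                  have h8' : H ≤ Y := by
                    have h4' : (Y : ℝ) ^ h ≤ Y := by
                      calc (Y : ℝ) ^ h ≤ (Y : ℝ) ^ (1 : ℝ) :=
                            Real.rpow_le_rpow_of_exponent_le (by linarith) hh2
                        _ = Y := Real.rpow_one _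
                    exact_mod_cast hHY.trans h4'
                  omega
                have h8'' : (F.eval 0).natAbs ≤ Y := by
                  rw [hF0]
                  have := (abs_le.1 hcY)
                  omega
                have h9 : 2 * Y ≤ Y ^ 2 := by nlinarith
                omega
              have h10 := Real.log_le_log (show (0 : ℝ) < ((F.eval 0 + k).natAbs : ℝ) by
                exact_mod_cast Nat.pos_of_ne_zero hm0)
                (show (((F.eval 0 + k).natAbs : ℕ) : ℝ) ≤ (Y : ℝ) ^ 2 by exact_mod_cast h6)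
              rw [Real.log_pow] at h10
              push_cast at h10
              exact h10
            have h6 : ((Q.filter (fun p => p ∣ (F.eval 0 + k).natAbs)).card : ℝ) ≤
                ((F.eval 0 + k).natAbs.primeFactors.card : ℝ) := by exact_mod_cast h3
            linarith
        _ = _ := by ring
    have b3 : 2 * K0 * (1 + Real.log Y) / (Y : ℝ) ^ ε₁ + 8 * (1 + Real.log Y) / (Y : ℝ) ^ ε₁ ≤
        η / 2 := by
      rw [← add_div, div_le_iff₀ hYε]
      linarith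
    linarith
  have h2 : |∑ p ∈ Q, (rs F k p : ℝ) / ((p : ℝ) - 1) - Real.log (b / a)| ≤
      |∑ p ∈ Q, (rs F k p : ℝ) / ((p : ℝ) - 1) - ∑ p ∈ Q, (ro F k p : ℝ) / p| +
      |∑ p ∈ Q, (ro F k p : ℝ) / p - Real.log (b / a)| := by
    have : ∑ p ∈ Q, (rs F k p : ℝ) / ((p : ℝ) - 1) - Real.log (b / a) =
      (∑ p ∈ Q, (rs F k p : ℝ) / ((p : ℝ) - 1) - ∑ p ∈ Q, (ro F k p : ℝ) / p) +
      (∑ p ∈ Q, (ro F k p : ℝ) / p - Real.log (b / a)) := by ring
    rw [this]
    exact abs_add_le _ _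
  simp only at h1 ⊢
  linarith

end Pool.Agent.H37AC
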