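import Pool.Agent.H37AC.Cell

/-! Few constant terms for which many values of a quadratic polynomial are divisible by the square of a medium prime. -/

set_option autoImplicit false

namespace Pool.Agent.H37AC

open Finset Polynomial Filter
open Pool.Agent.W23.DC
open Pool.Agent.Y882.PX

theorem diff_count (X d : ℕ) (_ : 1 ≤ d) (S : Finset ℕ) (hS : S ⊆ Icc 1 X)
    (h : ∀ m ∈ S, ∀ m' ∈ S, (d : ℤ) ∣ (m : ℤ) - m') : (S.card : ℝ) ≤ (X : ℝ) / d + 1 := by
  have h1 : S.card ≤ X / d + 1 := by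
    rw [← card_range (X / d + 1)]
    apply card_le_card_of_injOn (fun m => m / d)
    · intro m hm
      rw [mem_coe, mem_range]
      have := (mem_Icc.1 (hS hm)).2
      exact Nat.lt_succ_of_le (Nat.div_le_div_right this)
    · intro m hm m' hm' hmm
      have h2 := h m hm m' hm'
      have h3 : (m : ℤ) ≡ m' [ZMOD d] := (Int.modEq_iff_dvd.2 (by
        have := dvd_neg.2 h2
        rwa [neg_sub] at this))
      have h4 : m % d = m' % d := by
        have h5 : m ≡ m' [MOD d] := (Int.natCast_modEq_iff).1 h3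
        exact h5
      have h5 := Nat.div_add_mod m d
      have h6 := Nat.div_add_mod m' d
      simp only at hmm
      rw [← h5, ← h6, hmm, h4]
  have h2 : (S.card : ℝ) ≤ ((X / d + 1 : ℕ) : ℝ) := by exact_mod_cast h1
  refine h2.trans ?_
  push_cast
  have := @Nat.cast_div_le ℝ _ _ _ X d
  linarith

theorem close_count' {S : Finset ℕ} (B : ℝ) (hB0 : 0 ≤ B)
    (hB : ∀ m ∈ S, ∀ m' ∈ S, m ≤ m' → (m' : ℝ) - m ≤ B) : (S.card : ℝ) ≤ B + 1 := by
  rcases S.eq_empty_or_nonempty with h0 | h0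
  · rw [h0]
    simp only [card_empty, Nat.cast_zero]
    linarith
  have hle : S.min' h0 ≤ S.max' h0 := S.min'_le_max' h0
  have hsub : S ⊆ Icc (S.min' h0) (S.max' h0) := by
    intro t ht
    rw [mem_Icc]
    exact ⟨S.min'_le t ht, S.le_max' t ht⟩
  have h2 := card_le_card hsub
  rw [Nat.card_Icc] at h2
  have h3 : S.card ≤ (S.max' h0 - S.min' h0) + 1 := by omega
  have h4 : (S.card : ℝ) ≤ (((S.max' h0 - S.min' h0) + 1 : ℕ) : ℝ) := by exact_mod_cast h3
  rw [Nat.cast_add, Nat.cast_sub hle, Nat.cast_one] at h4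
  have := hB _ (S.min'_mem h0) _ (S.max'_mem h0) hle
  linarith

theorem disc_id (a b c k m : ℤ) : (2 * a * m + b) ^ 2 =
    4 * a * ((fq a b c).eval m + k) + (b ^ 2 - 4 * a * (c + k)) := by
  rw [fq_eval]
  ring

theorem diff_id (a b c k m m' : ℤ) : ((fq a b c).eval m + k) - ((fq a b c).eval m' + k) =
    (m - m') * (a * (m + m') + b) := by
  rw [fq_eval, fq_eval]
  ring

/-- the values divisible by `q ^ 2`, if `q` does not divide the discriminant -/
theorem sq_count (a b c k : ℤ) (q : ℕ) (hq : q.Prime) (hq2 : ¬ (q : ℤ) ∣ 2 * a)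
    (hqD : ¬ (q : ℤ) ∣ b ^ 2 - 4 * a * (c + k)) (X : ℕ) (S : Finset ℕ) (hS : S ⊆ Icc 1 X)
    (h : ∀ m ∈ S, ((q : ℤ) ^ 2) ∣ (fq a b c).eval (m : ℤ) + k) :
    (S.card : ℝ) ≤ 2 * ((X : ℝ) / (q : ℝ) ^ 2 + 1) := by
  classical
  have hqi := Nat.prime_iff_prime_int.1 hq
  have hq1 : 1 ≤ q ^ 2 := Nat.one_le_pow _ _ hq.pos
  have hqa : ¬ (q : ℤ) ∣ a := fun h1 => hq2 (h1.mul_left 2)
  rcases S.eq_empty_or_nonempty with h0 | ⟨m0, hm0⟩
  · rw [h0]
    simp only [card_empty, Nat.cast_zero]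
    positivity
  have hcop : IsCoprime ((q : ℤ) ^ 2) a := by
    apply IsCoprime.pow_left
    exact (Prime.coprime_iff_not_dvd hqi).2 hqa
  set S1 := S.filter (fun m : ℕ => ((q : ℤ) ^ 2) ∣ (m : ℤ) - m0) with hS1
  set S2 := S.filter (fun m : ℕ => ((q : ℤ) ^ 2) ∣ a * ((m : ℤ) + m0) + b) with hS2
  have hsub : S ⊆ S1 ∪ S2 := by
    intro m hm
    rw [mem_union, hS1, hS2, mem_filter, mem_filter]
    have h1 : ((q : ℤ) ^ 2) ∣ ((m : ℤ) - m0) * (a * ((m : ℤ) + m0) + b) := by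
      rw [← diff_id a b c k]
      exact dvd_sub (h m hm) (h m0 hm0)
    by_cases h2 : (q : ℤ) ∣ (m : ℤ) - m0
    · -- then `q` does not divide the other factor
      have h3 : ¬ (q : ℤ) ∣ a * ((m : ℤ) + m0) + b := by
        intro h4
        apply hqD
        have h5 : (q : ℤ) ∣ 2 * a * m + b := by
          have e : 2 * a * m + b = (a * ((m : ℤ) + m0) + b) + a * ((m : ℤ) - m0) := by ring
          rw [e]
          exact dvd_add h4 (h2.mul_left a)
        have h6 : (q : ℤ) ∣ (2 * a * m + b) ^ 2 := h5.trans (dvd_pow_self _ two_ne_zero)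
        rw [disc_id a b c k] at h6
        have h7 : (q : ℤ) ∣ 4 * a * ((fq a b c).eval (m : ℤ) + k) :=
          ((dvd_pow_self _ two_ne_zero).trans (h m hm)).mul_left _
        exact (dvd_add_right h7).1 h6
      left
      refine ⟨hm, ?_⟩
      have h4 : IsCoprime ((q : ℤ) ^ 2) (a * ((m : ℤ) + m0) + b) := by
        apply IsCoprime.pow_left
        exact (Prime.coprime_iff_not_dvd hqi).2 h3
      exact h4.dvd_of_dvd_mul_right h1
    · right
      refine ⟨hm, ?_⟩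
      have h4 : IsCoprime ((q : ℤ) ^ 2) ((m : ℤ) - m0) := by
        apply IsCoprime.pow_left
        exact (Prime.coprime_iff_not_dvd hqi).2 h2
      exact h4.dvd_of_dvd_mul_left h1
  have hc1 := diff_count X (q ^ 2) hq1 S1 ((filter_subset _ _).trans hS) (by
    intro m hm m' hm'
    rw [hS1, mem_filter] at hm hm'
    push_cast
    have e : (m : ℤ) - m' = (m - m0) - (m' - m0) := by ring
    rw [e]
    exact dvd_sub hm.2 hm'.2)
  have hc2 := diff_count X (q ^ 2) hq1 S2 ((filter_subset _ _).trans hS) (by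
    intro m hm m' hm'
    rw [hS2, mem_filter] at hm hm'
    push_cast
    have e : a * ((m : ℤ) - m') = (a * ((m : ℤ) + m0) + b) - (a * ((m' : ℤ) + m0) + b) := by ring
    have h3 : ((q : ℤ) ^ 2) ∣ a * ((m : ℤ) - m') := by
      rw [e]
      exact dvd_sub hm.2 hm'.2
    exact hcop.dvd_of_dvd_mul_left h3)
  have h1 : (S.card : ℝ) ≤ S1.card + S2.card := by
    exact_mod_cast (card_le_card hsub).trans (card_union_le _ _)
  push_cast at hc1 hc2
  linarith

/-- the values divisible by `q ^ 2`, if `q` divides the discriminant -/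
theorem sq_count' (a b c k : ℤ) (q : ℕ) (hq : q.Prime) (hq2 : ¬ (q : ℤ) ∣ 2 * a)
    (hqD : (q : ℤ) ∣ b ^ 2 - 4 * a * (c + k)) (X : ℕ) (S : Finset ℕ) (hS : S ⊆ Icc 1 X)
    (h : ∀ m ∈ S, ((q : ℤ) ^ 2) ∣ (fq a b c).eval (m : ℤ) + k) :
    (S.card : ℝ) ≤ (X : ℝ) / q + 1 := by
  have hqi := Nat.prime_iff_prime_int.1 hq
  have h1 : ∀ m ∈ S, (q : ℤ) ∣ 2 * a * m + b := by
    intro m hm
    apply hqi.dvd_of_dvd_pow (n := 2)
    rw [disc_id a b c k]
    exact dvd_add (((dvd_pow_self _ two_ne_zero).trans (h m hm)).mul_left _) hqD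
  apply diff_count X q hq.one_le S hS
  intro m hm m' hm'
  have h2 : (q : ℤ) ∣ 2 * a * ((m : ℤ) - m') := by
    have e : 2 * a * ((m : ℤ) - m') = (2 * a * m + b) - (2 * a * m' + b) := by ring
    rw [e]
    exact dvd_sub (h1 m hm) (h1 m' hm')
  rcases hqi.dvd_or_dvd h2 with h3 | h3
  · exact absurd h3 hq2
  · exact h3

open Classical in
/-- the pairs of a constant term and an argument with a value divisible by `q ^ 2` -/
noncomputable def Pq (a b c : ℤ) (H : ℕ) (x : ℝ) (q : ℕ) : Finset (ℤ × ℕ) :=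
  ((Icc (-(H : ℤ)) H) ×ˢ (Icc 1 ⌊x⌋₊)).filter (fun z => x / 2 < z.2 ∧
    (fq a b c).eval (z.2 : ℤ) + z.1 ≠ 0 ∧ ((q : ℤ) ^ 2) ∣ (fq a b c).eval (z.2 : ℤ) + z.1)

theorem Pq_card (a b c : ℤ) (ha : 1 ≤ a) (H : ℕ) (x : ℝ) (hx : 0 < x) (hxb : 2 * |(b : ℝ)| ≤ x)
    (q : ℕ) (hq : 1 ≤ q) (N : ℝ) (hN0 : 0 ≤ N)
    (hN : ∀ z ∈ Pq a b c H x q, |(((fq a b c).eval (z.2 : ℤ) + z.1 : ℤ) : ℝ)| ≤ N) :
    ((Pq a b c H x q).card : ℝ) ≤ 2 * (N / (q : ℝ) ^ 2) * (4 * H / x + 1) := by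
  classical
  have hq0 : (0 : ℝ) < q := by exact_mod_cast hq
  set T : ℕ := ⌊N / (q : ℝ) ^ 2⌋₊ with hT
  have hTle : (T : ℝ) ≤ N / (q : ℝ) ^ 2 := Nat.floor_le (by positivity)
  set f : ℤ × ℕ → ℤ := fun z => ((fq a b c).eval (z.2 : ℤ) + z.1) / (q : ℤ) ^ 2 with hf
  have hfm : ∀ z ∈ Pq a b c H x q, (fq a b c).eval (z.2 : ℤ) + z.1 = (q : ℤ) ^ 2 * f z := by
    intro z hz
    unfold Pq at hz
    rw [mem_filter] at hz
    simp only [hf]
    rw [Int.mul_ediv_cancel' hz.2.2.2]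
  have hft : ∀ z ∈ Pq a b c H x q, f z ∈ (Icc (-(T : ℤ)) T).erase 0 := by
    intro z hz
    have h1 := hfm z hz
    have h2 := hN z hz
    rw [h1] at h2
    push_cast at h2
    rw [abs_mul, abs_of_pos (show (0 : ℝ) < (q : ℝ) ^ 2 by positivity)] at h2
    have h3 : |((f z : ℤ) : ℝ)| ≤ N / (q : ℝ) ^ 2 := by
      rw [le_div_iff₀ (by positivity)]
      linarith
    have h4 : (f z).natAbs ≤ T := by
      rw [hT]
      apply Nat.le_floor
      rw [Nat.cast_natAbs]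
      push_cast
      exact h3
    rw [mem_erase, mem_Icc]
    refine ⟨?_, by omega, by omega⟩
    intro h5
    unfold Pq at hz
    rw [mem_filter] at hz
    apply hz.2.2.1
    rw [h1, h5, mul_zero]
  rw [card_eq_sum_card_fiberwise hft]
  push_cast
  have hfib : ∀ s ∈ (Icc (-(T : ℤ)) T).erase 0,
      (((Pq a b c H x q).filter (fun z => f z = s)).card : ℝ) ≤ 4 * H / x + 1 := by
    intro s _
    set W := (Pq a b c H x q).filter (fun z => f z = s) with hW
    have hinj : Set.InjOn (fun z : ℤ × ℕ => z.2) W := by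
      intro z hz z' hz' hzz
      rw [mem_coe, hW, mem_filter] at hz hz'
      simp only at hzz
      have h1 := hfm z hz.1
      have h2 := hfm z' hz'.1
      rw [hz.2] at h1
      rw [hz'.2, ← hzz] at h2
      have h3 : z.1 = z'.1 := by linarith
      exact Prod.ext h3 hzz
    rw [← card_image_of_injOn hinj]
    apply close_count' _ (by positivity)
    intro m hm m' hm' hmm
    obtain ⟨z, hz, rfl⟩ := mem_image.1 hm
    obtain ⟨z', hz', rfl⟩ := mem_image.1 hm'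
    rw [hW, mem_filter] at hz hz'
    have h1 := hfm z hz.1
    have h2 := hfm z' hz'.1
    rw [hz.2] at h1
    rw [hz'.2] at h2
    have g1 := hz.1
    have g2 := hz'.1
    unfold Pq at g1 g2
    rw [mem_filter, mem_product, mem_Icc, mem_Icc] at g1 g2
    have h3 : ((z'.2 : ℤ) - z.2) * (a * ((z'.2 : ℤ) + z.2) + b) = z.1 - z'.1 := by
      have := diff_id a b c 0 z'.2 z.2
      simp only [add_zero] at this
      rw [← this]
      linarith
    have h4 : (((z'.2 : ℝ)) - z.2) * (a * ((z'.2 : ℝ) + z.2) + b) = (z.1 : ℝ) - z'.1 := by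
      exact_mod_cast h3
    have h5 : (z.1 : ℝ) - z'.1 ≤ 2 * H := by
      have : z.1 - z'.1 ≤ 2 * H := by linarith [g1.1.1.2, g2.1.1.1]
      exact_mod_cast this
    have har : (1 : ℝ) ≤ a := by exact_mod_cast ha
    have h6 : x / 2 ≤ a * ((z'.2 : ℝ) + z.2) + b := by
      have e1 : (z'.2 : ℝ) + z.2 ≤ a * ((z'.2 : ℝ) + z.2) := by
        have : (0 : ℝ) ≤ (z'.2 : ℝ) + z.2 := by positivity
        nlinarith
      have e2 := neg_abs_le (b : ℝ)
      linarith [g1.2.1, g2.2.1]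
    have hmr : (z.2 : ℝ) ≤ z'.2 := by exact_mod_cast hmm
    have h7 : ((z'.2 : ℝ) - z.2) * (x / 2) ≤ 2 * H := by
      calc ((z'.2 : ℝ) - z.2) * (x / 2) ≤ ((z'.2 : ℝ) - z.2) * (a * ((z'.2 : ℝ) + z.2) + b) :=
            mul_le_mul_of_nonneg_left h6 (by linarith)
        _ ≤ 2 * H := by rw [h4]; exact h5
    rw [le_div_iff₀ hx]
    linarith
  have hcardT : (((Icc (-(T : ℤ)) T).erase 0).card : ℝ) = 2 * T := by
    have h1 : ((Icc (-(T : ℤ)) T).erase 0).card = 2 * T := by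
      rw [card_erase_of_mem (by rw [mem_Icc]; constructor <;> omega), Int.card_Icc]
      omega
    rw [h1]
    push_cast
    ring
  calc ∑ s ∈ (Icc (-(T : ℤ)) T).erase 0,
      (((Pq a b c H x q).filter (fun z => f z = s)).card : ℝ) ≤
      ∑ s ∈ (Icc (-(T : ℤ)) T).erase 0, (4 * H / x + 1) := sum_le_sum hfib
    _ = 2 * T * (4 * H / x + 1) := by rw [sum_const, nsmul_eq_mul, hcardT]
    _ ≤ 2 * (N / (q : ℝ) ^ 2) * (4 * H / x + 1) := by gcongr

open Classical in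
/-- the arguments with a value divisible by the square of a medium prime -/
noncomputable def sqb (a b c k : ℤ) (x : ℝ) (Y : ℕ) (ζ υ : ℝ) : Finset ℕ :=
  (Icc 1 ⌊x⌋₊).filter (fun m : ℕ => x / 2 < m ∧ (fq a b c).eval (m : ℤ) + k ≠ 0 ∧
    ∃ q ∈ pr Y ζ υ, q ^ 2 ∣ ((fq a b c).eval (m : ℤ) + k).natAbs)

open Classical in
theorem few_sq (a b : ℤ) (ha : 1 ≤ a) (h ζ υ ε s : ℝ) (hh : 0 < h) (hh1 : h ≤ 1) (hζ : 0 < ζ)
    (hs : 0 < s) (hsε : s ≤ ε / 8) (hsζ : s ≤ ζ / 2) (hs8 : s ≤ 1 / 8) :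
    ∃ Y0 : ℕ, ∀ Y : ℕ, Y0 ≤ Y → ∀ x : ℝ, (Y : ℝ) ^ (1 / 2 - s) ≤ x → x ^ 2 ≤ Y →
      ∀ c : ℤ, |c| ≤ Y → ∀ H : ℕ, (H : ℝ) ≤ (Y : ℝ) ^ h →
      (((Icc (-(H : ℤ)) H).filter (fun k =>
        x / (Y : ℝ) ^ (s / 2) < ((sqb a b c k x Y ζ υ).card : ℝ))).card : ℝ) ≤
        (Y : ℝ) ^ (h / 2 + ε) := by
  set N0 : ℝ := a + |(b : ℝ)| + 2 with hN0
  have har : (1 : ℝ) ≤ a := by exact_mod_cast ha
  have ha0 : a ≠ 0 := by omega
  have hN00 : 0 < N0 := by positivity
  set CM : ℕ := (b ^ 2).natAbs + 8 * a.natAbs with hCM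
  have ev1 : ∀ᶠ Y : ℕ in atTop, (2 * a.natAbs : ℝ) + 2 ≤ (Y : ℝ) ^ ζ :=
    tendsto_natCast_atTop_atTop.eventually ((tendsto_rpow_atTop hζ).eventually_ge_atTop _)
  have ev2 : ∀ᶠ Y : ℕ in atTop, max 2 (2 * |(b : ℝ)|) ≤ (Y : ℝ) ^ (1 / 2 - s) :=
    tendsto_natCast_atTop_atTop.eventually
      ((tendsto_rpow_atTop (by linarith)).eventually_ge_atTop _)
  have ev3 := Pool.Agent.Y882.polylog 28 1 (s / 2) (by linarith)
  have ev4 : ∀ᶠ Y : ℕ in atTop, 1 + 40 * N0 ≤ (Y : ℝ) ^ (7 * ε / 16) :=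
    tendsto_natCast_atTop_atTop.eventually
      ((tendsto_rpow_atTop (by linarith)).eventually_ge_atTop _)
  obtain ⟨Y1, hY1'⟩ := eventually_atTop.1 (ev1.and (ev2.and (ev3.and (ev4.and
    (eventually_ge_atTop (CM + 3))))))
  refine ⟨Y1, fun Y hY x hYx hxY c hc H hH => ?_⟩
  obtain ⟨e1, e2, e3, e4, e5⟩ := hY1' Y hY
  have hY3 : 3 ≤ Y := by omega
  have hYr : (3 : ℝ) ≤ Y := by exact_mod_cast hY3
  have hY1 : (1 : ℝ) ≤ Y := by linarith
  have hY0 : (0 : ℝ) < Y := by linarith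
  set L : ℝ := Real.log Y with hL
  have hL1 : 1 ≤ L := by
    rw [hL, Real.le_log_iff_exp_le (by linarith)]
    linarith [Real.exp_one_lt_d9]
  have hx2 : 2 ≤ x := ((le_max_left _ _).trans e2).trans hYx
  have hxb : 2 * |(b : ℝ)| ≤ x := ((le_max_right _ _).trans e2).trans hYx
  have hx0 : 0 < x := by linarith
  set X := ⌊x⌋₊ with hX
  have hXx : (X : ℝ) ≤ x := Nat.floor_le hx0.le
  have hHY : H ≤ Y := by
    have h4 : (Y : ℝ) ^ h ≤ Y := by
      calc (Y : ℝ) ^ h ≤ (Y : ℝ) ^ (1 : ℝ) := Real.rpow_le_rpow_of_exponent_le hY1 hh1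
        _ = Y := Real.rpow_one _
    exact_mod_cast hH.trans h4
  set Q0 : ℝ := x / (Y : ℝ) ^ s with hQ0
  have hYs : (0 : ℝ) < (Y : ℝ) ^ s := by positivity
  have hQ00 : 0 < Q0 := by positivity
  have hYζ : (0 : ℝ) < (Y : ℝ) ^ ζ := by positivity
  set P := pr Y ζ υ with hP
  have hPp : ∀ q ∈ P, q.Prime ∧ (Y : ℝ) ^ ζ ≤ q := fun q hq =>
    ⟨(pr_mem Y q ζ _ (by omega) hq).1, (pr_mem Y q ζ _ (by omega) hq).2.1⟩
  have hPY : ∀ q ∈ P, q ≤ Y := by
    intro q hq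
    rw [hP] at hq
    unfold pr at hq
    exact (mem_Icc.1 (mem_filter.1 hq).1).2
  have hPa : ∀ q ∈ P, ¬ (q : ℤ) ∣ 2 * a := by
    intro q hq hd
    have h1 := (hPp q hq).2
    have h3 : q ≤ (2 * a).natAbs := Nat.le_of_dvd (Int.natAbs_pos.2 (by omega)) (Int.natCast_dvd.1 hd)
    have h4 : q ≤ 2 * a.natAbs := by omega
    have h5 : (q : ℝ) ≤ 2 * a.natAbs := by exact_mod_cast h4
    linarith
  set D : ℤ → ℤ := fun k => b ^ 2 - 4 * a * (c + k) with hD
  set A0 := (Icc (-(H : ℤ)) H).filter (fun k => D k = 0) with hA0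
  -- the small primes
  have hsmall : ∀ k ∈ Icc (-(H : ℤ)) H, D k ≠ 0 → ∀ S : Finset ℕ, S ⊆ Icc 1 X →
      (∀ m ∈ S, ∃ q ∈ P, (q : ℝ) ≤ Q0 ∧ ((q : ℤ) ^ 2) ∣ (fq a b c).eval (m : ℤ) + k) →
      (S.card : ℝ) ≤ x / (Y : ℝ) ^ (s / 2) / 2 := by
    intro k hk hDk S hS hSq
    set PS := P.filter (fun q : ℕ => (q : ℝ) ≤ Q0) with hPS
    set T : ℕ → Finset ℕ := fun q => S.filter
      (fun m : ℕ => ((q : ℤ) ^ 2) ∣ (fq a b c).eval (m : ℤ) + k) with hT
    have hsub : S ⊆ PS.biUnion T := by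
      intro m hm
      obtain ⟨q, hq, hq1, hq2⟩ := hSq m hm
      rw [mem_biUnion]
      refine ⟨q, ?_, ?_⟩
      · rw [hPS, mem_filter]
        exact ⟨hq, hq1⟩
      · simp only [hT]
        rw [mem_filter]
        exact ⟨hm, hq2⟩
    have hTc : ∀ q ∈ PS, ((T q).card : ℝ) ≤ 2 * (x * (1 / (q : ℝ) ^ 2)) + 2 +
        (if (q : ℤ) ∣ D k then x / (Y : ℝ) ^ ζ + 1 else 0) := by
      intro q hq
      have hqP : q ∈ P := (mem_filter.1 hq).1
      obtain ⟨hqp, hqζ⟩ := hPp q hqP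
      have hq0 : (0 : ℝ) < q := by exact_mod_cast hqp.pos
      by_cases hd : (q : ℤ) ∣ D k
      · rw [if_pos hd]
        have h1 := sq_count' a b c k q hqp (hPa q hqP) hd X (T q) ((filter_subset _ _).trans hS)
          (fun m hm => (mem_filter.1 hm).2)
        have h2 : (X : ℝ) / q ≤ x / (Y : ℝ) ^ ζ := div_le_div₀ hx0.le hXx hYζ hqζ
        have h3 : 0 ≤ 2 * (x * (1 / (q : ℝ) ^ 2)) := by positivity
        linarith
      · rw [if_neg hd]
        have h1 := sq_count a b c k q hqp (hPa q hqP) hd X (T q) ((filter_subset _ _).trans hS)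
          (fun m hm => (mem_filter.1 hm).2)
        have h2 : (X : ℝ) / (q : ℝ) ^ 2 ≤ x * (1 / (q : ℝ) ^ 2) := by
          rw [mul_one_div]
          exact div_le_div_of_nonneg_right hXx (by positivity)
        linarith
    have h1 : (S.card : ℝ) ≤ ∑ q ∈ PS, (2 * (x * (1 / (q : ℝ) ^ 2)) + 2 +
        (if (q : ℤ) ∣ D k then x / (Y : ℝ) ^ ζ + 1 else 0)) := by
      calc (S.card : ℝ) ≤ ((PS.biUnion T).card : ℝ) := by exact_mod_cast card_le_card hsub
        _ ≤ ∑ q ∈ PS, ((T q).card : ℝ) := by exact_mod_cast card_biUnion_le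
        _ ≤ _ := sum_le_sum hTc
    rw [sum_add_distrib, sum_add_distrib, ← mul_sum, ← mul_sum, ← sum_filter, sum_const, sum_const,
      nsmul_eq_mul, nsmul_eq_mul] at h1
    have h2 : ∑ q ∈ PS, 1 / (q : ℝ) ^ 2 ≤ 2 / (Y : ℝ) ^ ζ := by
      have hQ1 : 1 ≤ ⌈(Y : ℝ) ^ ζ⌉₊ := Nat.ceil_pos.2 hYζ
      calc ∑ q ∈ PS, 1 / (q : ℝ) ^ 2 ≤ ∑ q ∈ Icc ⌈(Y : ℝ) ^ ζ⌉₊ Y, 1 / (q : ℝ) ^ 2 := by
            apply sum_le_sum_of_subset_of_nonneg
            · intro q hq
              have hqP : q ∈ P := (mem_filter.1 hq).1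
              rw [mem_Icc]
              exact ⟨Nat.ceil_le.2 (hPp q hqP).2, hPY q hqP⟩
            · intro _ _ _
              positivity
        _ ≤ 2 / (⌈(Y : ℝ) ^ ζ⌉₊ : ℝ) := tail_sq _ _ hQ1
        _ ≤ 2 / (Y : ℝ) ^ ζ := div_le_div_of_nonneg_left (by norm_num) hYζ (Nat.le_ceil _)
    have h3 : (PS.card : ℝ) ≤ Q0 := by
      have h4 : PS ⊆ Icc 1 ⌊Q0⌋₊ := by
        intro q hq
        rw [hPS, mem_filter] at hq
        rw [mem_Icc]
        exact ⟨(hPp q hq.1).1.one_le, Nat.le_floor hq.2⟩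
      have h5 := card_le_card h4
      rw [Nat.card_Icc, Nat.add_sub_cancel] at h5
      calc (PS.card : ℝ) ≤ (⌊Q0⌋₊ : ℝ) := by exact_mod_cast h5
        _ ≤ Q0 := Nat.floor_le hQ00.le
    have h4 : ((PS.filter (fun q : ℕ => (q : ℤ) ∣ D k)).card : ℝ) ≤ 4 * L := by
      have h5 : (PS.filter (fun q : ℕ => (q : ℤ) ∣ D k)).card ≤ (D k).natAbs.primeFactors.card := by
        apply card_le_card
        intro q hq
        rw [mem_filter, hPS, mem_filter] at hq
        rw [Nat.mem_primeFactors]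
        exact ⟨(hPp q hq.1.1).1, Int.natCast_dvd.1 hq.2, Int.natAbs_ne_zero.2 hDk⟩
      have h6 := Pool.Agent.H732R2.B2.omega_log _ (Int.natAbs_ne_zero.2 hDk)
      have h7 : ((PS.filter (fun q : ℕ => (q : ℤ) ∣ D k)).card : ℝ) ≤
          (D k).natAbs.primeFactors.card := by exact_mod_cast h5
      have hbound : (D k).natAbs ≤ CM * Y := by
        have h1 : |D k| ≤ |b ^ 2| + 4 * |a| * (|c| + |k|) := by
          simp only [hD]
          refine (abs_sub _ _).trans ?_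
          rw [abs_mul, abs_mul, abs_of_pos (show (0 : ℤ) < 4 by norm_num)]
          have h2 : 4 * |a| * |c + k| ≤ 4 * |a| * (|c| + |k|) :=
            mul_le_mul_of_nonneg_left (abs_add_le _ _) (by positivity)
          linarith
        have h2 : |k| ≤ Y := by
          rw [mem_Icc] at hk
          rw [abs_le]
          constructor <;> omega
        have h3 : |D k| ≤ (|b ^ 2| + 8 * |a|) * Y := by
          have h4 : |b ^ 2| ≤ |b ^ 2| * Y := by
            have : (1 : ℤ) ≤ Y := by exact_mod_cast (by omega : 1 ≤ Y)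
            exact le_mul_of_one_le_right (abs_nonneg _) this
          have h5 : 4 * |a| * (|c| + |k|) ≤ 4 * |a| * (Y + Y) :=
            mul_le_mul_of_nonneg_left (by linarith) (by positivity)
          linarith
        rw [Int.abs_eq_natAbs, Int.abs_eq_natAbs, Int.abs_eq_natAbs] at h3
        rw [hCM]
        exact_mod_cast h3
      have h8 : (D k).natAbs ≤ Y ^ 2 := by
        have : CM ≤ Y := by omega
        nlinarith
      have h9 := Real.log_le_log (show (0 : ℝ) < ((D k).natAbs : ℝ) by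
        exact_mod_cast Int.natAbs_pos.2 hDk)
        (show (((D k).natAbs : ℕ) : ℝ) ≤ (Y : ℝ) ^ 2 by exact_mod_cast h8)
      rw [Real.log_pow] at h9
      push_cast at h9
      linarith
    have hYζs : (Y : ℝ) ^ s ≤ (Y : ℝ) ^ ζ := Real.rpow_le_rpow_of_exponent_le hY1 (by linarith)
    have h5 : x / (Y : ℝ) ^ ζ ≤ Q0 := div_le_div_of_nonneg_left hx0.le hYs hYζs
    have h6 : 1 ≤ Q0 := by
      rw [hQ0, one_le_div hYs]
      refine le_trans ?_ hYx
      exact Real.rpow_le_rpow_of_exponent_le hY1 (by linarith)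
    have h7 : (S.card : ℝ) ≤ 2 * (x * (2 / (Y : ℝ) ^ ζ)) + Q0 * 2 + 4 * L * (2 * Q0) := by
      refine h1.trans ?_
      have g1 : 2 * (x * ∑ q ∈ PS, 1 / (q : ℝ) ^ 2) ≤ 2 * (x * (2 / (Y : ℝ) ^ ζ)) := by gcongr
      have g2 : (PS.card : ℝ) * 2 ≤ Q0 * 2 := by gcongr
      have g3 : ((PS.filter (fun q : ℕ => (q : ℤ) ∣ D k)).card : ℝ) * (x / (Y : ℝ) ^ ζ + 1) ≤
          4 * L * (2 * Q0) := by
        apply mul_le_mul h4 (by linarith) (by positivity) (by positivity)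
      linarith
    have h8 : 2 * (x * (2 / (Y : ℝ) ^ ζ)) = 4 * (x / (Y : ℝ) ^ ζ) := by ring
    have h9 : (S.card : ℝ) ≤ 14 * L * Q0 := by
      have : Q0 ≤ L * Q0 := le_mul_of_one_le_left hQ00.le hL1
      rw [h8] at h7
      linarith
    refine h9.trans ?_
    rw [pow_one] at e3
    have e6 : (Y : ℝ) ^ s = (Y : ℝ) ^ (s / 2) * (Y : ℝ) ^ (s / 2) := by
      rw [← Real.rpow_add hY0]
      congr 1
      ring
    have hYs2 : (0 : ℝ) < (Y : ℝ) ^ (s / 2) := by positivity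
    rw [hQ0, e6, div_div, mul_div_assoc', div_le_div_iff₀ (by positivity) (by positivity)]
    calc 14 * L * x * ((Y : ℝ) ^ (s / 2) * 2) = 28 * L * (x * (Y : ℝ) ^ (s / 2)) := by ring
      _ ≤ (Y : ℝ) ^ (s / 2) * (x * (Y : ℝ) ^ (s / 2)) :=
          mul_le_mul_of_nonneg_right e3 (by positivity)
      _ = x * ((Y : ℝ) ^ (s / 2) * (Y : ℝ) ^ (s / 2)) := by ring
  -- the large primes
  set QL := P.filter (fun q : ℕ => Q0 < q) with hQL
  set EX := (Icc (-(H : ℤ)) H).filter (fun k => D k ≠ 0 ∧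
        x / (Y : ℝ) ^ (s / 2) < ((sqb a b c k x Y ζ υ).card : ℝ)) with hEX
  set T0 : ℝ := x / (Y : ℝ) ^ (s / 2) / 2 with hT0
  have hT00 : 0 < T0 := by positivity
  set W : ℤ → Finset ℕ := fun k => (Icc 1 X).filter (fun m : ℕ => x / 2 < m ∧
    (fq a b c).eval (m : ℤ) + k ≠ 0 ∧ ∃ q ∈ QL, ((q : ℤ) ^ 2) ∣ (fq a b c).eval (m : ℤ) + k) with hW
  have hlarge : ∀ k ∈ EX, T0 ≤ ((W k).card : ℝ) := by
    intro k hk
    rw [hEX, mem_filter] at hk
    obtain ⟨hk1, hk2, hk3⟩ := hk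
    set V := (sqb a b c k x Y ζ υ).filter (fun m : ℕ => ¬ m ∈ W k) with hV
    have h1 : ((sqb a b c k x Y ζ υ).card : ℝ) ≤ (W k).card + V.card := by
      have h2 : sqb a b c k x Y ζ υ ⊆ W k ∪ V := by
        intro m hm
        by_cases h3 : m ∈ W k
        · exact mem_union_left _ h3
        · apply mem_union_right
          rw [hV, mem_filter]
          exact ⟨hm, h3⟩
      exact_mod_cast (card_le_card h2).trans (card_union_le _ _)
    have h2 := hsmall k hk1 hk2 V (by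
      intro m hm
      rw [hV, mem_filter] at hm
      have := hm.1
      unfold sqb at this
      exact (mem_filter.1 this).1) (by
      intro m hm
      rw [hV, mem_filter] at hm
      obtain ⟨hm1, hm2⟩ := hm
      unfold sqb at hm1
      rw [mem_filter] at hm1
      obtain ⟨g1, g2, g3, q, hq, hq2⟩ := hm1
      have hq3 : ((q : ℤ) ^ 2) ∣ (fq a b c).eval (m : ℤ) + k := by
        have : ((q ^ 2 : ℕ) : ℤ) ∣ (fq a b c).eval (m : ℤ) + k := Int.natCast_dvd.2 hq2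
        push_cast at this
        exact this
      refine ⟨q, hq, ?_, hq3⟩
      by_contra hcon
      push Not at hcon
      apply hm2
      simp only [hW]
      rw [mem_filter]
      exact ⟨g1, g2, g3, q, by rw [hQL, mem_filter]; exact ⟨hq, hcon⟩, hq3⟩)
    rw [hT0]
    linarith
  -- the pairs
  have hNb : ∀ q : ℕ, ∀ z ∈ Pq a b c H x q,
      |(((fq a b c).eval (z.2 : ℤ) + z.1 : ℤ) : ℝ)| ≤ N0 * Y := by
    intro q z hz
    unfold Pq at hz
    rw [mem_filter, mem_product, mem_Icc, mem_Icc] at hz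
    obtain ⟨⟨⟨g1, g2⟩, g3, g4⟩, _⟩ := hz
    rw [fq_eval]
    push_cast
    have hz2 : (z.2 : ℝ) ≤ x := by
      have : (z.2 : ℝ) ≤ X := by exact_mod_cast g4
      linarith
    have hz0 : (0 : ℝ) ≤ z.2 := Nat.cast_nonneg _
    have hxx : x ≤ x ^ 2 := by nlinarith
    have k1 : |(a : ℝ) * (z.2 : ℝ) ^ 2| ≤ a * Y := by
      rw [abs_of_nonneg (by positivity)]
      apply mul_le_mul_of_nonneg_left _ (by linarith)
      calc (z.2 : ℝ) ^ 2 ≤ x ^ 2 := pow_le_pow_left₀ hz0 hz2 2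
        _ ≤ Y := hxY
    have k2 : |(b : ℝ) * (z.2 : ℝ)| ≤ |(b : ℝ)| * Y := by
      rw [abs_mul, abs_of_nonneg hz0]
      apply mul_le_mul_of_nonneg_left _ (abs_nonneg _)
      linarith
    have k3 : |(c : ℝ)| ≤ Y := by exact_mod_cast hc
    have k4 : |(z.1 : ℝ)| ≤ Y := by
      have : |z.1| ≤ (Y : ℤ) := by
        rw [abs_le]
        constructor <;> omega
      exact_mod_cast this
    calc |(a : ℝ) * (z.2 : ℝ) ^ 2 + b * z.2 + c + z.1| ≤
        |(a : ℝ) * (z.2 : ℝ) ^ 2| + |(b : ℝ) * z.2| + |(c : ℝ)| + |(z.1 : ℝ)| := by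
          refine (abs_add_le _ _).trans ?_
          have := abs_add_le ((a : ℝ) * (z.2 : ℝ) ^ 2 + b * z.2) (c : ℝ)
          have := abs_add_le ((a : ℝ) * (z.2 : ℝ) ^ 2) (b * z.2)
          linarith
      _ ≤ N0 * Y := by rw [hN0]; linarith
  have hpairs : (EX.card : ℝ) * T0 ≤ ∑ q ∈ QL, ((Pq a b c H x q).card : ℝ) := by
    have h1 : (EX.card : ℝ) * T0 ≤ ∑ k ∈ Icc (-(H : ℤ)) H, ((W k).card : ℝ) := by
      calc (EX.card : ℝ) * T0 = ∑ k ∈ EX, T0 := by rw [sum_const, nsmul_eq_mul]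
        _ ≤ ∑ k ∈ EX, ((W k).card : ℝ) := sum_le_sum hlarge
        _ ≤ _ := sum_le_sum_of_subset_of_nonneg (filter_subset _ _)
            (fun _ _ _ => Nat.cast_nonneg _)
    refine h1.trans ?_
    have h2 : ∀ k ∈ Icc (-(H : ℤ)) H, ((W k).card : ℝ) ≤ ∑ q ∈ QL,
        (((Pq a b c H x q).filter (fun z => z.1 = k)).card : ℝ) := by
      intro k hk
      have h3 : W k ⊆ QL.biUnion (fun q => ((Pq a b c H x q).filter (fun z => z.1 = k)).image
          (fun z => z.2)) := by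
        intro m hm
        simp only [hW] at hm
        rw [mem_filter] at hm
        obtain ⟨g1, g2, g3, q, hq, hq2⟩ := hm
        rw [mem_biUnion]
        refine ⟨q, hq, ?_⟩
        rw [mem_image]
        refine ⟨(k, m), ?_, rfl⟩
        rw [mem_filter]
        refine ⟨?_, rfl⟩
        unfold Pq
        rw [mem_filter, mem_product]
        exact ⟨⟨hk, g1⟩, g2, g3, hq2⟩
      calc ((W k).card : ℝ) ≤ ((QL.biUnion (fun q => ((Pq a b c H x q).filter
          (fun z => z.1 = k)).image (fun z => z.2))).card : ℝ) := by exact_mod_cast card_le_card h3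
        _ ≤ ∑ q ∈ QL, ((((Pq a b c H x q).filter (fun z => z.1 = k)).image
            (fun z => z.2)).card : ℝ) := by exact_mod_cast card_biUnion_le
        _ ≤ _ := sum_le_sum fun q _ => by exact_mod_cast card_image_le
    refine (sum_le_sum h2).trans ?_
    rw [sum_comm]
    apply sum_le_sum
    intro q _
    have h3 := card_eq_sum_card_fiberwise (s := Pq a b c H x q) (t := Icc (-(H : ℤ)) H)
      (f := fun z => z.1) (by
        intro z hz
        unfold Pq at hz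
        rw [mem_coe, mem_filter, mem_product] at hz
        exact hz.1.1)
    rw [h3]
    push_cast
    exact le_rfl
  have hsumq : ∑ q ∈ QL, ((Pq a b c H x q).card : ℝ) ≤
      2 * (N0 * Y) * (4 * H / x + 1) * (2 / Q0) := by
    have hQ1 : 1 ≤ ⌈Q0⌉₊ := Nat.ceil_pos.2 hQ00
    calc ∑ q ∈ QL, ((Pq a b c H x q).card : ℝ) ≤
        ∑ q ∈ QL, 2 * (N0 * Y) * (4 * H / x + 1) * (1 / (q : ℝ) ^ 2) := by
          apply sum_le_sum
          intro q hq
          have hqP : q ∈ P := (mem_filter.1 hq).1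
          refine (Pq_card a b c ha H x hx0 hxb q (hPp q hqP).1.one_le (N0 * Y) (by positivity)
            (hNb q)).trans (le_of_eq ?_)
          ring
      _ = 2 * (N0 * Y) * (4 * H / x + 1) * ∑ q ∈ QL, 1 / (q : ℝ) ^ 2 := by rw [mul_sum]
      _ ≤ 2 * (N0 * Y) * (4 * H / x + 1) * (2 / Q0) := by
          apply mul_le_mul_of_nonneg_left _ (by positivity)
          calc ∑ q ∈ QL, 1 / (q : ℝ) ^ 2 ≤ ∑ q ∈ Icc ⌈Q0⌉₊ Y, 1 / (q : ℝ) ^ 2 := by
                apply sum_le_sum_of_subset_of_nonneg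
                · intro q hq
                  rw [hQL, mem_filter] at hq
                  rw [mem_Icc]
                  exact ⟨Nat.ceil_le.2 hq.2.le, hPY q hq.1⟩
                · intro _ _ _
                  positivity
            _ ≤ 2 / (⌈Q0⌉₊ : ℝ) := tail_sq _ _ hQ1
            _ ≤ 2 / Q0 := div_le_div_of_nonneg_left (by norm_num) hQ00 (Nat.le_ceil _)
  have hEXc : (EX.card : ℝ) ≤ 40 * N0 * (Y : ℝ) ^ (h / 2 + 9 * s / 2) := by
    have h1 := hpairs.trans hsumq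
    have h2 : (Y : ℝ) ^ (1 / 2 - s) * (4 * H / x + 1) ≤ 5 * ((Y : ℝ) ^ (1 / 2 - s) *
        (Y : ℝ) ^ (h / 2 + s)) := by
      have h3 : (4 * (H : ℝ) / x + 1) ≤ 5 * (Y : ℝ) ^ (h / 2 + s) := by
        have h4 : 4 * (H : ℝ) / x ≤ 4 * (Y : ℝ) ^ (h / 2 + s) := by
          rw [div_le_iff₀ hx0]
          calc 4 * (H : ℝ) ≤ 4 * (Y : ℝ) ^ h := by linarith
            _ ≤ 4 * ((Y : ℝ) ^ (h / 2 + s) * (Y : ℝ) ^ (1 / 2 - s)) := by
                rw [← Real.rpow_add hY0]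
                apply mul_le_mul_of_nonneg_left _ (by norm_num)
                apply Real.rpow_le_rpow_of_exponent_le hY1
                linarith
            _ ≤ 4 * ((Y : ℝ) ^ (h / 2 + s) * x) := by gcongr
            _ = _ := by ring
        have h5 : (1 : ℝ) ≤ (Y : ℝ) ^ (h / 2 + s) := Real.one_le_rpow hY1 (by positivity)
        linarith
      calc (Y : ℝ) ^ (1 / 2 - s) * (4 * H / x + 1) ≤
          (Y : ℝ) ^ (1 / 2 - s) * (5 * (Y : ℝ) ^ (h / 2 + s)) :=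
            mul_le_mul_of_nonneg_left h3 (by positivity)
        _ = _ := by ring
    -- clear denominators
    have h3 : (EX.card : ℝ) * x ^ 2 ≤ 8 * N0 * Y * (4 * H / x + 1) * ((Y : ℝ) ^ s *
        (Y : ℝ) ^ (s / 2)) := by
      have hYs2 : (0 : ℝ) < (Y : ℝ) ^ (s / 2) := by positivity
      have e6 : (EX.card : ℝ) * T0 * (2 * (Y : ℝ) ^ (s / 2) * x) = (EX.card : ℝ) * x ^ 2 := by
        rw [hT0]
        field_simp
      have e7 : 2 * (N0 * Y) * (4 * H / x + 1) * (2 / Q0) * (2 * (Y : ℝ) ^ (s / 2) * x) =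
          8 * N0 * Y * (4 * H / x + 1) * ((Y : ℝ) ^ s * (Y : ℝ) ^ (s / 2)) := by
        rw [hQ0, div_div_eq_mul_div]
        generalize (4 * (H : ℝ) / x + 1) = w
        field_simp
        ring
      rw [← e6, ← e7]
      exact mul_le_mul_of_nonneg_right h1 (by positivity)
    have h4 : (Y : ℝ) ^ (1 / 2 - s) * (Y : ℝ) ^ (1 / 2 - s) ≤ x ^ 2 := by
      rw [pow_two]
      exact mul_le_mul hYx hYx (by positivity) hx0.le
    have h5 : (EX.card : ℝ) * ((Y : ℝ) ^ (1 / 2 - s) * (Y : ℝ) ^ (1 / 2 - s)) ≤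
        40 * N0 * (Y : ℝ) ^ (h / 2 + 9 * s / 2) * ((Y : ℝ) ^ (1 / 2 - s) *
          (Y : ℝ) ^ (1 / 2 - s)) := by
      calc (EX.card : ℝ) * ((Y : ℝ) ^ (1 / 2 - s) * (Y : ℝ) ^ (1 / 2 - s)) ≤
          (EX.card : ℝ) * x ^ 2 := mul_le_mul_of_nonneg_left h4 (Nat.cast_nonneg _)
        _ ≤ 8 * N0 * Y * (4 * H / x + 1) * ((Y : ℝ) ^ s * (Y : ℝ) ^ (s / 2)) := h3
        _ ≤ 8 * N0 * Y * (5 * (Y : ℝ) ^ (h / 2 + s)) * ((Y : ℝ) ^ s * (Y : ℝ) ^ (s / 2)) := by
            have h6 : (4 * (H : ℝ) / x + 1) ≤ 5 * (Y : ℝ) ^ (h / 2 + s) := by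
              have h7 : (0 : ℝ) < (Y : ℝ) ^ (1 / 2 - s) := by positivity
              have h8 : (Y : ℝ) ^ (1 / 2 - s) * (4 * H / x + 1) ≤ (Y : ℝ) ^ (1 / 2 - s) *
                  (5 * (Y : ℝ) ^ (h / 2 + s)) := by linarith
              exact le_of_mul_le_mul_left h8 h7
            gcongr
        _ = 40 * N0 * ((Y : ℝ) ^ (1 : ℝ) * (Y : ℝ) ^ (h / 2 + s) * (Y : ℝ) ^ s *
            (Y : ℝ) ^ (s / 2)) := by
            rw [Real.rpow_one]
            ring
        _ = 40 * N0 * ((Y : ℝ) ^ (h / 2 + 9 * s / 2) * (Y : ℝ) ^ (1 / 2 - s) *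
            (Y : ℝ) ^ (1 / 2 - s)) := by
            rw [← Real.rpow_add hY0, ← Real.rpow_add hY0, ← Real.rpow_add hY0,
              ← Real.rpow_add hY0, ← Real.rpow_add hY0]
            congr 2
            ring
        _ = _ := by ring
    exact le_of_mul_le_mul_right h5 (by positivity)
  have hA0c : (A0.card : ℝ) ≤ 1 := by
    have h1 : A0.card ≤ 1 := by
      rw [card_le_one]
      intro k hk k' hk'
      rw [hA0, mem_filter] at hk hk'
      have h2 := hk.2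
      have h3 := hk'.2
      simp only [hD] at h2 h3
      have h4 : 4 * a * (k - k') = 0 := by linarith
      rcases mul_eq_zero.1 h4 with h5 | h5
      · exact absurd h5 (mul_ne_zero (by norm_num) ha0)
      · linarith
    exact_mod_cast h1
  have hsub : (Icc (-(H : ℤ)) H).filter (fun k =>
        x / (Y : ℝ) ^ (s / 2) < ((sqb a b c k x Y ζ υ).card : ℝ)) ⊆ A0 ∪ EX := by
    intro k hk
    rw [mem_filter] at hk
    rw [mem_union, hA0, hEX, mem_filter, mem_filter]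
    by_cases h1 : D k = 0
    · exact Or.inl ⟨hk.1, h1⟩
    · exact Or.inr ⟨hk.1, h1, hk.2⟩
  have h1 : ((((Icc (-(H : ℤ)) H).filter (fun k =>
        x / (Y : ℝ) ^ (s / 2) < ((sqb a b c k x Y ζ υ).card : ℝ))).card : ℕ) : ℝ) ≤
      A0.card + EX.card := by
    exact_mod_cast (card_le_card hsub).trans (card_union_le _ _)
  have h2 : (1 : ℝ) ≤ (Y : ℝ) ^ (h / 2 + 9 * s / 2) := Real.one_le_rpow hY1 (by positivity)
  calc ((((Icc (-(H : ℤ)) H).filter (fun k =>
        x / (Y : ℝ) ^ (s / 2) < ((sqb a b c k x Y ζ υ).card : ℝ))).card : ℕ) : ℝ) ≤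
      (1 + 40 * N0) * (Y : ℝ) ^ (h / 2 + 9 * s / 2) := by linarith
    _ ≤ (Y : ℝ) ^ (7 * ε / 16) * (Y : ℝ) ^ (h / 2 + 9 * s / 2) :=
        mul_le_mul_of_nonneg_right e4 (by positivity)
    _ ≤ (Y : ℝ) ^ (h / 2 + ε) := by
        rw [← Real.rpow_add hY0]
        apply Real.rpow_le_rpow_of_exponent_le hY1
        linarith

end Pool.Agent.H37AC
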