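import Pool.Agent.H37AC.Err
import Pool.Agent.H37AC.Low
import Pool.Agent.H37AC.Mer
import Pool.Agent.H37AC.Sq
import Pool.Agent.Y882.GP.Thm
import Pool.Agent.T6.H57.LamR

/-! Almost prime values of quadratic polynomials at primes, for all but few of the constant terms of an interval: the weighted
sieve. -/

set_option autoImplicit false

open Finset Polynomial Filter Topology

namespace Pool.Agent.H37AC

open Pool.Agent.Y882
open Pool.Agent.Y882.GP hiding WW
open Pool.Agent.Y882.KW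
open Pool.Agent.W23.DC
open Pool.Agent.H410R2
open Pool.Agent.Helper112 Pool.Agent.Helper112.BLB
open Pool.Agent.H732R2.B2 (Sc)
open Pool.Agent.Y882.PX (ro KF V_low)
open Pool.Agent.T6.H57 (Lam)

open Classical in
/-- the primes `p` in `(x / 2, x)` for which `F(p) + k` has at most `r` prime factors, all of them at least `w` -/
noncomputable def gr (F : ℤ[X]) (k : ℤ) (r : ℕ) (x w : ℝ) : Finset ℕ :=
  (Icc 1 ⌊x⌋₊).filter (fun p : ℕ => p.Prime ∧ x / 2 < p ∧ (p : ℝ) < x ∧ 1 < |F.eval (p : ℤ) + k| ∧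
    (F.eval (p : ℤ) + k).natAbs.primeFactorsList.length ≤ r ∧
    ∀ q : ℕ, q.Prime → (q : ℤ) ∣ F.eval (p : ℤ) + k → w ≤ q)

theorem TGp_le (F : ℤ[X]) (hF : 1 ≤ F.natDegree) (k : ℤ) (r : ℕ) (x w : ℝ) (G : ℕ → Prop)
    (B : Finset ℕ) (hx : 1 ≤ x) (hG : ∀ m ∈ Icc 1 ⌊x⌋₊, m.Prime → x / 2 < m → (m : ℝ) < x →
      1 < |F.eval (m : ℤ) + k| → G (F.eval (m : ℤ) + k).natAbs → m ∉ B →
      (F.eval (m : ℤ) + k).natAbs.primeFactorsList.length ≤ r ∧
      ∀ q : ℕ, q.Prime → (q : ℤ) ∣ F.eval (m : ℤ) + k → w ≤ q) :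
    TGp F x G k ≤ Real.log x * ((gr F k r x w).card + 3 * F.natDegree + B.card) +
      2 * √x * Real.log x := by
  classical
  have h0 : 0 ≤ Real.log x := Real.log_nonneg hx
  have hx0 : 0 < x := by linarith
  set Sm := (Icc 1 ⌊x⌋₊).filter (fun n : ℕ => |F.eval (n : ℤ) + k| ≤ 1) with hSm
  have h1 : TGp F x G k ≤ ∑ m ∈ Icc 1 ⌊x⌋₊, ((if m ∈ gr F k r x w then Real.log x else 0) +
      (if |F.eval (m : ℤ) + k| ≤ 1 then Real.log x else 0) +
      (if m ∈ B then Real.log x else 0) +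
      (if ¬ m.Prime then al x m else 0)) := by
    unfold TGp
    apply sum_le_sum
    intro m hm
    have hm' := hm
    rw [mem_Icc] at hm
    have hm0 : (0 : ℝ) < m := by exact_mod_cast hm.1
    have hmx : (m : ℝ) ≤ x := (Nat.le_floor_iff hx0.le).1 hm.2
    have hal0 := al_nonneg x hx0 m hm.1
    obtain ⟨c1, c2, c3, c4, c5⟩ := tw_cases x hx0 m hm.1
    have t1 : (0 : ℝ) ≤ (if m ∈ gr F k r x w then Real.log x else 0) := by
      split_ifs
      · exact h0
      · exact le_rfl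
    have t2 : (0 : ℝ) ≤ (if |F.eval (m : ℤ) + k| ≤ 1 then Real.log x else 0) := by
      split_ifs
      · exact h0
      · exact le_rfl
    have t3 : (0 : ℝ) ≤ (if ¬ m.Prime then al x m else 0) := by
      split_ifs
      · exact le_rfl
      · exact hal0
    have t4 : (0 : ℝ) ≤ (if m ∈ B then Real.log x else 0) := by
      split_ifs
      · exact h0
      · exact le_rfl
    by_cases hr : G (F.eval (m : ℤ) + k).natAbs
    · rw [if_pos hr, mul_one]
      by_cases hp : m.Prime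
      · have hal1 : al x m ≤ Real.log x := (al_le x hx0 m hm.1).trans
            (ArithmeticFunction.vonMangoldt_le_log.trans (Real.log_le_log hm0 hmx))
        by_cases h3 : x / 2 < m ∧ (m : ℝ) < x
        · by_cases h4 : |F.eval (m : ℤ) + k| ≤ 1
          · rw [if_pos h4]
            rw [if_pos h4] at t2
            linarith
          · by_cases h6 : m ∈ B
            · rw [if_pos h6]
              rw [if_pos h6] at t4
              linarith
            · have h5 : m ∈ gr F k r x w := by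
                obtain ⟨g1, g2⟩ := hG m hm' hp h3.1 h3.2 (not_le.1 h4) hr h6
                unfold gr
                rw [mem_filter]
                exact ⟨hm', hp, h3.1, h3.2, not_le.1 h4, g1, g2⟩
              rw [if_pos h5]
              rw [if_pos h5] at t1
              linarith
        · have h4 : Pool.Agent.Y882.tw x m = 0 := by
            by_contra hne
            apply h3
            constructor
            · by_contra h5
              push Not at h5
              exact hne (c3 h5)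
            · by_contra h5
              push Not at h5
              exact hne (c4 h5)
          have h5 : al x m = 0 := by unfold al; rw [h4, mul_zero]
          rw [h5]
          rw [h5] at t3
          linarith
      · rw [if_pos hp]
        linarith
    · rw [if_neg hr, mul_zero]
      linarith
  refine h1.trans ?_
  rw [sum_add_distrib, sum_add_distrib, sum_add_distrib, ← sum_filter, ← sum_filter, ← sum_filter,
    ← sum_filter, sum_const, sum_const, sum_const, nsmul_eq_mul, nsmul_eq_mul, nsmul_eq_mul]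
  have h2 := al_pp x hx
  have h3 : ((Icc 1 ⌊x⌋₊).filter (fun m => m ∈ gr F k r x w)).card ≤ (gr F k r x w).card := by
    apply card_le_card
    intro m hm
    exact (mem_filter.1 hm).2
  have h4 : (((Icc 1 ⌊x⌋₊).filter (fun n : ℕ => |F.eval (n : ℤ) + k| ≤ 1)).card : ℝ) ≤
      3 * F.natDegree := by exact_mod_cast PX.small_vals F hF k ⌊x⌋₊
  have h5 : (((Icc 1 ⌊x⌋₊).filter (fun m => m ∈ gr F k r x w)).card : ℝ) * Real.log x ≤
      (gr F k r x w).card * Real.log x := mul_le_mul_of_nonneg_right (by exact_mod_cast h3) h0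
  have h6 : (((Icc 1 ⌊x⌋₊).filter (fun n : ℕ => |F.eval (n : ℤ) + k| ≤ 1)).card : ℝ) *
      Real.log x ≤ 3 * F.natDegree * Real.log x := mul_le_mul_of_nonneg_right h4 h0
  have h7 : (((Icc 1 ⌊x⌋₊).filter (fun m => m ∈ B)).card : ℝ) * Real.log x ≤
      B.card * Real.log x := by
    apply mul_le_mul_of_nonneg_right _ h0
    have : ((Icc 1 ⌊x⌋₊).filter (fun m => m ∈ B)).card ≤ B.card :=
      card_le_card fun m hm => (mem_filter.1 hm).2
    exact_mod_cast this
  linarith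


lemma aux_sp (s κ p : ℝ) (h1 : s ≤ κ) (h2 : 0 ≤ s) (hp2 : 2 ≤ p) : s * p ≤ 2 * κ * (p - 1) := by
  have h3 : p ≤ 2 * (p - 1) := by linarith
  calc s * p ≤ κ * (2 * (p - 1)) := mul_le_mul h1 h3 (by linarith) (by linarith)
    _ = 2 * κ * (p - 1) := by ring

lemma aux_sq (s p : ℝ) (h1 : s ≤ p - 2) (hp2 : 2 ≤ p) : s * p ≤ (p - 1) * (p - 1) := by
  have h3 : s * p ≤ (p - 2) * p := mul_le_mul_of_nonneg_right h1 (by linarith)
  have h4 : (p - 2) * p = (p - 1) * (p - 1) - 1 := by ring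
  linarith

open Classical in
theorem main_Y (a b : ℤ) (ha : 1 ≤ a) (r : ℕ) (hr : 1 ≤ r) (h τ ε : ℝ) (hh : 0 < h) (hh1 : h ≤ 1)
    (hτ0 : 0 < τ) (hτ1 : τ < 1) (hL : 1 < τ * Lam r) (hε : 0 < ε) (hε1 : ε ≤ 1) :
    ∃ s : ℝ, 0 < s ∧ s ≤ 1 / 8 ∧ ∃ δ : ℝ, 0 < δ ∧ ∃ Y0 : ℕ, ∀ Y : ℕ, Y0 ≤ Y →
      ∀ x : ℝ, (Y : ℝ) ^ (1 / 2 - s) ≤ x → x ^ 2 ≤ Y → ∀ c : ℤ, |c| ≤ Y →
      ∀ H : ℕ, (H : ℝ) ≤ (Y : ℝ) ^ h →
      (((Icc (-(H : ℤ)) H).filter (fun k =>
        ((gr (fq a b c) k r x ((Y : ℝ) ^ (τ / 4))).card : ℝ) <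
          δ * x / Real.log Y * locP (fq a b c) k x)).card : ℝ) ≤
      (Y : ℝ) ^ (max (h / 2) (2 * τ - 1 / 2) + ε) := by
  set E : ℝ := max (h / 2) (2 * τ - 1 / 2) with hE
  have hEa : h / 2 ≤ E := le_max_left _ _
  have hEb : 2 * τ - 1 / 2 ≤ E := le_max_right _ _
  have ha0 : a ≠ 0 := by omega
  obtain ⟨υ, lam, S, hζυ, hυτ, hlam, hS, hint, hrS⟩ := Pool.Agent.T6.H57.lev_of r hr τ hτ0 hL
  set ζ : ℝ := τ / 4 with hζ
  have hζ0 : 0 < ζ := by linarith
  have hυ0 : 0 < υ := by linarith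
  obtain ⟨s, hs0, hs1, hs2, hs3, hs4⟩ : ∃ s : ℝ, 0 < s ∧ s ≤ ε / 64 ∧ s ≤ (1 - τ) / 2 ∧
      s ≤ ζ / 2 ∧ s ≤ 1 / 8 := by
    refine ⟨min (min (ε / 64) ((1 - τ) / 2)) (min (ζ / 2) (1 / 8)), lt_min (lt_min (by linarith)
      (by linarith)) (lt_min (by linarith) (by norm_num)),
      (min_le_left _ _).trans (min_le_left _ _), (min_le_left _ _).trans (min_le_right _ _),
      (min_le_right _ _).trans (min_le_left _ _), (min_le_right _ _).trans (min_le_right _ _)⟩
  refine ⟨s, hs0, hs4, ?_⟩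
  set θ : ℝ := 1 / 2 - s with hθ
  have hθ0 : 0 < θ := by linarith
  set τ' : ℝ := τ + s with hτ'
  have hτ'1 : τ' ≤ 1 := by rw [hτ']; linarith
  set κ : ℕ := max 2 a.natAbs with hκ
  have hκ1 : 1 ≤ κ := le_trans (by norm_num) (le_max_left _ _)
  obtain ⟨ε₁, η, f, hε₁, hε₁ζ, hε₁β, hη, hf, Y1, HC⟩ :=
    core3 κ τ ζ υ lam (lam / υ) τ' θ hζ0 (by linarith) (by linarith)
      (by linarith) hζυ hυτ hlam.le (by positivity) (by rw [div_mul_cancel₀ _ hυ0.ne'])
      (by rw [hζ]; exact hint) (by linarith) hθ0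
  have hKF : ∀ c : ℤ, KF (fq a b c) = κ := fun c => by rw [fq_KF a b c ha0]
  have hdeg : ∀ c : ℤ, 1 ≤ (fq a b c).natDegree := fun c => by rw [fq_deg a b c ha0]; norm_num
  obtain ⟨Y2, HM⟩ := mer_rs3 a b ha0 ε₁ υ η h (ε / 8) hε₁ (by linarith) hh hh1 hη (by positivity)
    (by linarith)
  obtain ⟨Y3, HE⟩ := few_err3 κ hκ1 θ h υ τ' (E + ε / 8) ε (8 * κ + 1) hθ0 hh.le hh1 (by linarith)
    hτ'1 (by linarith) (by linarith) (by rw [hτ']; linarith) hε
  obtain ⟨Y6, HQ⟩ := few_sq a b ha h ζ υ (ε / 8) s hh hh1 hζ0 hs0 (by linarith) hs3 hs4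
  obtain ⟨c0, hc0, HV⟩ := V_low (2 * κ)
  obtain ⟨Y4, HJ⟩ := exJ ε₁ hε₁
  obtain ⟨CS, hCS, HSc⟩ := Pool.Agent.H732R2.B2.Sc_bound κ (Nat.cast_nonneg _)
  obtain ⟨X2, HMs⟩ := eventually_atTop.1 mass
  set N0 : ℝ := a + |(b : ℝ)| + 2 with hN0
  -- the main term is at least `c1 x / L ^ (8 κ)`
  set c1 : ℝ := f * (c0 * (1 / 3) ^ (4 * κ)) / 20 with hc1
  have hc10 : 0 < c1 := by positivity
  have ev0 : ∀ᶠ Y : ℕ in atTop, max X2 16 ≤ (Y : ℝ) ^ θ :=
    tendsto_natCast_atTop_atTop.eventually ((tendsto_rpow_atTop hθ0).eventually_ge_atTop _)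
  have ev2 : ∀ᶠ Y : ℕ in atTop, max (16 / c1) 2 ≤ Real.log Y :=
    tendsto_natCast_atTop_atTop.eventually (Real.tendsto_log_atTop.eventually_ge_atTop _)
  have ev3 := polylog (16 / c1 * (10 * CS + 4 + 3 * 2 + 2)) (10 * κ + 4) (θ / 2)
    (by linarith)
  have ev6 := polylog (16 / c1) (8 * κ + 1) (s / 2) (by linarith)
  have ev7 : ∀ᶠ Y : ℕ in atTop, N0 ≤ (Y : ℝ) ^ (S - 1) :=
    tendsto_natCast_atTop_atTop.eventually ((tendsto_rpow_atTop (by linarith)).eventually_ge_atTop _)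
  have ev5 : ∀ᶠ Y : ℕ in atTop, (4 : ℝ) ≤ (Y : ℝ) ^ (ε / 8) :=
    tendsto_natCast_atTop_atTop.eventually
      ((tendsto_rpow_atTop (by linarith)).eventually_ge_atTop _)
  obtain ⟨Y5, HY5⟩ := eventually_atTop.1 (ev0.and (ev2.and (ev3.and (ev5.and (ev6.and (ev7.and
    (eventually_ge_atTop 3)))))))
  refine ⟨f / 80, by positivity, max (max Y1 Y2) (max (max Y3 Y4) (max Y5 Y6)), ?_⟩
  intro Y hY x hYx hxY2 c00 hcY H hHY
  set F : ℤ[X] := fq a b c00 with hF'
  have hF : 1 ≤ F.natDegree := hdeg c00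
  have hFd : F.natDegree = 2 := by rw [hF', fq_deg a b c00 ha0]
  have hF0 : F.eval 0 = c00 := by rw [hF', fq_eval]; ring
  have hY1 : Y1 ≤ Y := ((le_max_left _ _).trans (le_max_left _ _)).trans hY
  have hY2 : Y2 ≤ Y := ((le_max_right _ _).trans (le_max_left _ _)).trans hY
  have hY3 : Y3 ≤ Y := (((le_max_left _ _).trans (le_max_left _ _)).trans
    (le_max_right _ _)).trans hY
  have hY4 : Y4 ≤ Y := (((le_max_right _ _).trans (le_max_left _ _)).trans
    (le_max_right _ _)).trans hY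
  have hY5 : Y5 ≤ Y := (((le_max_left _ _).trans (le_max_right _ _)).trans
    (le_max_right _ _)).trans hY
  have hY6 : Y6 ≤ Y := (((le_max_right _ _).trans (le_max_right _ _)).trans
    (le_max_right _ _)).trans hY
  obtain ⟨f0, f2, f3, f5, f6, f7, f8⟩ := HY5 Y hY5
  set L : ℝ := Real.log Y with hL
  have hY3n : 3 ≤ Y := by omega
  have hYr : (3 : ℝ) ≤ Y := by exact_mod_cast hY3n
  have hYr1 : (1 : ℝ) ≤ Y := by linarith
  have hY0 : (0 : ℝ) < Y := by linarith
  have hL2 : 2 ≤ L := (le_max_right _ _).trans f2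
  have hL1 : 1 ≤ L := by linarith
  have hL0 : 0 < L := by linarith
  have hx16 : 16 ≤ x := ((le_max_right _ _).trans f0).trans hYx
  have hxX2 : X2 ≤ x := ((le_max_left _ _).trans f0).trans hYx
  have hx0 : 0 < x := by linarith
  have hx1 : 1 ≤ x := by linarith
  have hxY : x ≤ Y := (le_self_pow₀ hx1 two_ne_zero).trans hxY2
  have hHYn : H ≤ Y := by
    have h4 : (Y : ℝ) ^ h ≤ Y := by
      calc (Y : ℝ) ^ h ≤ (Y : ℝ) ^ (1 : ℝ) := Real.rpow_le_rpow_of_exponent_le hYr1 hh1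
        _ = Y := Real.rpow_one _
    exact_mod_cast hHY.trans h4
  have hlx : Real.log x ≤ L := Real.log_le_log hx0 hxY
  have hlx0 : 0 ≤ Real.log x := Real.log_nonneg hx1
  have hsx : √x * √x = x := Real.mul_self_sqrt hx0.le
  have hsx0 : 0 < √x := Real.sqrt_pos.2 hx0
  have hsx1 : 1 ≤ √x := by rw [Real.one_le_sqrt]; exact hx1
  have hYs : (Y : ℝ) ^ (θ / 2) ≤ √x := by
    rw [Real.sqrt_eq_rpow]
    calc (Y : ℝ) ^ (θ / 2) = ((Y : ℝ) ^ θ) ^ ((1 : ℝ) / 2) := by
          rw [← Real.rpow_mul hY0.le]; congr 1; ring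
      _ ≤ x ^ ((1 : ℝ) / 2) := Real.rpow_le_rpow (by positivity) hYx (by norm_num)
  obtain ⟨c, hcL, hcD, hcN, hcV⟩ := HC Y hY1
  obtain ⟨J, hJ1, hJ2⟩ := HJ Y hY4
  have hB1 := HM Y hY2 c00 H hcY hHY
  have hB2 := HE Y hY3 x hYx hxY F hF (hKF c00) H hHY c hcL hcD
  have hB3 := HQ Y hY6 x hYx hxY2 c00 hcY H hHY
  set M := ∑ m ∈ Icc 1 ⌊x⌋₊, al x m with hMdef
  have hM : x / 20 ≤ M := HMs x hxX2
  have hPZ : ∀ w : ℝ, ∀ p ∈ PZ Y w, p.Prime ∧ p ≤ Y ∧ (p : ℝ) < (Y : ℝ) ^ w := by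
    intro w p hp
    unfold PZ at hp
    rw [mem_filter, mem_Icc] at hp
    exact ⟨hp.2.1, hp.1.2, (tt_lt Y p w (by omega) hp.2.1.pos).1 hp.2.2⟩
  -- size of J
  have hJlog : (2 : ℝ) ^ J ≤ 3 * L := by
    have h6 := Real.log_le_log (by positivity) hJ2
    rw [Real.log_rpow (by linarith), Real.log_pow] at h6
    push_cast at h6
    have h7 : 0.69 < Real.log 2 := by linarith [Real.log_two_gt_d9]
    have h8 : (2 : ℝ) ^ J * 0.69 ≤ (2 : ℝ) ^ J * Real.log 2 :=
      mul_le_mul_of_nonneg_left h7.le (by positivity)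
    have h9 : 2 * ε₁ * L ≤ 1 * L := mul_le_mul_of_nonneg_right (by linarith) (by linarith)
    linarith
  -- the level
  set D : ℕ := ⌊(Y : ℝ) ^ τ'⌋₊ with hD
  have hDle : (D : ℝ) ≤ (Y : ℝ) ^ τ' := Nat.floor_le (by positivity)
  have hDY : (D : ℝ) ≤ Y := by
    refine hDle.trans ?_
    calc (Y : ℝ) ^ τ' ≤ (Y : ℝ) ^ (1 : ℝ) := Real.rpow_le_rpow_of_exponent_le hYr1 hτ'1
      _ = Y := Real.rpow_one _
  have hDYn : D ≤ Y := by exact_mod_cast hDY
  have hSc : Sc κ D ≤ CS * L ^ (2 * κ) := Sc_le κ D Y CS hCS HSc hY3n hDYn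
  have hSc0 : 0 ≤ Sc (κ : ℝ) D := by unfold Sc; positivity
  set R : ℝ := 2 * L ^ 3 with hR
  have hRb : ∀ g : ℕ, 1 ≤ g → g ≤ D →
      ∑ b ∈ (Icc 1 ⌊x⌋₊).filter (fun b => ¬ b.Coprime g), |al x b| ≤ R := by
    intro g hg1 hgD
    refine (al_noncop x hx1 g hg1).trans ?_
    have h1 : Real.log g ≤ L := Real.log_le_log (by exact_mod_cast hg1)
      (by exact_mod_cast hgD.trans hDYn)
    have h2 : 0 ≤ Real.log g := Real.log_natCast_nonneg g
    calc 2 * Real.log g * Real.log x ^ 2 ≤ 2 * L * L ^ 2 := by gcongr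
      _ = R := by rw [hR]; ring
  -- the exceptional sets
  set A0 := (Icc (-(H : ℤ)) H).filter (fun k => F.eval 0 + k = 0) with hA0
  set A1 := (Icc (-(H : ℤ)) H).filter (fun k => c00 + k ≠ 0 ∧ ¬ Mer (pr Y ε₁ υ) (tt Y)
        (fun p => (rs F k p : ℝ) / ((p : ℝ) - 1)) ε₁ υ η) with hA1def
  set A2 := (Icc (-(H : ℤ)) H).filter (fun k =>
        ∑ T ∈ (PZ Y υ).powerset, c T * Eg F ⌊x⌋₊ (al x) k (∏ p ∈ T, p) <
          -(x / L ^ (8 * κ + 1))) with hA2def
  set A3 := (Icc (-(H : ℤ)) H).filter (fun k =>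
        x / (Y : ℝ) ^ (s / 2) < ((sqb a b c00 k x Y ζ υ).card : ℝ)) with hA3def
  have hgood : ∀ k ∈ Icc (-(H : ℤ)) H, k ∉ A0 → k ∉ A1 → k ∉ A2 → k ∉ A3 →
      f / 80 * x / L * locP F k x ≤ (gr F k r x ((Y : ℝ) ^ (τ / 4))).card := by
    intro k hk hk0 hk1 hk2 hk3
    have hk00 : F.eval 0 + k ≠ 0 := fun h => hk0 (by rw [hA0, mem_filter]; exact ⟨hk, h⟩)
    have hmer : Mer (pr Y ε₁ υ) (tt Y) (fun p => (rs F k p : ℝ) / ((p : ℝ) - 1)) ε₁ υ η := by
      by_contra h
      exact hk1 (by rw [hA1def, mem_filter]; exact ⟨hk, by rw [← hF0]; exact hk00, h⟩)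
    have hsqb : ((sqb a b c00 k x Y ζ υ).card : ℝ) ≤ x / (Y : ℝ) ^ (s / 2) := by
      by_contra h
      push Not at h
      exact hk3 (by rw [hA3def, mem_filter]; exact ⟨hk, h⟩)
    have herr : -(x / L ^ (8 * κ + 1)) ≤
        ∑ T ∈ (PZ Y υ).powerset, c T * Eg F ⌊x⌋₊ (al x) k (∏ p ∈ T, p) := by
      by_contra h
      push Not at h
      exact hk2 (by rw [hA2def, mem_filter]; exact ⟨hk, h⟩)
    -- trivial case
    by_cases hfull : ∃ p ∈ (Icc 1 ⌊x⌋₊).filter Nat.Prime, rs F k p = p - 1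
    · obtain ⟨p, hp, hpr⟩ := hfull
      have h1 : locP F k x = 0 := by
        unfold locP
        apply prod_eq_zero hp
        have hp2 := (mem_filter.1 hp).2.two_le
        have hp2r : (2 : ℝ) ≤ p := by exact_mod_cast hp2
        rw [hpr, Nat.cast_sub (by omega), Nat.cast_one, div_self (by linarith), sub_self]
      rw [h1, mul_zero]
      positivity
    push Not at hfull
    have hlt : ∀ p : ℕ, p.Prime → p ≤ ⌊x⌋₊ → (rs F k p : ℝ) ≤ p - 2 := by
      intro p hp hpX
      have h1 := rs_le_pred F k p hp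
      have h2 := hfull p (by rw [mem_filter, mem_Icc]; exact ⟨⟨hp.one_le, hpX⟩, hp⟩)
      have h3 : rs F k p + 2 ≤ p := by
        have := hp.two_le
        omega
      have h4 : (rs F k p : ℝ) + 2 ≤ p := by exact_mod_cast h3
      linarith
    have hsubX : PZ Y ε₁ ⊆ (Icc 1 ⌊x⌋₊).filter Nat.Prime := by
      intro p hp
      obtain ⟨h1, h2, h3⟩ := hPZ ε₁ p hp
      rw [mem_filter, mem_Icc]
      refine ⟨⟨h1.one_le, ?_⟩, h1⟩
      apply Nat.le_floor
      refine h3.le.trans (le_trans ?_ hYx)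
      exact Real.rpow_le_rpow_of_exponent_le hYr1 hε₁β
    have hr01 : ∀ p ∈ (Icc 1 ⌊x⌋₊).filter Nat.Prime,
        0 ≤ 1 - (rs F k p : ℝ) / ((p : ℝ) - 1) ∧ 1 - (rs F k p : ℝ) / ((p : ℝ) - 1) ≤ 1 := by
      intro p hp
      obtain ⟨h1, h2⟩ := rs_ratio F k p (mem_filter.1 hp).2
      constructor <;> linarith
    have hlocV : locP F k x ≤ ∏ p ∈ PZ Y ε₁, (1 - (rs F k p : ℝ) / ((p : ℝ) - 1)) := by
      unfold locP
      rw [← prod_sdiff hsubX]
      calc (∏ p ∈ (Icc 1 ⌊x⌋₊).filter Nat.Prime \ PZ Y ε₁, (1 - (rs F k p : ℝ) / ((p : ℝ) - 1))) *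
          ∏ p ∈ PZ Y ε₁, (1 - (rs F k p : ℝ) / ((p : ℝ) - 1)) ≤
          1 * ∏ p ∈ PZ Y ε₁, (1 - (rs F k p : ℝ) / ((p : ℝ) - 1)) := by
            apply mul_le_mul_of_nonneg_right
            · apply prod_le_one
              · intro p hp
                exact (hr01 p (mem_sdiff.1 hp).1).1
              · intro p hp
                exact (hr01 p (mem_sdiff.1 hp).1).2
            · exact prod_nonneg fun p hp => (hr01 p (hsubX hp)).1
        _ = _ := one_mul _
    set V1 : ℝ := ∏ p ∈ PZ Y ε₁, (1 - (rs F k p : ℝ) / ((p : ℝ) - 1)) with hV1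
    have hVlow : c0 * (1 / 2 ^ J) ^ (2 * (2 * κ)) ≤ V1 := by
      have h1 := HV J (PZ Y ε₁) (fun p => (rs F k p : ℝ) * p / ((p : ℝ) - 1)) (by
        intro p hp
        obtain ⟨h1, h2, h3⟩ := hPZ ε₁ p hp
        refine ⟨h1, ?_⟩
        have := h3.trans_le hJ1
        exact_mod_cast this) (by
        intro p hp
        have hp2 : (2 : ℝ) ≤ p := by exact_mod_cast (hPZ ε₁ p hp).1.two_le
        have h1 : (rs F k p : ℝ) ≤ κ := by
          have := (rs_le_ro F k p).trans (PX.ro_le F hF k p (hPZ ε₁ p hp).1)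
          rw [hKF c00] at this
          exact_mod_cast this
        have h2 : (0 : ℝ) ≤ rs F k p := Nat.cast_nonneg _
        show (rs F k p : ℝ) * p / ((p : ℝ) - 1) ≤ ((2 * κ : ℕ) : ℝ)
        rw [div_le_iff₀ (by linarith)]
        push_cast
        exact aux_sp _ _ _ h1 h2 hp2) (by
        intro p hp
        have hp2 : (2 : ℝ) ≤ p := by exact_mod_cast (hPZ ε₁ p hp).1.two_le
        have h1 := hsubX hp
        rw [mem_filter, mem_Icc] at h1
        have h2 := hlt p h1.2 h1.1.2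
        show (rs F k p : ℝ) * p / ((p : ℝ) - 1) ≤ (p : ℝ) - 1
        rw [div_le_iff₀ (by linarith)]
        exact aux_sq _ _ h2 hp2)
      refine h1.trans (le_of_eq ?_)
      rw [hV1]
      apply prod_congr rfl
      intro p hp
      have hp2 : (2 : ℝ) ≤ p := by exact_mod_cast (hPZ ε₁ p hp).1.two_le
      have hp1 : (p : ℝ) - 1 ≠ 0 := by linarith
      have hp0 : (p : ℝ) ≠ 0 := by linarith
      congr 1
      field_simp
    have hVlow2 : c0 * (1 / 3) ^ (4 * κ) / L ^ (8 * κ) ≤ V1 := by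
      refine le_trans ?_ hVlow
      have e1 : (1 / 3 : ℝ) ^ (4 * κ) / L ^ (4 * κ) ≤ (1 / 2 ^ J) ^ (2 * (2 * κ)) := by
        rw [← div_pow, show 2 * (2 * κ) = 4 * κ by ring]
        apply pow_le_pow_left₀ (by positivity)
        rw [div_div]
        exact one_div_le_one_div_of_le (by positivity) hJlog
      have e2 : L ^ (4 * κ) ≤ L ^ (8 * κ) := pow_le_pow_right₀ hL1 (by omega)
      calc c0 * (1 / 3) ^ (4 * κ) / L ^ (8 * κ) ≤ c0 * (1 / 3) ^ (4 * κ) / L ^ (4 * κ) :=
            div_le_div_of_nonneg_left (by positivity) (by positivity) e2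
        _ = c0 * ((1 / 3 : ℝ) ^ (4 * κ) / L ^ (4 * κ)) := by ring
        _ ≤ _ := mul_le_mul_of_nonneg_left e1 hc0.le
    have hV0 : 0 < V1 := lt_of_lt_of_le (by positivity) hVlow2
    -- main inequality
    have hmain := hcV (fun p => (rs F k p : ℝ) / ((p : ℝ) - 1))
      (fun p hp => (rs_ratio F k p (hPZ υ p hp).1).1)
      (fun p hp => (rs_ratio F k p (hPZ ε₁ p hp).1).2) (by
      intro p hp _
      have hp0 : (2 : ℝ) ≤ p := by exact_mod_cast (hPZ ε₁ p hp).1.two_le
      have h1 : (rs F k p : ℝ) ≤ κ := by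
        have := (rs_le_ro F k p).trans (PX.ro_le F hF k p (hPZ ε₁ p hp).1)
        rw [hKF c00] at this
        exact_mod_cast this
      show (rs F k p : ℝ) / ((p : ℝ) - 1) ≤ κ / ((p : ℝ) - 1)
      exact div_le_div_of_nonneg_right h1 (by linarith)) hmer
    set G : ℕ → Prop := fun N => 0 < WW Y ζ υ lam (lam / υ) N with hG
    have hsubζ : PZ Y ζ ⊆ PZ Y υ := by
      intro p hp
      unfold PZ at hp ⊢
      rw [mem_filter] at hp ⊢
      exact ⟨hp.1, hp.2.1, hp.2.2.trans_le hζυ⟩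
    have hsubpr : pr Y ζ υ ⊆ PZ Y υ := by
      intro p hp
      unfold pr at hp
      unfold PZ
      rw [mem_filter] at hp ⊢
      exact ⟨hp.1, hp.2.1, hp.2.2.2⟩
    have hGdep : ∀ N N' : ℕ, (∀ p ∈ PZ Y υ, (p ∣ N ↔ p ∣ N')) → G N → G N' := by
      intro N N' hNN hGN
      have e : WW Y ζ υ lam (lam / υ) N = WW Y ζ υ lam (lam / υ) N' := by
        unfold WW
        have e1 : (∀ p ∈ PZ Y ζ, ¬ p ∣ N) ↔ (∀ p ∈ PZ Y ζ, ¬ p ∣ N') :=
          forall₂_congr fun p hp => not_congr (hNN p (hsubζ hp))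
        have e2 : ∑ q ∈ pr Y ζ υ, (lam - lam / υ * tt Y q) * (if q ∣ N then (1 : ℝ) else 0) =
            ∑ q ∈ pr Y ζ υ, (lam - lam / υ * tt Y q) * (if q ∣ N' then (1 : ℝ) else 0) := by
          apply sum_congr rfl
          intro q hq
          simp only [hNN q (hsubpr hq)]
        rw [e2]
        simp only [e1]
      simp only [hG] at hGN ⊢
      rw [← e]
      exact hGN
    have hGN : ∀ N : ℕ, VV (PZ Y υ) c (fun p => if p ∣ N then 1 else 0) ≤ if G N then 1 else 0 := by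
      intro N
      refine (hcN N).trans ?_
      by_cases hp : G N
      · rw [if_pos hp]
        exact WW_le_one Y ζ υ lam (lam / υ) (by positivity) (by rw [div_mul_cancel₀ _ hυ0.ne']) N
      · rw [if_neg hp]
        simp only [hG] at hp
        exact not_lt.1 hp
    have hlow := lowGp tw_true F hF x k (PZ Y υ) (fun p hp => (hPZ υ p hp).1) c D (5 * L) R
      (4 * L ^ 3) hx1 (by positivity) hcL (by
        intro T hT hcT
        exact Nat.le_floor (hcD T hT hcT)) G hGdep hGN hRb (by positivity) (by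
        have hm0 : (F.eval 0 + k).natAbs ≠ 0 := Int.natAbs_ne_zero.2 hk00
        refine (al_noncop x hx1 _ (Nat.pos_of_ne_zero hm0)).trans ?_
        have h3 : Real.log ((F.eval 0 + k).natAbs : ℝ) ≤ 2 * L := by
          have h6 : (F.eval 0 + k).natAbs ≤ Y ^ 2 := by
            have h7 : (F.eval 0 + k).natAbs ≤ (F.eval 0).natAbs + k.natAbs :=
              Int.natAbs_add_le _ _
            have h8 : k.natAbs ≤ Y := by
              rw [mem_Icc] at hk
              omega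
            have h8' : (F.eval 0).natAbs ≤ Y := by
              rw [hF0]
              have := abs_le.1 hcY
              omega
            have h9 : 2 * Y ≤ Y ^ 2 := by
              rw [sq]
              exact Nat.mul_le_mul_right Y (by omega)
            omega
          have h10 := Real.log_le_log (show (0 : ℝ) < ((F.eval 0 + k).natAbs : ℝ) by
            exact_mod_cast Nat.pos_of_ne_zero hm0)
            (show (((F.eval 0 + k).natAbs : ℕ) : ℝ) ≤ (Y : ℝ) ^ 2 by exact_mod_cast h6)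
          rw [Real.log_pow] at h10
          push_cast at h10
          exact h10
        have h4 : 0 ≤ Real.log ((F.eval 0 + k).natAbs : ℝ) := Real.log_natCast_nonneg _
        calc 2 * Real.log ((F.eval 0 + k).natAbs : ℝ) * Real.log x ^ 2 ≤ 2 * (2 * L) * L ^ 2 := by
              gcongr
          _ = 4 * L ^ 3 := by ring)
    have hup := TGp_le F hF k r x ((Y : ℝ) ^ (τ / 4)) G (sqb a b c00 k x Y ζ υ) hx1 (by
      intro m hm hmp hm2 hmx hm1 hGm hmB
      have hmx' : (m : ℝ) ≤ x := hmx.le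
      have hNne : (F.eval (m : ℤ) + k).natAbs ≠ 0 := by
        intro h0
        rw [Int.natAbs_eq_zero.1 h0] at hm1
        norm_num at hm1
      have hNS : (((F.eval (m : ℤ) + k).natAbs : ℕ) : ℝ) ≤ (Y : ℝ) ^ S := by
        have k0 : |((F.eval (m : ℤ) + k : ℤ) : ℝ)| ≤ N0 * Y := by
          rw [hF', fq_eval]
          push_cast
          have hz0 : (0 : ℝ) ≤ m := Nat.cast_nonneg _
          have hxx : x ≤ x ^ 2 := le_self_pow₀ hx1 two_ne_zero
          have k1 : |(a : ℝ) * (m : ℝ) ^ 2| ≤ a * Y := by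
            have har : (1 : ℝ) ≤ a := by exact_mod_cast ha
            rw [abs_of_nonneg (by positivity)]
            apply mul_le_mul_of_nonneg_left _ (by linarith)
            calc (m : ℝ) ^ 2 ≤ x ^ 2 := pow_le_pow_left₀ hz0 hmx' 2
              _ ≤ Y := hxY2
          have k2 : |(b : ℝ) * (m : ℝ)| ≤ |(b : ℝ)| * Y := by
            rw [abs_mul, abs_of_nonneg hz0]
            apply mul_le_mul_of_nonneg_left _ (abs_nonneg _)
            linarith
          have k3 : |(c00 : ℝ)| ≤ Y := by exact_mod_cast hcY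
          have k4 : |(k : ℝ)| ≤ Y := by
            have : |k| ≤ (Y : ℤ) := by
              rw [mem_Icc] at hk
              rw [abs_le]
              constructor <;> omega
            exact_mod_cast this
          calc |(a : ℝ) * (m : ℝ) ^ 2 + b * m + c00 + k| ≤
              |(a : ℝ) * (m : ℝ) ^ 2| + |(b : ℝ) * m| + |(c00 : ℝ)| + |(k : ℝ)| := by
                refine (abs_add_le _ _).trans ?_
                have := abs_add_le ((a : ℝ) * (m : ℝ) ^ 2 + b * m) (c00 : ℝ)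
                have := abs_add_le ((a : ℝ) * (m : ℝ) ^ 2) (b * m)
                linarith
            _ ≤ N0 * Y := by rw [hN0]; linarith
        rw [Nat.cast_natAbs, Int.cast_abs]
        calc |((F.eval (m : ℤ) + k : ℤ) : ℝ)| ≤ N0 * Y := k0
          _ ≤ (Y : ℝ) ^ (S - 1) * Y := mul_le_mul_of_nonneg_right f7 hY0.le
          _ = (Y : ℝ) ^ S := by
              rw [Real.rpow_sub hY0, Real.rpow_one]
              field_simp
      have hal := almost Y (by omega) ζ υ lam S r hζυ hυ0 (by linarith) hlam hrS _ hNne hNS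
        (by simpa only [hG] using hGm) (by
        intro q hq hqd
        apply hmB
        unfold sqb
        rw [mem_filter]
        refine ⟨hm, hm2, ?_, q, hq, hqd⟩
        intro h0
        apply hNne
        rw [hF', h0]
        rfl)
      refine ⟨hal.1, fun q hq hqd => ?_⟩
      have := hal.2 q hq (Int.natCast_dvd.1 hqd)
      rw [hζ] at this
      exact this)
    -- numbers
    set N : ℝ := ((gr F k r x ((Y : ℝ) ^ (τ / 4))).card : ℝ) with hN
    have hMV : x / 20 * (f * V1) ≤ M * VV (PZ Y υ) c (fun p => (rs F k p : ℝ) / ((p : ℝ) - 1)) :=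
      mul_le_mul hM hmain (by positivity) (le_trans (by positivity) hM)
    set Q : ℝ := c1 * x / L ^ (8 * κ) with hQ
    have hQ0 : 0 < Q := by positivity
    have hQV : Q ≤ x / 20 * (f * V1) := by
      calc Q = x / 20 * (f * (c0 * (1 / 3) ^ (4 * κ) / L ^ (8 * κ))) := by
            rw [hQ, hc1]
            ring
        _ ≤ x / 20 * (f * V1) := by gcongr
    have he1 : x / L ^ (8 * κ + 1) ≤ Q / 16 := by
      have h1 : 16 / c1 ≤ L := (le_max_left _ _).trans f2
      rw [div_le_iff₀ hc10] at h1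
      rw [hQ, pow_succ, div_div, div_le_div_iff₀ (by positivity) (by positivity)]
      calc x * (L ^ (8 * κ) * 16) ≤ x * (L ^ (8 * κ) * (L * c1)) := by gcongr
        _ = c1 * x * (L ^ (8 * κ) * L) := by ring
    have he2 : 5 * L * R * Sc κ D + 4 * L ^ 3 + (L * (3 * 2) + 2 * √x * L) ≤
        Q / 16 := by
      have h2 : 5 * L * R * Sc κ D + 4 * L ^ 3 + (L * (3 * 2) + 2 * √x * L) ≤
          (10 * CS + 4 + 3 * 2 + 2) * L ^ (2 * κ + 4) * √x := by
        have b1 : 5 * L * R * Sc κ D ≤ 10 * CS * L ^ (2 * κ + 4) * √x := by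
          calc 5 * L * R * Sc κ D ≤ 5 * L * R * (CS * L ^ (2 * κ)) := by gcongr
            _ = 10 * CS * L ^ (2 * κ + 4) * 1 := by rw [hR]; ring
            _ ≤ _ := by gcongr
        have b2 : 4 * L ^ 3 ≤ 4 * L ^ (2 * κ + 4) * √x := by
          calc 4 * L ^ 3 ≤ 4 * L ^ (2 * κ + 4) * 1 := by
                rw [mul_one]
                apply mul_le_mul_of_nonneg_left _ (by norm_num)
                exact pow_le_pow_right₀ hL1 (by omega)
            _ ≤ _ := by gcongr
        have b3 : L * (3 * 2) ≤ 3 * 2 * L ^ (2 * κ + 4) * √x := by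
          calc L * (3 * 2 : ℝ) = 3 * 2 * L ^ 1 * 1 := by ring
            _ ≤ 3 * 2 * L ^ (2 * κ + 4) * √x := by
                apply mul_le_mul _ hsx1 (by norm_num) (by positivity)
                apply mul_le_mul_of_nonneg_left _ (by positivity)
                exact pow_le_pow_right₀ hL1 (by omega)
        have b4 : 2 * √x * L ≤ 2 * L ^ (2 * κ + 4) * √x := by
          calc 2 * √x * L = 2 * L ^ 1 * √x := by ring
            _ ≤ 2 * L ^ (2 * κ + 4) * √x := by
                apply mul_le_mul_of_nonneg_right _ hsx0.le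
                apply mul_le_mul_of_nonneg_left _ (by norm_num)
                exact pow_le_pow_right₀ hL1 (by omega)
        linarith
      refine h2.trans ?_
      rw [hQ, div_div, le_div_iff₀ (by positivity)]
      have h3 : (16 / c1 * (10 * CS + 4 + 3 * 2 + 2)) * L ^ (10 * κ + 4) ≤ √x :=
        f3.trans hYs
      calc (10 * CS + 4 + 3 * 2 + 2) * L ^ (2 * κ + 4) * √x * (L ^ (8 * κ) * 16) =
          c1 * ((16 / c1 * (10 * CS + 4 + 3 * 2 + 2)) * L ^ (10 * κ + 4)) * √x := by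
            have : L ^ (10 * κ + 4) = L ^ (2 * κ + 4) * L ^ (8 * κ) := by ring
            rw [this]
            field_simp
        _ ≤ c1 * √x * √x := by gcongr
        _ = c1 * x := by rw [mul_assoc, hsx]
    rw [hFd] at hup
    rw [hKF c00] at hlow
    set SB : ℝ := ((sqb a b c00 k x Y ζ υ).card : ℝ) with hSB
    have he3 : L * SB ≤ Q / 16 := by
      have hYs2 : (0 : ℝ) < (Y : ℝ) ^ (s / 2) := by positivity
      calc L * SB ≤ L * (x / (Y : ℝ) ^ (s / 2)) := mul_le_mul_of_nonneg_left hsqb hL0.le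
        _ ≤ Q / 16 := by
            rw [hQ, div_div, mul_div_assoc', div_le_div_iff₀ hYs2 (by positivity)]
            have h1 : 16 * L ^ (8 * κ + 1) ≤ c1 * (Y : ℝ) ^ (s / 2) := by
              rw [div_mul_eq_mul_div, div_le_iff₀ hc10] at f6
              linarith
            calc L * x * (L ^ (8 * κ) * 16) = (16 * L ^ (8 * κ + 1)) * x := by ring
              _ ≤ (c1 * (Y : ℝ) ^ (s / 2)) * x := mul_le_mul_of_nonneg_right h1 hx0.le
              _ = _ := by ring
    have hlN : Real.log x * (N + 3 * (2 : ℕ) + SB) + 2 * √x * Real.log x ≤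
        L * N + (L * (3 * 2) + 2 * √x * L) + L * SB := by
      push_cast
      have b1 : Real.log x * (N + 3 * 2 + SB) ≤ L * (N + 3 * 2 + SB) := by
        apply mul_le_mul_of_nonneg_right hlx
        positivity
      have b2 : 2 * √x * Real.log x ≤ 2 * √x * L := by gcongr
      linarith
    have hfin : x / 20 * (f * V1) / 4 ≤ L * N := by linarith
    have hfin2 : f / 80 * x * V1 ≤ L * N := by linarith
    have hfin3 : f / 80 * x * locP F k x ≤ L * N := by
      refine le_trans ?_ hfin2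
      exact mul_le_mul_of_nonneg_left hlocV (by positivity)
    calc f / 80 * x / L * locP F k x = (f / 80 * x * locP F k x) / L := by ring
      _ ≤ (L * N) / L := div_le_div_of_nonneg_right hfin3 hL0.le
      _ = N := by field_simp
  have hsub : (Icc (-(H : ℤ)) (H : ℤ)).filter (fun k =>
        ((gr F k r x ((Y : ℝ) ^ (τ / 4))).card : ℝ) < f / 80 * x / L * locP F k x) ⊆ ((A0 ∪ A1) ∪ A2) ∪ A3 := by
    intro k hk
    rw [mem_filter] at hk
    rw [mem_union, mem_union, mem_union]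
    by_contra hcon
    push Not at hcon
    exact absurd (hgood k hk.1 hcon.1.1.1 hcon.1.1.2 hcon.1.2 hcon.2) (not_le.2 hk.2)
  have hA0c : (A0.card : ℝ) ≤ (Y : ℝ) ^ (E + 3 * ε / 4) := by
    have h1 : A0.card ≤ 1 := by
      rw [card_le_one]
      intro a ha b hb
      rw [hA0, mem_filter] at ha hb
      linarith [ha.2, hb.2]
    have h2 : (A0.card : ℝ) ≤ 1 := by exact_mod_cast h1
    refine h2.trans (Real.one_le_rpow hYr1 ?_)
    linarith
  have hA1c : (A1.card : ℝ) ≤ (Y : ℝ) ^ (E + 3 * ε / 4) :=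
    hB1.trans (Real.rpow_le_rpow_of_exponent_le hYr1 (by linarith))
  have hA2c : (A2.card : ℝ) ≤ (Y : ℝ) ^ (E + 3 * ε / 4) :=
    hB2.trans (Real.rpow_le_rpow_of_exponent_le hYr1 (by linarith))
  have hA3c : (A3.card : ℝ) ≤ (Y : ℝ) ^ (E + 3 * ε / 4) :=
    hB3.trans (Real.rpow_le_rpow_of_exponent_le hYr1 (by linarith))
  have hcu : ((((A0 ∪ A1) ∪ A2) ∪ A3).card : ℝ) ≤ A0.card + A1.card + A2.card + A3.card := by
    have h0 := card_union_le ((A0 ∪ A1) ∪ A2) A3
    have h1 := card_union_le (A0 ∪ A1) A2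
    have h2 := card_union_le A0 A1
    have h3 : (((A0 ∪ A1) ∪ A2) ∪ A3).card ≤ A0.card + A1.card + A2.card + A3.card := by omega
    exact_mod_cast h3
  calc (((Icc (-(H : ℤ)) (H : ℤ)).filter (fun k =>
        ((gr F k r x ((Y : ℝ) ^ (τ / 4))).card : ℝ) < f / 80 * x / L * locP F k x)).card : ℝ) ≤
        ((((A0 ∪ A1) ∪ A2) ∪ A3).card : ℝ) := by exact_mod_cast card_le_card hsub
    _ ≤ 4 * (Y : ℝ) ^ (E + 3 * ε / 4) := by linarith
    _ ≤ (Y : ℝ) ^ (ε / 8) * (Y : ℝ) ^ (E + 3 * ε / 4) :=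
        mul_le_mul_of_nonneg_right f5 (by positivity)
    _ ≤ (Y : ℝ) ^ (E + ε) := by
        rw [← Real.rpow_add hY0]
        apply Real.rpow_le_rpow_of_exponent_le hYr1
        linarith

end Pool.Agent.H37AC
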